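import Pool.Agent.Lib.MP_0cb87d_ag.Statement

/-!
Definitions used by the statements on L-equivalent hyperkähler manifolds.
-/

namespace Pool.Agent.Lib.MP0cb87d.LEq

open TensorProduct

/-- The elements of `ℂ ⊗ V` which come from `ℂ ⊗ S`. -/
def InCx {V : Type} [AddCommGroup V] (S : AddSubgroup V) (x : Cx V) : Prop :=
  ∃ y : Cx S, extend S.subtype y = x

/-- Every element of `comp k` is a sum of elements of the intersections of `comp k` with the
`ℂ ⊗ deg i`. -/
def IsCompatible {V : Type} [AddCommGroup V] (comp : ℤ → Submodule ℂ (Cx V))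
    (deg : ℤ → AddSubgroup V) : Prop :=
  ∀ k, ∀ x ∈ comp k, ∃ y : ℤ →₀ Cx V, (∀ i, y i ∈ comp k ∧ InCx (deg i) (y i)) ∧
    y.sum (fun _ v => v) = x

/-- A unimodular Hodge lattice with a grading by subgroups `deg i` (think of `H^{2 i}(X, ℤ)`
modulo torsion) compatible with the Hodge decomposition. -/
structure GradedHodgeLattice extends HodgeLattice where
  deg : ℤ → AddSubgroup V
  internal : DirectSum.IsInternal deg
  compatible : IsCompatible comp deg

/-- Hodge maps of degree `j`. -/
def IsHodgeDeg (j : ℤ) (N M : GradedHodgeLattice) (f : N.V →+ M.V) : Prop :=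
  IsHodge N.toHodgeLattice M.toHodgeLattice f ∧ ∀ i, ∀ x ∈ N.deg i, f x ∈ M.deg (i + j)

/-- `Bundle m` with embeddings `b i` of degree `i`. -/
def GradedBundle (m : ℕ) (N M : GradedHodgeLattice) : Prop :=
  ∃ b : Fin m → N.V →+ M.V, (∀ i : Fin m, IsHodgeDeg (i : ℕ) N M (b i)) ∧
    Function.Bijective (fun z : Fin m → N.V => ∑ i, b i (z i)) ∧
    AntiTriangular 1 m N.toHodgeLattice M.toHodgeLattice b

/-- `BlowupLattice m` with embeddings `a` of degree `0` and `b i` of degree `i + 1`. -/
def GradedBlowup (m : ℕ) (A N M : GradedHodgeLattice) : Prop :=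
  ∃ (a : A.V →+ M.V) (b : Fin m → N.V →+ M.V), IsHodgeDeg 0 A M a ∧
    (∀ i : Fin m, IsHodgeDeg ((i : ℕ) + 1) N M (b i)) ∧
    Function.Bijective (fun z : A.V × (Fin m → N.V) => a z.1 + ∑ i, b i (z.2 i)) ∧
    (∀ x y, M.dot (a x) (a y) = A.dot x y) ∧ (∀ i x y, M.dot (a x) (b i y) = 0) ∧
    AntiTriangular (-1) m N.toHodgeLattice M.toHodgeLattice b

/-- `M` is the orthogonal sum of `A` and `B`, with embeddings of degree `0`. -/
def GradedOrthSum (A B M : GradedHodgeLattice) : Prop :=
  ∃ (a : A.V →+ M.V) (b : B.V →+ M.V), IsHodgeDeg 0 A M a ∧ IsHodgeDeg 0 B M b ∧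
    Function.Bijective (fun z : A.V × B.V => a z.1 + b z.2) ∧
    (∀ x y, M.dot (a x) (a y) = A.dot x y) ∧ (∀ x y, M.dot (b x) (b y) = B.dot x y) ∧
    (∀ x y, M.dot (a x) (b y) = 0)

/-- A theory of even cohomology with its grading: isomorphism classes of smooth projective
varieties with their even integral cohomology modulo torsion, the products with the projective
line, and the relations: `X` is empty; `S` is the disjoint union of `X` and `Y`; `B` is the
blow-up of `X` along the smooth subvariety `Z` of codimension `m + 1`, with exceptional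
divisor `E`. -/
structure GradedEvenCohomology where
  Var : Type
  H : Var → GradedHodgeLattice
  timesP1 : Var → Var
  IsEmptyVar : Var → Prop
  IsUnion : Var → Var → Var → Prop
  IsBlowup : Var → Var → ℕ → Var → Var → Prop
  timesP1_spec : ∀ X, GradedBundle 2 (H X) (H (timesP1 X))
  empty_spec : ∀ X, IsEmptyVar X → Subsingleton (H X).V
  union_spec : ∀ X Y S, IsUnion X Y S → GradedOrthSum (H X) (H Y) (H S)
  blowup_spec : ∀ X Z m B E, IsBlowup X Z m B E →
    GradedBlowup m (H X) (H Z) (H B) ∧ GradedBundle (m + 1) (H Z) (H E)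

namespace GradedEvenCohomology

variable (C : GradedEvenCohomology)

open FreeAbelianGroup in
/-- Bittner's relations: `[X] = 0` for `X` empty, `[S] = [X] + [Y]` for a disjoint union,
`[B] - [E] = [X] - [Z]` for a blow-up.  The quotient of the free abelian group by them is the
Grothendieck group of varieties. -/
def relations : AddSubgroup (FreeAbelianGroup C.Var) :=
  AddSubgroup.closure
    ({z | ∃ X, C.IsEmptyVar X ∧ z = of X} ∪
     {z | ∃ X Y S, C.IsUnion X Y S ∧ z = of S - (of X + of Y)} ∪
     {z | ∃ X Z m B E, C.IsBlowup X Z m B E ∧ z = (of B - of E) - (of X - of Z)})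

open FreeAbelianGroup in
/-- Multiplication by the class of the affine line: `[X] ↦ [X × ℙ¹] - [X]`. -/
def mulL : FreeAbelianGroup C.Var →+ FreeAbelianGroup C.Var :=
  lift fun X => of (C.timesP1 X) - of X

/-- `X` and `Y` are L-equivalent: `𝕃 ^ n ([X] - [Y]) = 0` in the Grothendieck group for some
`n`. -/
def LEquivalent (X Y : C.Var) : Prop :=
  ∃ n : ℕ, (C.mulL)^[n] (FreeAbelianGroup.of X - FreeAbelianGroup.of Y) ∈ C.relations

end GradedEvenCohomology

/-- The elements of type `k` of `ℂ ⊗ H²`. -/
def InH2 (N : GradedHodgeLattice) (k : ℤ) (x : Cx N.V) : Prop :=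
  x ∈ N.comp k ∧ InCx (N.deg 1) x

/-- The `n`-th power in the complexification `ℂ ⊗ A` of a commutative ring. -/
noncomputable def cxPow (A : Type) [CommRing A] (n : ℕ) (x : Cx A) : Cx A :=
  HPow.hPow (α := ℂ ⊗[ℤ] A) (β := ℕ) (γ := ℂ ⊗[ℤ] A) x n

/-- The cup product: a commutative ring `A` identified with `N` by `e`, such that
`(e a, e b) = tr (a b)`. -/
structure CupProduct (N : HodgeLattice) where
  A : Type
  [ring : CommRing A]
  e : A ≃+ N.V
  tr : A →+ ℤ
  dot_eq : ∀ a b : A, N.dot (e a) (e b) = tr (a * b)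

attribute [instance] CupProduct.ring

/-- The `n`-th power of an element of the complexified even cohomology. -/
noncomputable def CupProduct.pow {N : HodgeLattice} (P : CupProduct N) (n : ℕ) (x : Cx N.V) :
    Cx N.V :=
  extend P.e.toAddMonoidHom (cxPow P.A n (extend P.e.symm.toAddMonoidHom x))

/-- A form `q` like that of Beauville, Bogomolov and Fujiki on `H² = deg 1`: it is symmetric,
the parts of type `k` and `l` are orthogonal if `k + l ≠ 0`, `q (x, conj x) > 0` for nonzero `x` of
type `2`, and `q (x, conj x) < 0` for nonzero `x` of type `0` orthogonal to the algebraic classes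
in `H²`. -/
structure IsBBForm (N : GradedHodgeLattice) (q : LinearMap.BilinForm ℤ N.V) : Prop where
  symm : ∀ x ∈ N.deg 1, ∀ y ∈ N.deg 1, q x y = q y x
  orth : ∀ k l x y, k + l ≠ 0 → InH2 N k x → InH2 N l y → pair q x y = 0
  pos : ∀ x, InH2 N 2 x → x ≠ 0 → 0 < (pair q x (bar x)).re
  index : ∀ x, InH2 N 0 x →
    (∀ y, IsAlgebraic N.toHodgeLattice y → y ∈ N.deg 1 → pair q x (toCx y) = 0) → x ≠ 0 →
    (pair q x (bar x)).re < 0

/-- The types of a hyperkähler manifold of dimension `2 n`: only `-2, 0, 2` on `H²`, with a line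
of type `2`; no type `k > 2 n` in the even cohomology, and a line of type `2 n`. -/
structure HasTypes (n : ℕ) (N : GradedHodgeLattice) : Prop where
  eq_zero : ∀ k x, k ≠ -2 → k ≠ 0 → k ≠ 2 → InH2 N k x → x = 0
  line : ∃ σ, σ ≠ 0 ∧ ∀ x, InH2 N 2 x ↔ ∃ c : ℂ, x = c • σ
  comp_eq_bot : ∀ k : ℤ, 2 * (n : ℤ) < k → N.comp k = ⊥
  finrank_comp : Module.finrank ℂ (N.comp (2 * n)) = 1

/-- The even cohomology of a projective hyperkähler manifold of dimension `2 n`: a graded
unimodular Hodge lattice `N` with its types, the cup product, and the form `q` on `H²` of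
Beauville, Bogomolov and Fujiki; the `n`-th powers of the elements of type `2` in `H²` have type
`2 n`, and `(x ^ n, y ^ n) = c * q (x, y) ^ n` for all `x`, `y` in `ℂ ⊗ H²` with
`q (x, x) = q (y, y) = 0` (relation of Fujiki); here `c > 0` is rational. -/
structure Hyperkahler (n : ℕ) (N : GradedHodgeLattice) where
  types : HasTypes n N
  cup : CupProduct N.toHodgeLattice
  q : LinearMap.BilinForm ℤ N.V
  isBB : IsBBForm N q
  pow_mem : ∀ x, InH2 N 2 x → cup.pow n x ∈ N.comp (2 * n)
  c : ℚ
  c_pos : 0 < c
  fujiki : ∀ x y, InCx (N.deg 1) x → InCx (N.deg 1) y → pair q x x = 0 → pair q y y = 0 →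
    pair N.form (cup.pow n x) (cup.pow n y) = c * pair q x y ^ n

namespace Hyperkahler

variable {n : ℕ} {N : GradedHodgeLattice} (h : Hyperkahler n N)

/-- The transcendental classes: in `H²` and orthogonal to the algebraic classes of `H²` for the
form `q`. -/
def IsTrans (x : N.V) : Prop :=
  x ∈ N.deg 1 ∧ ∀ y ∈ N.deg 1, IsAlgebraic N.toHodgeLattice y → h.q x y = 0

/-- The group of the transcendental classes. -/
def trans : AddSubgroup N.V where
  carrier := {x | h.IsTrans x}
  add_mem' := fun {a b} ha hb => ⟨add_mem ha.1 hb.1, fun y hy hy' => by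
    simp [ha.2 y hy hy', hb.2 y hy hy']⟩
  zero_mem' := ⟨zero_mem _, fun y _ _ => by simp⟩
  neg_mem' := fun {a} ha => ⟨neg_mem ha.1, fun y hy hy' => by simp [ha.2 y hy hy']⟩

/-- The transcendental lattice. -/
def T : Type := h.trans

instance : AddCommGroup h.T := inferInstanceAs (AddCommGroup h.trans)

/-- The inclusion of the transcendental lattice. -/
def incl : h.T →+ N.V := h.trans.subtype

/-- The form `q` on the transcendental lattice. -/
def qT (x y : h.T) : ℤ := h.q (h.incl x) (h.incl y)

/-- The elements of type `k` of the complexification of the transcendental lattice. -/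
def OfType (k : ℤ) (x : Cx h.T) : Prop := extend h.incl x ∈ N.comp k

variable {n' : ℕ} {N' : GradedHodgeLattice} (h' : Hyperkahler n' N')

variable {h h'} in
/-- Homomorphisms between transcendental lattices compatible with the Hodge decompositions. -/
def IsHodge (f : h.T →+ h'.T) : Prop := ∀ k x, h.OfType k x → h'.OfType k (extend f x)

/-- The rational transcendental lattices of two hyperkähler manifolds, with the forms `c q`, are
Hodge isometric: for some `r > 0` there is an injective Hodge map `f` between the transcendental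
lattices, with image of finite index, and `c' q' (f x, f y) = r ^ 2 c q (x, y)`. -/
def RationallyIsometric : Prop :=
  ∃ (r : ℕ) (f : h.T →+ h'.T), 0 < r ∧ IsHodge f ∧ Function.Injective f ∧
    (∃ m : ℕ, 0 < m ∧ ∀ y, ∃ x, f x = m • y) ∧
    ∀ x y, h'.c * h'.qT (f x) (f y) = (r : ℚ) ^ 2 * (h.c * h.qT x y)

end Hyperkahler

end Pool.Agent.Lib.MP0cb87d.LEq
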