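import Pool.Agent.Lib.MP_0cb87d_ag.HK.Final
import Pool.Agent.Lib.MP_0cb87d_ag.HK.Statement
import Pool.Agent.Lib.MP_0cb87d_ag.Bridge

/-! The theorem on hyperkähler manifolds in terms of the definitions of `HK.Statement`. -/

namespace Pool.Agent.Lib.MP0cb87d.LEq

open TensorProduct

/-- The graded lattice in terms of the definitions of `HK.Defs`. -/
def glat (N : GradedHodgeLattice) : MP0cb87d.GradedHodgeLattice where
  toHodgeLattice := lat N.toHodgeLattice
  deg := fun i => AddSubgroup.toIntSubmodule (N.deg i)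
  deg_internal := N.internal
  comp_graded := fun k x hx => by
    obtain ⟨y, hy, h⟩ := N.compatible k x hx
    exact ⟨y, fun i => ⟨(hy i).1, (hy i).2⟩, h⟩

/-- The theory in terms of the definitions of `HK.Defs`. -/
def gthy (C : GradedEvenCohomology) : MP0cb87d.GradedEvenCohomology where
  Var := C.Var
  H := fun X => glat (C.H X)
  timesP1 := C.timesP1
  IsEmptyVar := C.IsEmptyVar
  IsUnion := C.IsUnion
  IsBlowup := C.IsBlowup
  timesP1_spec := fun X => by
    obtain ⟨b, h1, h2, h3⟩ := C.timesP1_spec X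
    refine ⟨fun i => (b i).toIntLinearMap, h1, h2, fun i j hij x y => (h3 i j x y).1 hij,
      fun i j hij x y => ?_⟩
    have := (h3 i j x y).2 hij
    rw [one_mul] at this
    exact this
  empty_spec := C.empty_spec
  union_spec := fun X Y S h => by
    obtain ⟨a, b, h1, h2, h3, h4, h5, h6⟩ := C.union_spec X Y S h
    exact ⟨a.toIntLinearMap, b.toIntLinearMap, h1, h2, h3, h4, h5, h6⟩
  blowup_spec := fun X Z m B E h => by
    obtain ⟨⟨a, b, h1, h2, h3, h4, h5, h6⟩, b', k1, k2, k3⟩ := C.blowup_spec X Z m B E h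
    refine ⟨⟨a.toIntLinearMap, fun i => (b i).toIntLinearMap, h1, h2, h3, h4, h5,
      fun i j hij x y => (h6 i j x y).1 hij, fun i j hij x y => ?_⟩,
      ⟨fun i => (b' i).toIntLinearMap, k1, k2, fun i j hij x y => (k3 i j x y).1 hij,
      fun i j hij x y => ?_⟩⟩
    · have := (h6 i j x y).2 hij
      rw [neg_one_mul] at this
      exact this
    · have := (k3 i j x y).2 hij
      rw [one_mul] at this
      exact this

theorem glequivalent (C : GradedEvenCohomology) (X Y : C.Var) (h : C.LEquivalent X Y) :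
    (gthy C).LEquivalent X Y := h

theorem inH2_iff (N : GradedHodgeLattice) (k : ℤ) (x : Cx N.V) :
    InH2 N k x ↔ x ∈ comp2 (glat N) k := Iff.rfl

theorem extend_symm {V W : Type} [AddCommGroup V] [AddCommGroup W] (e : V ≃+ W) (x : Cx V) :
    extend e.symm.toAddMonoidHom (extend e.toAddMonoidHom x) = x := by
  rw [← extend_comp]
  have : e.symm.toAddMonoidHom.comp e.toAddMonoidHom = AddMonoidHom.id V := by
    ext v
    simp
  rw [this, extend_id]

theorem pow_extend {N : HodgeLattice} (P : CupProduct N) (n : ℕ) (x : Cx P.A) :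
    P.pow n (extend P.e.toAddMonoidHom x) = extend P.e.toAddMonoidHom (cxPow P.A n x) := by
  rw [CupProduct.pow, extend_symm]

/-- The hyperkähler structure in terms of the definitions of `HK.Defs`. -/
noncomputable def hk {n : ℕ} {N : GradedHodgeLattice} (h : Hyperkahler n N) :
    MP0cb87d.Hyperkahler n (glat N) where
  A := h.cup.A
  e := h.cup.e.toIntLinearEquiv
  tr := h.cup.tr.toIntLinearMap
  form_eq := h.cup.dot_eq
  q := h.q
  q_symm := h.isBB.symm
  q_orth := fun k l hkl x hx y hy => h.isBB.orth k l x y hkl hx hy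
  comp2_eq_bot := fun k h1 h2 h3 => by
    rw [eq_bot_iff]
    exact fun x hx => h.types.eq_zero k x h1 h2 h3 hx
  finrank_comp2 := by
    obtain ⟨σ, hσ, hx⟩ := h.types.line
    have h1 : σ ∈ comp2 (glat N) 2 := (hx σ).2 ⟨1, (one_smul ℂ σ).symm⟩
    rw [finrank_eq_one_iff']
    refine ⟨⟨σ, h1⟩, fun h0 => hσ (congrArg Subtype.val h0), fun w => ?_⟩
    obtain ⟨c, hc⟩ := (hx w.1).1 w.2
    exact ⟨c, Subtype.ext hc.symm⟩
  q_pos := fun x hx hx0 => h.isBB.pos x hx hx0
  q_index := fun x hx hy hx0 => h.isBB.index x hx (fun y h1 h2 => hy y h1 h2) hx0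
  comp_eq_bot := h.types.comp_eq_bot
  finrank_comp := h.types.finrank_comp
  pow_mem := fun x hx => by
    have := h.pow_mem (extend h.cup.e.toAddMonoidHom x) hx
    rw [pow_extend] at this
    exact this
  c := h.c
  c_pos := h.c_pos
  fujiki := fun x y hx hy hxx hyy => by
    have := h.fujiki (extend h.cup.e.toAddMonoidHom x) (extend h.cup.e.toAddMonoidHom y)
      hx hy hxx hyy
    rw [pow_extend, pow_extend] at this
    exact this

theorem mem_trans_iff {n : ℕ} {N : GradedHodgeLattice} (h : Hyperkahler n N) (x : N.V) :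
    x ∈ h.trans ↔ x ∈ (hk h).trans :=
  ⟨fun hx => ⟨hx.1, fun y h1 h2 => hx.2 y h2 h1⟩, fun hx => ⟨hx.1, fun y h1 h2 => hx.2 y h2 h1⟩⟩

/-- The transcendental lattices agree. -/
def tEquiv {n : ℕ} {N : GradedHodgeLattice} (h : Hyperkahler n N) : h.T ≃+ (hk h).trans where
  toFun x := ⟨x.1, (mem_trans_iff h _).1 x.2⟩
  invFun x := ⟨x.1, (mem_trans_iff h _).2 x.2⟩
  left_inv _ := rfl
  right_inv _ := rfl
  map_add' _ _ := rfl

theorem ofType_iff {n : ℕ} {N : GradedHodgeLattice} (h : Hyperkahler n N) (k : ℤ) (x : Cx h.T) :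
    h.OfType k x ↔ (hk h).trans.subtype.baseChange ℂ
      (extend (tEquiv h).toAddMonoidHom x) ∈ (glat N).comp k := by
  have h1 : extend h.incl x = extend (hk h).trans.subtype.toAddMonoidHom
      (extend (tEquiv h).toAddMonoidHom x) := by
    rw [← extend_comp]
    rfl
  rw [Hyperkahler.OfType, h1]
  rfl

theorem ratHK {n n' : ℕ} {N N' : GradedHodgeLattice} (h : Hyperkahler n N)
    (h' : Hyperkahler n' N') (hh : TransIsometric (hk h) (hk h')) :
    Hyperkahler.RationallyIsometric h h' := by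
  obtain ⟨r, f, h1, h2, h3, ⟨m, hm, h4⟩, h5⟩ := hh
  refine ⟨r, ((tEquiv h').symm.toAddMonoidHom.comp f.toAddMonoidHom).comp
    (tEquiv h).toAddMonoidHom, h1, fun k x hx => ?_, ?_, ⟨m, hm, fun y => ?_⟩, fun x y => ?_⟩
  · rw [ofType_iff, extend_comp, extend_comp]
    have h6 : extend (tEquiv h').toAddMonoidHom (extend (tEquiv h').symm.toAddMonoidHom
        (extend f.toAddMonoidHom (extend (tEquiv h).toAddMonoidHom x))) =
        extend f.toAddMonoidHom (extend (tEquiv h).toAddMonoidHom x) :=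
      extend_symm (tEquiv h').symm _
    rw [h6]
    exact h2 k _ ((ofType_iff h k x).1 hx)
  · exact ((tEquiv h').symm.injective.comp h3).comp (tEquiv h).injective
  · obtain ⟨x, hx⟩ := h4 (tEquiv h' y)
    refine ⟨(tEquiv h).symm x, ?_⟩
    change (tEquiv h').symm (f (tEquiv h ((tEquiv h).symm x))) = m • y
    rw [AddEquiv.apply_symm_apply, hx, map_nsmul, AddEquiv.symm_apply_apply]
  · exact h5 (tEquiv h x) (tEquiv h y)

theorem rationallyHK (C : GradedEvenCohomology) (X Y : C.Var) (n : ℕ) (hn : Odd n)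
    (hX : Hyperkahler n (C.H X)) (hY : Hyperkahler n (C.H Y)) (h : C.LEquivalent X Y) :
    Hyperkahler.RationallyIsometric hX hY :=
  ratHK hX hY (mainHK (gthy C) X Y n hn (hk hX) (hk hY) (glequivalent C X Y h))

end Pool.Agent.Lib.MP0cb87d.LEq
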