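import Pool.Agent.Lib.MP_0cb87d_ag.Defs

/-! Definitions used by the statement on L-equivalent hyperkähler manifolds. -/

namespace Pool.Agent.Lib.MP0cb87d

open TensorProduct

/-- A unimodular Hodge lattice with a grading by subgroups `deg i` (think of `H^{2 i}(X, ℤ)`
modulo torsion): every `comp k` is the sum of its intersections with the `ℂ ⊗ deg i`. -/
structure GradedHodgeLattice extends HodgeLattice where
  deg : ℤ → Submodule ℤ V
  deg_internal : DirectSum.IsInternal deg
  comp_graded : ∀ k, ∀ x ∈ comp k, ∃ y : ℤ →₀ ℂ ⊗[ℤ] V,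
    (∀ i, y i ∈ comp k ∧ y i ∈ (deg i).baseChange ℂ) ∧ y.sum (fun _ v => v) = x

/-- Hodge maps of degree `j`. -/
def IsHodgeDeg (j : ℤ) (N M : GradedHodgeLattice) (f : N.V →ₗ[ℤ] M.V) : Prop :=
  IsHodge N.toHodgeLattice M.toHodgeLattice f ∧ ∀ i, ∀ x ∈ N.deg i, f x ∈ M.deg (i + j)

/-- `Bundle 1 m` with embeddings `b i` of degree `i`. -/
def GradedBundle (m : ℕ) (N M : GradedHodgeLattice) : Prop :=
  ∃ b : Fin m → N.V →ₗ[ℤ] M.V, (∀ i : Fin m, IsHodgeDeg (i : ℕ) N M (b i)) ∧
    Function.Bijective (fun z : Fin m → N.V => ∑ i, b i (z i)) ∧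
    (∀ i j : Fin m, (i : ℕ) + j + 1 < m → ∀ x y, M.form (b i x) (b j y) = 0) ∧
    (∀ i j : Fin m, (i : ℕ) + j + 1 = m → ∀ x y, M.form (b i x) (b j y) = N.form x y)

/-- `BlowupLattice m` with embeddings `a` of degree `0`, `b i` of degree `i + 1`. -/
def GradedBlowup (m : ℕ) (A N M : GradedHodgeLattice) : Prop :=
  ∃ (a : A.V →ₗ[ℤ] M.V) (b : Fin m → N.V →ₗ[ℤ] M.V), IsHodgeDeg 0 A M a ∧
    (∀ i : Fin m, IsHodgeDeg ((i : ℕ) + 1) N M (b i)) ∧
    Function.Bijective (fun z : A.V × (Fin m → N.V) => a z.1 + ∑ i, b i (z.2 i)) ∧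
    (∀ x y, M.form (a x) (a y) = A.form x y) ∧
    (∀ i x y, M.form (a x) (b i y) = 0) ∧
    (∀ i j : Fin m, (i : ℕ) + j + 1 < m → ∀ x y, M.form (b i x) (b j y) = 0) ∧
    (∀ i j : Fin m, (i : ℕ) + j + 1 = m → ∀ x y, M.form (b i x) (b j y) = - N.form x y)

/-- `M` is the orthogonal sum of `A` and `B`, with embeddings of degree `0`. -/
def GradedOrthSum (A B M : GradedHodgeLattice) : Prop :=
  ∃ (a : A.V →ₗ[ℤ] M.V) (b : B.V →ₗ[ℤ] M.V), IsHodgeDeg 0 A M a ∧ IsHodgeDeg 0 B M b ∧
    Function.Bijective (fun z : A.V × B.V => a z.1 + b z.2) ∧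
    (∀ x y, M.form (a x) (a y) = A.form x y) ∧ (∀ x y, M.form (b x) (b y) = B.form x y) ∧
    (∀ x y, M.form (a x) (b y) = 0)

/-- A theory of even cohomology with its grading: isomorphism classes of smooth projective
varieties with their even integral cohomology modulo torsion, the products with the projective
line, and the relations: `X` is empty; `S` is the disjoint union of `X` and `Y`; `B` is the
blow-up of `X` along the smooth subvariety `Z` of codimension `m + 1`, with exceptional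
divisor `E`. -/
structure GradedEvenCohomology where
  Var : Type
  H : Var → GradedHodgeLattice
  timesP1 : Var → Var
  IsEmptyVar : Var → Prop
  IsUnion : Var → Var → Var → Prop
  IsBlowup : Var → Var → ℕ → Var → Var → Prop
  timesP1_spec : ∀ X, GradedBundle 2 (H X) (H (timesP1 X))
  empty_spec : ∀ X, IsEmptyVar X → Subsingleton (H X).V
  union_spec : ∀ X Y S, IsUnion X Y S → GradedOrthSum (H X) (H Y) (H S)
  blowup_spec : ∀ X Z m B E, IsBlowup X Z m B E →
    GradedBlowup m (H X) (H Z) (H B) ∧ GradedBundle (m + 1) (H Z) (H E)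

namespace GradedEvenCohomology

variable (C : GradedEvenCohomology)

open FreeAbelianGroup in
/-- Bittner's relations: `[X] = 0` for `X` empty, `[S] = [X] + [Y]` for a disjoint union,
`[B] - [E] = [X] - [Z]` for a blow-up.  The quotient of the free abelian group by them is the
Grothendieck group of varieties. -/
def relations : AddSubgroup (FreeAbelianGroup C.Var) :=
  AddSubgroup.closure
    ({z | ∃ X, C.IsEmptyVar X ∧ z = of X} ∪
     {z | ∃ X Y S, C.IsUnion X Y S ∧ z = of S - (of X + of Y)} ∪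
     {z | ∃ X Z m B E, C.IsBlowup X Z m B E ∧ z = (of B - of E) - (of X - of Z)})

open FreeAbelianGroup in
/-- Multiplication by the class of the affine line: `[X] ↦ [X × ℙ¹] - [X]`. -/
def mulL : FreeAbelianGroup C.Var →+ FreeAbelianGroup C.Var :=
  lift fun X => of (C.timesP1 X) - of X

/-- `X` and `Y` are L-equivalent: `𝕃 ^ n ([X] - [Y]) = 0` in the Grothendieck group for some
`n`. -/
def LEquivalent (X Y : C.Var) : Prop :=
  ∃ n : ℕ, (C.mulL)^[n] (FreeAbelianGroup.of X - FreeAbelianGroup.of Y) ∈ C.relations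

end GradedEvenCohomology

/-- The part of type `k` of `H²`. -/
def comp2 (N : GradedHodgeLattice) (k : ℤ) : Submodule ℂ (ℂ ⊗[ℤ] N.V) :=
  N.comp k ⊓ (N.deg 1).baseChange ℂ

/-- The even cohomology of a projective hyperkähler manifold of dimension `2 n`: a graded
unimodular Hodge lattice `N`, the cohomology ring `A`, identified with `N` by `e`, with
`(e a, e b) = tr (a b)`, and the form `q` on `H² = deg 1` of Beauville, Bogomolov and Fujiki, with
* `H²` has only parts of type `-2, 0, 2`, the part of type `2` is a line on which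
  `q (x, conj x) > 0`, and `q (x, conj x) < 0` for nonzero `x` of type `0` in `H²` orthogonal to
  the algebraic classes in `H²`,
* `N` has no part of type `k > 2 n`, the part of type `2 n` is a line, and it contains the `n`-th
  powers of the elements of type `2` in `H²`,
* the relation of Fujiki: `(x ^ n, y ^ n) = c * q (x, y) ^ n` for all `x`, `y` in `H²` with
  `q (x, x) = q (y, y) = 0`; here `c > 0` is rational. -/
structure Hyperkahler (n : ℕ) (N : GradedHodgeLattice) where
  A : Type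
  [ring : CommRing A]
  e : A ≃ₗ[ℤ] N.V
  tr : A →ₗ[ℤ] ℤ
  form_eq : ∀ a b : A, N.form (e a) (e b) = tr (a * b)
  q : LinearMap.BilinForm ℤ N.V
  q_symm : ∀ x ∈ N.deg 1, ∀ y ∈ N.deg 1, q x y = q y x
  q_orth : ∀ k l, k + l ≠ 0 → ∀ x ∈ comp2 N k, ∀ y ∈ comp2 N l, q.baseChange ℂ x y = 0
  comp2_eq_bot : ∀ k, k ≠ -2 → k ≠ 0 → k ≠ 2 → comp2 N k = ⊥
  finrank_comp2 : Module.finrank ℂ (comp2 N 2) = 1
  q_pos : ∀ x ∈ comp2 N 2, x ≠ 0 → 0 < (q.baseChange ℂ x (conj N.V x)).re
  q_index : ∀ x ∈ comp2 N 0,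
    (∀ y ∈ algebraic N.toHodgeLattice, y ∈ N.deg 1 → q.baseChange ℂ x (1 ⊗ₜ y) = 0) → x ≠ 0 →
    (q.baseChange ℂ x (conj N.V x)).re < 0
  comp_eq_bot : ∀ k : ℤ, 2 * (n : ℤ) < k → N.comp k = ⊥
  finrank_comp : Module.finrank ℂ (N.comp (2 * n)) = 1
  pow_mem : ∀ x : ℂ ⊗[ℤ] A, e.toLinearMap.baseChange ℂ x ∈ comp2 N 2 →
    e.toLinearMap.baseChange ℂ (x ^ n) ∈ N.comp (2 * n)
  c : ℚ
  c_pos : 0 < c
  fujiki : ∀ x y : ℂ ⊗[ℤ] A, e.toLinearMap.baseChange ℂ x ∈ (N.deg 1).baseChange ℂ →
    e.toLinearMap.baseChange ℂ y ∈ (N.deg 1).baseChange ℂ →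
    q.baseChange ℂ (e.toLinearMap.baseChange ℂ x) (e.toLinearMap.baseChange ℂ x) = 0 →
    q.baseChange ℂ (e.toLinearMap.baseChange ℂ y) (e.toLinearMap.baseChange ℂ y) = 0 →
    N.form.baseChange ℂ (e.toLinearMap.baseChange ℂ (x ^ n)) (e.toLinearMap.baseChange ℂ (y ^ n)) =
      c * q.baseChange ℂ (e.toLinearMap.baseChange ℂ x) (e.toLinearMap.baseChange ℂ y) ^ n

attribute [instance] Hyperkahler.ring

/-- The transcendental lattice of a hyperkähler manifold: the elements of `H²` orthogonal to the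
algebraic classes for the form `q`. -/
def Hyperkahler.trans {n : ℕ} {N : GradedHodgeLattice} (h : Hyperkahler n N) :
    Submodule ℤ N.V where
  carrier := {x | x ∈ N.deg 1 ∧ ∀ y ∈ algebraic N.toHodgeLattice, y ∈ N.deg 1 → h.q x y = 0}
  add_mem' := fun {a b} ha hb => ⟨add_mem ha.1 hb.1, fun y hy hy' => by
    simp [ha.2 y hy hy', hb.2 y hy hy']⟩
  zero_mem' := ⟨zero_mem _, fun y _ _ => by simp⟩
  smul_mem' := fun c x hx => ⟨Submodule.smul_mem _ c hx.1, fun y hy hy' => by
    simp [hx.2 y hy hy']⟩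

/-- The rational transcendental lattices of two hyperkähler manifolds, with the forms `c q`, are
Hodge isometric: for some `r > 0` there is an injective Hodge map `f` between the transcendental
lattices, with image of finite index and `c' q' (f x, f y) = r ^ 2 c q (x, y)`. -/
def TransIsometric {n n' : ℕ} {N N' : GradedHodgeLattice} (h : Hyperkahler n N)
    (h' : Hyperkahler n' N') : Prop :=
  ∃ (r : ℕ) (f : h.trans →ₗ[ℤ] h'.trans), 0 < r ∧
    (∀ k (x : ℂ ⊗[ℤ] h.trans), h.trans.subtype.baseChange ℂ x ∈ N.comp k →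
      h'.trans.subtype.baseChange ℂ (f.baseChange ℂ x) ∈ N'.comp k) ∧
    Function.Injective f ∧ (∃ m : ℕ, 0 < m ∧ ∀ y : h'.trans, ∃ x : h.trans, f x = m • y) ∧
    ∀ x y : h.trans, h'.c * h'.q (f x) (f y) = (r : ℚ) ^ 2 * (h.c * h.q x y)

/-- The theorem: if two hyperkähler manifolds of dimension `2 n`, `n` odd, are L-equivalent, then
their rational transcendental lattices, with the forms `c q`, are Hodge isometric. -/
def HKStatement : Prop :=
  ∀ (C : GradedEvenCohomology) (X Y : C.Var) (n : ℕ), Odd n → ∀ (hX : Hyperkahler n (C.H X))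
    (hY : Hyperkahler n (C.H Y)), C.LEquivalent X Y → TransIsometric hX hY

end Pool.Agent.Lib.MP0cb87d
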