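import Pool.Agent.Lib.MP_0cb87d_ag.HK.Stmts

/-! Module K1: the fixed field of the automorphisms of `ℂ` is `ℚ`. -/

namespace Pool.Agent.Lib.MP0cb87d

namespace K1aux

open Cardinal Polynomial

section
universe u
variable {R : Type} {K L : Type u} [CommRing R] [Nontrivial R] [Field K] [Field L] [Algebra R K]
  [Algebra R L] [IsAlgClosed K] [IsAlgClosed L]

/-- Two uncountable algebraically closed fields of the same cardinality over a countable ring
are isomorphic over this ring. -/
theorem exists_equiv (hiK : Function.Injective (algebraMap R K))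
    (hiL : Function.Injective (algebraMap R L)) (hR : #R ≤ ℵ₀) (hK : ℵ₀ < #K)
    (hKL : #K = #L) :
    ∃ γ : K ≃+* L, ∀ x : R, γ (algebraMap R K x) = algebraMap R L x := by
  haveI : FaithfulSMul R K := (faithfulSMul_iff_algebraMap_injective R K).2 hiK
  haveI : FaithfulSMul R L := (faithfulSMul_iff_algebraMap_injective R L).2 hiL
  obtain ⟨s, hs⟩ := exists_isTranscendenceBasis R K
  obtain ⟨t, ht⟩ := exists_isTranscendenceBasis R L
  have h1 : #K = #s := by
    have := IsAlgClosed.cardinal_eq_cardinal_transcendence_basis_of_aleph0_lt _ hs hR hK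
    simpa using this
  have h2 : #L = #t := by
    have := IsAlgClosed.cardinal_eq_cardinal_transcendence_basis_of_aleph0_lt _ ht hR
      (hKL ▸ hK)
    simpa using this
  obtain ⟨e⟩ : Nonempty (s ≃ t) := by
    rw [← Cardinal.eq, ← h1, ← h2, hKL]
  letI := IsAlgClosed.isAlgClosure_of_transcendence_basis _ hs
  letI := IsAlgClosed.isAlgClosure_of_transcendence_basis _ ht
  let ε : Algebra.adjoin R (Set.range ((↑) : s → K)) ≃ₐ[R]
      Algebra.adjoin R (Set.range ((↑) : t → L)) :=
    hs.1.aevalEquiv.symm.trans ((MvPolynomial.renameEquiv R e).trans ht.1.aevalEquiv)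
  refine ⟨IsAlgClosure.equivOfEquiv K L ε.toRingEquiv, fun x => ?_⟩
  have h3 := IsAlgClosure.equivOfEquiv_algebraMap K L ε.toRingEquiv
    (algebraMap R (Algebra.adjoin R (Set.range ((↑) : s → K))) x)
  rw [← IsScalarTower.algebraMap_apply] at h3
  rw [h3]
  change algebraMap _ L (ε (algebraMap R _ x)) = _
  rw [AlgEquiv.commutes, ← IsScalarTower.algebraMap_apply]

end

/-- Two embeddings of a countable ring in `ℂ` are conjugate under the automorphisms of `ℂ`. -/
theorem exists_aut {R : Type} [CommRing R] [Nontrivial R] (hR : #R ≤ ℵ₀) (i j : R →+* ℂ)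
    (hi : Function.Injective i) (hj : Function.Injective j) :
    ∃ γ : ℂ ≃+* ℂ, ∀ x : R, γ (i x) = j x := by
  have hC : ℵ₀ < #ℂ := by
    rw [mk_complex]
    exact aleph0_lt_continuum
  exact @exists_equiv R ℂ ℂ _ _ _ _ i.toAlgebra j.toAlgebra _ _ hi hj hR hC rfl

theorem card_poly : #(ℚ[X]) ≤ ℵ₀ :=
  Polynomial.cardinalMk_le_max.trans (max_le Cardinal.mk_le_aleph0 le_rfl)

end K1aux

open K1aux Cardinal Polynomial in
theorem stK1 : StK1 := by
  intro z hz
  by_cases halg : IsAlgebraic ℚ z
  · have hint : IsIntegral ℚ z := halg.isIntegral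
    haveI : Fact (Irreducible (minpoly ℚ z)) := ⟨minpoly.irreducible hint⟩
    by_contra hq
    push Not at hq
    -- another root
    obtain ⟨w, hw, hwz⟩ : ∃ w : ℂ, aeval w (minpoly ℚ z) = 0 ∧ w ≠ z := by
      have hdeg : 1 < (minpoly ℚ z).natDegree := by
        by_contra h1
        rw [not_lt] at h1
        have h2 : (minpoly ℚ z).natDegree = 1 :=
          le_antisymm h1 (minpoly.natDegree_pos hint)
        have h3 := (minpoly.natDegree_eq_one_iff).1 h2
        obtain ⟨q, hq'⟩ := h3
        exact hq q hq'.symm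
      have hsep : (minpoly ℚ z).Separable := (minpoly.irreducible hint).separable
      have hcard : Fintype.card ((minpoly ℚ z).rootSet ℂ) = (minpoly ℚ z).natDegree :=
        card_rootSet_eq_natDegree hsep (IsAlgClosed.splits _)
      have h4 : 1 < Fintype.card ((minpoly ℚ z).rootSet ℂ) := by rw [hcard]; exact hdeg
      have hzr : z ∈ (minpoly ℚ z).rootSet ℂ := by
        rw [mem_rootSet]
        exact ⟨minpoly.ne_zero hint, minpoly.aeval ℚ z⟩
      obtain ⟨w, hw⟩ := Fintype.exists_ne_of_one_lt_card h4 ⟨z, hzr⟩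
      refine ⟨w, ?_, fun h => hw (Subtype.ext h)⟩
      exact (mem_rootSet.1 w.2).2
    let i : AdjoinRoot (minpoly ℚ z) →+* ℂ :=
      AdjoinRoot.lift (algebraMap ℚ ℂ) z (by simpa [aeval_def] using minpoly.aeval ℚ z)
    let j : AdjoinRoot (minpoly ℚ z) →+* ℂ :=
      AdjoinRoot.lift (algebraMap ℚ ℂ) w (by simpa [aeval_def] using hw)
    have hR : #(AdjoinRoot (minpoly ℚ z)) ≤ ℵ₀ := by
      have h1 : #(AdjoinRoot (minpoly ℚ z)) ≤ #(ℚ[X]) :=
        mk_le_of_surjective (AdjoinRoot.mk_surjective)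
      exact h1.trans card_poly
    obtain ⟨γ, hγ⟩ := exists_aut hR i j i.injective j.injective
    have h5 := hγ (AdjoinRoot.root _)
    simp only [i, j, AdjoinRoot.lift_root] at h5
    rw [hz] at h5
    exact hwz h5.symm
  · exfalso
    have h1 : Transcendental ℚ z := halg
    have h2 : Transcendental ℚ (z + 1) := by
      intro h
      have h3 := h.sub (isAlgebraic_one (R := ℚ) (A := ℂ))
      rw [add_sub_cancel_right] at h3
      exact halg h3
    have hR : #(ℚ[X]) ≤ ℵ₀ := card_poly
    obtain ⟨γ, hγ⟩ := exists_aut hR (aeval z : ℚ[X] →ₐ[ℚ] ℂ).toRingHom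
      (aeval (z + 1) : ℚ[X] →ₐ[ℚ] ℂ).toRingHom
      (transcendental_iff_injective.1 h1) (transcendental_iff_injective.1 h2)
    have h3 := hγ X
    simp only [AlgHom.toRingHom_eq_coe, RingHom.coe_coe, aeval_X] at h3
    rw [hz] at h3
    exact one_ne_zero (add_eq_left.1 h3.symm)

end Pool.Agent.Lib.MP0cb87d
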