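import Pool.Agent.Lib.MP_0cb87d_ag.HK.Stmts

/-! Artin independence for the automorphisms of the complex numbers. -/

namespace Pool.Agent.Lib.MP0cb87d

open TensorProduct

namespace K2aux

/-- A solution with at most `n` nonzero entries is zero. -/
theorem aux (h : StK1) (m : ℕ) (c : Fin m → ℂ) (hc : LinearIndependent ℚ c) (n : ℕ) :
    ∀ a : Fin m → ℂ, (Finset.univ.filter (fun k => a k ≠ 0)).card ≤ n →
      (∀ γ : ℂ ≃+* ℂ, ∑ k, a k * γ (c k) = 0) → a = 0 := by
  induction n with
  | zero =>
    intro a hn _
    have h1 := Finset.card_eq_zero.mp (Nat.le_zero.mp hn)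
    funext k
    by_contra hk
    have h2 : k ∈ Finset.univ.filter (fun k => a k ≠ 0) :=
      Finset.mem_filter.mpr ⟨Finset.mem_univ k, hk⟩
    rw [h1] at h2
    exact absurd h2 (Finset.notMem_empty k)
  | succ n ih =>
    intro a hn ha
    by_contra hne
    obtain ⟨j, hj⟩ := Function.ne_iff.mp hne
    have hj' : a j ≠ 0 := hj
    have hb : ∀ γ : ℂ ≃+* ℂ, ∑ k, a k / a j * γ (c k) = 0 := by
      intro γ
      have h1 : ∑ k, a k / a j * γ (c k) = (∑ k, a k * γ (c k)) / a j := by
        rw [Finset.sum_div]
        exact Finset.sum_congr rfl fun k _ => by ring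
      rw [h1, ha γ, zero_div]
    have hfix : ∀ k, ∀ δ : ℂ ≃+* ℂ, δ (a k / a j) = a k / a j := by
      intro k δ
      have h1 := ih (fun k => δ (a k / a j) - a k / a j) (by
        have hsub : Finset.univ.filter (fun k => δ (a k / a j) - a k / a j ≠ 0) ⊆
            (Finset.univ.filter (fun k => a k ≠ 0)).erase j := by
          intro i hi
          have h2 := (Finset.mem_filter.mp hi).2
          refine Finset.mem_erase.mpr ⟨?_, Finset.mem_filter.mpr ⟨Finset.mem_univ i, ?_⟩⟩
          · rintro rfl
            refine h2 ?_
            rw [div_self hj', map_one, sub_self]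
          · intro h3
            refine h2 ?_
            rw [h3, zero_div, map_zero, sub_self]
        have h2 := Finset.card_le_card hsub
        have h3 : j ∈ Finset.univ.filter (fun k => a k ≠ 0) :=
          Finset.mem_filter.mpr ⟨Finset.mem_univ j, hj'⟩
        rw [Finset.card_erase_of_mem h3] at h2
        omega) (by
        intro γ
        have h2 : ∑ k, δ (a k / a j) * γ (c k) = 0 := by
          have h3 := congrArg δ (hb (γ.trans δ.symm))
          rw [map_zero, map_sum] at h3
          rw [← h3]
          refine Finset.sum_congr rfl fun k _ => ?_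
          rw [map_mul, RingEquiv.trans_apply, RingEquiv.apply_symm_apply]
        have h4 : ∑ k, (δ (a k / a j) - a k / a j) * γ (c k) =
            ∑ k, δ (a k / a j) * γ (c k) - ∑ k, a k / a j * γ (c k) := by
          rw [← Finset.sum_sub_distrib]
          exact Finset.sum_congr rfl fun k _ => sub_mul _ _ _
        rw [h4, h2, hb γ, sub_zero])
      have h5 : δ (a k / a j) - a k / a j = 0 := congrFun h1 k
      exact sub_eq_zero.mp h5
    choose q hq using fun k => h (a k / a j) (hfix k)
    have h6 : ∑ k, q k • c k = 0 := by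
      have h7 := hb (RingEquiv.refl ℂ)
      rw [← h7]
      refine Finset.sum_congr rfl fun k _ => ?_
      rw [hq k, RingEquiv.refl_apply, Algebra.smul_def, eq_ratCast]
    have h8 := Fintype.linearIndependent_iff.mp hc q h6 j
    have h9 := hq j
    rw [h8, div_self hj', Rat.cast_zero] at h9
    exact one_ne_zero h9

end K2aux

theorem stK2 (h : StK1) : StK2 := by
  intro m c a hc ha
  exact K2aux.aux h m c hc _ a le_rfl ha

end Pool.Agent.Lib.MP0cb87d
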