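import Pool.Agent.Lib.MP_0cb87d_ag.HK.Stmts

/-! Module K3: an endomorphism from a relation between the conjugates of a vector. -/

set_option autoImplicit false

namespace Pool.Agent.Lib.MP0cb87d

open TensorProduct

namespace K3aux

/-- A consequence of Artin independence. -/
theorem functional (h : StK2) {κ : Type} [Fintype κ] (v w : κ → ℂ)
    (H : ∀ γ : ℂ ≃+* ℂ, ∑ k, w k * γ (v k) = 0) (φ : ℂ →ₗ[ℚ] ℚ) :
    ∑ k, w k * (φ (v k) : ℂ) = 0 := by
  classical
  let W : Submodule ℚ ℂ := Submodule.span ℚ (Set.range v)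
  have : FiniteDimensional ℚ W := FiniteDimensional.span_of_finite ℚ (Set.finite_range v)
  let c := Module.finBasis ℚ W
  let cc : Fin (Module.finrank ℚ W) → ℂ := fun i => (c i : ℂ)
  have hcc : LinearIndependent ℚ cc :=
    c.linearIndependent.map' W.subtype (Submodule.ker_subtype W)
  have hv : ∀ k, v k ∈ W := fun k => Submodule.subset_span ⟨k, rfl⟩
  let A : κ → Fin (Module.finrank ℚ W) → ℚ := fun k i => c.repr ⟨v k, hv k⟩ i
  have hA : ∀ k, v k = ∑ i, A k i • cc i := by
    intro k
    have h1 := c.sum_repr ⟨v k, hv k⟩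
    have h2 := congrArg (fun x : W => (x : ℂ)) h1
    simp only [Submodule.coe_sum, Submodule.coe_smul] at h2
    exact h2.symm
  have ha := h _ cc (fun i => ∑ k, w k * (A k i : ℂ)) hcc (fun γ => by
    rw [← H γ]
    have h3 : ∀ k, γ (v k) = ∑ i, (A k i : ℂ) * γ (cc i) := by
      intro k
      rw [hA k, map_sum]
      refine Finset.sum_congr rfl fun i _ => ?_
      rw [Rat.smul_def, map_mul, map_ratCast]
    simp only [h3, Finset.sum_mul, Finset.mul_sum]
    rw [Finset.sum_comm]
    refine Finset.sum_congr rfl fun k _ => Finset.sum_congr rfl fun i _ => ?_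
    ring)
  have h4 : ∀ k, (φ (v k) : ℂ) = ∑ i, (A k i : ℂ) * (φ (cc i) : ℂ) := by
    intro k
    conv_lhs => rw [hA k]
    rw [map_sum]
    push_cast
    refine Finset.sum_congr rfl fun i _ => ?_
    rw [map_smul, smul_eq_mul]
    push_cast
    rfl
  calc ∑ k, w k * (φ (v k) : ℂ) = ∑ i, (∑ k, w k * (A k i : ℂ)) * (φ (cc i) : ℂ) := by
        simp only [h4, Finset.sum_mul, Finset.mul_sum]
        rw [Finset.sum_comm]
        refine Finset.sum_congr rfl fun k _ => Finset.sum_congr rfl fun i _ => ?_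
        ring
    _ = 0 := by
        refine Finset.sum_eq_zero fun i _ => ?_
        have := congrFun ha i
        rw [Pi.zero_apply] at this
        rw [this, zero_mul]

variable {T : Type} [AddCommGroup T] [Module.Free ℤ T] [Module.Finite ℤ T]

/-- Functionals are given by the form, up to one common factor. -/
theorem exists_dual (B : LinearMap.BilinForm ℤ T) (hB : ∀ t, (∀ t', B t t' = 0) → t = 0) :
    ∃ d : ℤ, d ≠ 0 ∧ ∀ g : T →ₗ[ℤ] ℤ, ∃ t0 : T, ∀ t, B t0 t = d * g t := by
  classical
  let b := Module.Free.chooseBasis ℤ T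
  let G : Matrix (Module.Free.ChooseBasisIndex ℤ T) (Module.Free.ChooseBasisIndex ℤ T) ℤ :=
    Matrix.of fun i j => B (b i) (b j)
  have hdet : G.det ≠ 0 := by
    intro h0
    obtain ⟨v, hv, hvG⟩ := Matrix.exists_vecMul_eq_zero_iff.2 h0
    apply hv
    have h1 : ∑ i, v i • b i = 0 := by
      apply hB
      have h2 : B (∑ i, v i • b i) = 0 := by
        apply b.ext
        intro j
        have h3 := congrFun hvG j
        rw [Matrix.vecMul, dotProduct] at h3
        rw [map_sum, LinearMap.sum_apply, LinearMap.zero_apply]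
        simp only [map_smul, LinearMap.smul_apply, smul_eq_mul]
        exact h3
      intro t'
      rw [h2, LinearMap.zero_apply]
    funext i
    exact (Fintype.linearIndependent_iff.1 b.linearIndependent) v h1 i
  refine ⟨G.det, hdet, fun g => ?_⟩
  let w : Module.Free.ChooseBasisIndex ℤ T → ℤ := Matrix.vecMul (fun i => g (b i)) G.adjugate
  have hw : Matrix.vecMul w G = G.det • (fun i => g (b i)) := by
    rw [Matrix.vecMul_vecMul, Matrix.adjugate_mul, Matrix.vecMul_smul, Matrix.vecMul_one]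
  refine ⟨∑ i, w i • b i, ?_⟩
  have h4 : B (∑ i, w i • b i) = G.det • g := by
    apply b.ext
    intro j
    have h3 := congrFun hw j
    rw [Matrix.vecMul, dotProduct] at h3
    rw [map_sum, LinearMap.sum_apply]
    simp only [map_smul, LinearMap.smul_apply, smul_eq_mul]
    exact h3
  intro t
  rw [h4, LinearMap.smul_apply, smul_eq_mul]

/-- Adjoints, up to a factor. -/
theorem exists_adj (B : LinearMap.BilinForm ℤ T) (hB : ∀ t, (∀ t', B t t' = 0) → t = 0)
    (f : T →ₗ[ℤ] T) : ∃ d : ℤ, d ≠ 0 ∧ ∃ a : T →ₗ[ℤ] T, ∀ s t, B (a s) t = d * B s (f t) := by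
  obtain ⟨d, hd, h⟩ := exists_dual B hB
  let b := Module.Free.chooseBasis ℤ T
  choose u hu using fun j => h ((B (b j)) ∘ₗ f)
  refine ⟨d, hd, b.constr ℤ u, ?_⟩
  have h1 : B ∘ₗ (b.constr ℤ u) = d • (LinearMap.lcomp ℤ ℤ f ∘ₗ B) := by
    apply b.ext
    intro j
    apply LinearMap.ext
    intro t
    rw [LinearMap.comp_apply, Module.Basis.constr_basis, hu j t]
    simp
  intro s t
  have h2 := LinearMap.congr_fun (LinearMap.congr_fun h1 s) t
  simpa using h2

/-- The basis of the complexification. -/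
noncomputable def bC {ι : Type} (t : Module.Basis ι ℤ T) : Module.Basis ι ℂ (ℂ ⊗[ℤ] T) :=
  Algebra.TensorProduct.basis ℂ t

theorem bC_apply {ι : Type} (t : Module.Basis ι ℤ T) (i : ι) : bC t i = 1 ⊗ₜ t i :=
  Algebra.TensorProduct.basis_apply t i

theorem pair_left {ι : Type} [Fintype ι] (t : Module.Basis ι ℤ T) (q : LinearMap.BilinForm ℤ T)
    (t0 : T) (y : ℂ ⊗[ℤ] T) :
    q.baseChange ℂ (1 ⊗ₜ t0) y = ∑ j, (q t0 (t j) : ℂ) * (bC t).repr y j := by
  conv_lhs => rw [← (bC t).sum_repr y]
  rw [map_sum]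
  refine Finset.sum_congr rfl fun j _ => ?_
  rw [map_smul, bC_apply, LinearMap.BilinForm.baseChange_tmul]
  simp [mul_comm]

theorem q_gact (q : LinearMap.BilinForm ℤ T) (γ : ℂ ≃+* ℂ) (t : T) (y : ℂ ⊗[ℤ] T) :
    q.baseChange ℂ (1 ⊗ₜ t) (gact T γ y) = γ (q.baseChange ℂ (1 ⊗ₜ t) y) := by
  induction y using TensorProduct.induction_on with
  | zero => simp
  | tmul c s =>
    have h1 : gact T γ (c ⊗ₜ s) = (γ c) ⊗ₜ s := rfl
    rw [h1, LinearMap.BilinForm.baseChange_tmul, LinearMap.BilinForm.baseChange_tmul]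
    simp
  | add x y hx hy => simp only [map_add, hx, hy]

theorem nondegC (q : LinearMap.BilinForm ℤ T) (hq : ∀ t, (∀ t', q t t' = 0) → t = 0)
    (y : ℂ ⊗[ℤ] T) (hy : ∀ t : T, q.baseChange ℂ (1 ⊗ₜ t) y = 0) : y = 0 := by
  classical
  let t := Module.Free.chooseBasis ℤ T
  obtain ⟨d, hd, h⟩ := exists_dual q hq
  apply (bC t).ext_elem
  intro i
  obtain ⟨t0, ht0⟩ := h (t.coord i)
  have h1 := hy t0
  rw [pair_left t] at h1
  simp only [ht0] at h1
  rw [Finset.sum_eq_single i] at h1
  · simp only [Module.Basis.coord_apply, Module.Basis.repr_self, Finsupp.single_eq_same,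
      mul_one] at h1
    rw [map_zero, Finsupp.zero_apply]
    exact (mul_eq_zero.1 h1).resolve_left (by exact_mod_cast hd)
  · intro j _ hj
    simp [Module.Basis.coord_apply, Module.Basis.repr_self, Finsupp.single_apply, hj]
  · intro hi
    exact absurd (Finset.mem_univ i) hi

end K3aux

open K3aux in
/-- From the relation to the endomorphism. -/
theorem stK3 (h : StK2) : StK3 := by
  classical
  intro T _ _ _ q hsymm hq σ hσ x hx
  let t := Module.Free.chooseBasis ℤ T
  let ι := Module.Free.ChooseBasisIndex ℤ T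
  let s : ι → ℂ := fun j => (bC t).repr σ j
  let e : ι → ℂ := fun j => q.baseChange ℂ (1 ⊗ₜ t j) σ
  have hσs : σ = ∑ j, s j • ((1 : ℂ) ⊗ₜ[ℤ] t j) := by
    conv_lhs => rw [← (bC t).sum_repr σ]
    refine Finset.sum_congr rfl fun j _ => ?_
    rw [bC_apply]
  obtain ⟨D, hD, hdual⟩ := exists_dual q hq
  -- independence
  have he : LinearIndependent ℚ e := by
    rw [← LinearIndependent.iff_fractionRing ℤ ℚ]
    rw [Fintype.linearIndependent_iff]
    intro n hn
    have h1 : q.baseChange ℂ (1 ⊗ₜ (∑ j, n j • t j)) σ = 0 := by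
      rw [TensorProduct.tmul_sum, map_sum, LinearMap.sum_apply, ← hn]
      refine Finset.sum_congr rfl fun j _ => ?_
      rw [TensorProduct.tmul_smul, map_zsmul, LinearMap.smul_apply]
    have h2 := hσ _ h1
    exact (Fintype.linearIndependent_iff.1 t.linearIndependent) n h2
  have hs : LinearIndependent ℚ s := by
    rw [← LinearIndependent.iff_fractionRing ℤ ℚ]
    rw [Fintype.linearIndependent_iff]
    intro n hn
    obtain ⟨t0, ht0⟩ := hdual (∑ j, n j • t.coord j)
    have h1 : ∀ j, q t0 (t j) = D * n j := by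
      intro j
      rw [ht0]
      congr 1
      rw [LinearMap.sum_apply, Finset.sum_eq_single j]
      · simp
      · intro i _ hi
        simp [Finsupp.single_apply, Ne.symm hi]
      · intro hj
        exact absurd (Finset.mem_univ j) hj
    have h2 : q.baseChange ℂ (1 ⊗ₜ t0) σ = 0 := by
      rw [pair_left t]
      simp only [h1]
      have h3 : ∀ j, ((D * n j : ℤ) : ℂ) * (bC t).repr σ j = (D : ℂ) * (n j • s j) := by
        intro j
        rw [zsmul_eq_mul]
        push_cast
        rw [mul_assoc]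
      simp only [h3]
      rw [← Finset.mul_sum, hn, mul_zero]
    have h4 := hσ _ h2
    intro j
    have h5 := h1 j
    rw [h4, map_zero, LinearMap.zero_apply] at h5
    exact (mul_eq_zero.1 h5.symm).resolve_left hD
  -- the functional identity
  have hrel : ∀ φ : ℂ →ₗ[ℚ] ℚ, starRingEnd ℂ x * ∑ j, s j * (φ (e j) : ℂ) =
      ∑ j, s j * (φ (x * e j) : ℂ) := by
    intro φ
    have hqg : ∀ γ : ℂ ≃+* ℂ, q.baseChange ℂ σ (gact T γ σ) = ∑ j, s j * γ (e j) := by
      intro γ
      conv_lhs => rw [hσs]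
      rw [map_sum, LinearMap.sum_apply]
      refine Finset.sum_congr rfl fun j _ => ?_
      rw [map_smul, LinearMap.smul_apply, ← hσs, q_gact, smul_eq_mul]
    have h1 := functional h (κ := ι ⊕ ι) (Sum.elim e fun j => x * e j)
      (Sum.elim (fun j => starRingEnd ℂ x * s j) fun j => - s j) (fun γ => by
        rw [Fintype.sum_sum_type]
        simp only [Sum.elim_inl, Sum.elim_inr]
        have h2 := hx γ
        rw [hqg γ, Finset.mul_sum, Finset.mul_sum] at h2
        simp only [map_mul, neg_mul, Finset.sum_neg_distrib]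
        rw [← sub_eq_add_neg, sub_eq_zero]
        rw [show (∑ j, starRingEnd ℂ x * s j * γ (e j)) =
          ∑ j, starRingEnd ℂ x * (s j * γ (e j)) from
          Finset.sum_congr rfl fun j _ => by ring, h2]
        exact Finset.sum_congr rfl fun j _ => by ring) φ
    rw [Fintype.sum_sum_type] at h1
    simp only [Sum.elim_inl, Sum.elim_inr, neg_mul, Finset.sum_neg_distrib] at h1
    rw [← sub_eq_add_neg, sub_eq_zero] at h1
    rw [Finset.mul_sum, ← h1]
    exact Finset.sum_congr rfl fun j _ => by ring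
  -- `x e_j` is a combination of the `e_k`
  have hspan : ∀ j, x * e j ∈ Submodule.span ℚ (Set.range e) := by
    intro j
    by_contra hj
    obtain ⟨φ, hφ, hφ0⟩ := Submodule.exists_dual_map_eq_bot_of_notMem hj inferInstance
    have h0 : ∀ k, φ (e k) = 0 := by
      intro k
      have : φ (e k) ∈ (Submodule.span ℚ (Set.range e)).map φ :=
        Submodule.mem_map_of_mem (Submodule.subset_span ⟨k, rfl⟩)
      rwa [hφ0, Submodule.mem_bot] at this
    have h1 := hrel φ
    simp only [h0, Rat.cast_zero, mul_zero, Finset.sum_const_zero] at h1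
    apply hφ
    refine (Fintype.linearIndependent_iff.1 hs) (fun k => φ (x * e k)) ?_ j
    rw [h1]
    exact Finset.sum_congr rfl fun k _ => by rw [Rat.smul_def, mul_comm]
  -- dual functionals
  have hinj : LinearMap.ker (Fintype.linearCombination ℚ e) = ⊥ := by
    rw [LinearMap.ker_eq_bot']
    intro c hc
    funext k
    rw [Fintype.linearCombination_apply] at hc
    exact (Fintype.linearIndependent_iff.1 he) c hc k
  obtain ⟨g, hg⟩ := (Fintype.linearCombination ℚ e).exists_leftInverse_of_injective hinj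
  have hge : ∀ j k, g (e j) k = if j = k then 1 else 0 := by
    intro j k
    have h1 := LinearMap.congr_fun hg (Pi.single j 1)
    rw [LinearMap.comp_apply, Fintype.linearCombination_apply_single, one_smul,
      LinearMap.id_apply] at h1
    rw [h1, Pi.single_apply]
    simp [eq_comm]
  let α : ι → ι → ℚ := fun j k => g (x * e j) k
  have hα : ∀ j, x * e j = ∑ k, α j k • e k := by
    intro j
    obtain ⟨c, hc⟩ := (Submodule.mem_span_range_iff_exists_fun ℚ).1 (hspan j)
    rw [← hc]
    refine Finset.sum_congr rfl fun k _ => ?_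
    congr 1
    show c k = g (x * e j) k
    rw [← hc, map_sum, Finset.sum_apply, Finset.sum_eq_single k]
    · rw [map_smul, Pi.smul_apply, hge, if_pos rfl, smul_eq_mul, mul_one]
    · intro i _ hi
      rw [map_smul, Pi.smul_apply, hge, if_neg hi, smul_zero]
    · intro hk
      exact absurd (Finset.mem_univ k) hk
  have hαs : ∀ k, starRingEnd ℂ x * s k = ∑ j, s j * (α j k : ℂ) := by
    intro k
    have h1 := hrel ((LinearMap.proj k) ∘ₗ g)
    simp only [LinearMap.comp_apply, LinearMap.proj_apply] at h1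
    rw [← h1, Finset.sum_eq_single k]
    · rw [hge, if_pos rfl]
      simp
    · intro i _ hi
      rw [hge, if_neg hi]
      simp
    · intro hk
      exact absurd (Finset.mem_univ k) hk
  -- common denominator
  obtain ⟨⟨D₁, hD₁⟩, hM⟩ := IsLocalization.exist_integer_multiples_of_finite
    (nonZeroDivisors ℤ) (fun p : ι × ι => α p.1 p.2)
  have hD₁' : D₁ ≠ 0 := nonZeroDivisors.ne_zero hD₁
  choose M hM using hM
  have hM' : ∀ j k, ((M (j, k) : ℤ) : ℂ) = (D₁ : ℂ) * (α j k : ℂ) := by
    intro j k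
    have h1 := hM (j, k)
    simp only [zsmul_eq_mul, Submonoid.smul_def] at h1
    have h2 : ((M (j, k) : ℤ) : ℚ) = (D₁ : ℚ) * α j k := by simpa using h1
    exact_mod_cast congrArg (fun r : ℚ => (r : ℂ)) h2
  let b₀ : T →ₗ[ℤ] T := t.constr ℤ fun j => ∑ k, M (j, k) • t k
  have hb₀ : ∀ j, b₀ (t j) = ∑ k, M (j, k) • t k := fun j => t.constr_basis ℤ _ j
  obtain ⟨D₂, hD₂, a, ha⟩ := exists_adj q hq b₀
  refine ⟨D₂ * D₁, a, D₂ • b₀, mul_ne_zero hD₂ hD₁', ?_, ?_, ?_⟩
  · intro u v
    rw [ha, LinearMap.smul_apply, map_smul, smul_eq_mul]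
  · -- the action of `a`
    rw [← sub_eq_zero]
    apply nondegC q hq
    intro u
    have h1 : ∀ y : ℂ ⊗[ℤ] T, q.baseChange ℂ (1 ⊗ₜ u) (a.baseChange ℂ y) =
        (D₂ : ℂ) * q.baseChange ℂ (1 ⊗ₜ b₀ u) y := by
      intro y
      induction y using TensorProduct.induction_on with
      | zero => simp
      | tmul c v =>
        rw [LinearMap.baseChange_tmul, LinearMap.BilinForm.baseChange_tmul,
          LinearMap.BilinForm.baseChange_tmul, hsymm u (a v), ha, hsymm v (b₀ u)]
        simp only [zsmul_eq_mul, one_mul]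
        push_cast
        ring
      | add x y hx hy => simp only [map_add, hx, hy, mul_add]
    have h2 : ∀ v : T, q.baseChange ℂ (1 ⊗ₜ b₀ v) σ =
        (D₁ : ℂ) * x * q.baseChange ℂ (1 ⊗ₜ v) σ := by
      let l₁ : T →ₗ[ℤ] ℂ := ((q.baseChange ℂ).flip σ).restrictScalars ℤ ∘ₗ
        (TensorProduct.mk ℤ ℂ T 1) ∘ₗ b₀
      let l₂ : T →ₗ[ℤ] ℂ := ((((D₁ : ℂ) * x) • (q.baseChange ℂ).flip σ)).restrictScalars ℤ ∘ₗ
        (TensorProduct.mk ℤ ℂ T 1)
      have h3 : l₁ = l₂ := by
        apply t.ext
        intro j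
        show q.baseChange ℂ (1 ⊗ₜ b₀ (t j)) σ = ((D₁ : ℂ) * x) • q.baseChange ℂ (1 ⊗ₜ (t j)) σ
        rw [hb₀, TensorProduct.tmul_sum, map_sum, LinearMap.sum_apply]
        show _ = (D₁ : ℂ) * x * e j
        rw [mul_assoc, hα j, Finset.mul_sum]
        refine Finset.sum_congr rfl fun k _ => ?_
        rw [TensorProduct.tmul_smul, map_zsmul, LinearMap.smul_apply, zsmul_eq_mul, hM',
          Rat.smul_def]
        show (D₁ : ℂ) * (α j k : ℂ) * e k = _
        ring
      intro v
      exact LinearMap.congr_fun h3 v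
    rw [map_sub, h1, h2, map_smul, smul_eq_mul]
    push_cast
    ring
  · -- the action of `b`
    have h1 : ∀ y : ℂ ⊗[ℤ] T, (D₂ • b₀).baseChange ℂ y = (D₂ : ℂ) • b₀.baseChange ℂ y := by
      intro y
      induction y using TensorProduct.induction_on with
      | zero => simp
      | tmul c v =>
        rw [LinearMap.baseChange_tmul, LinearMap.baseChange_tmul, LinearMap.smul_apply,
          TensorProduct.tmul_smul, ← Int.cast_smul_eq_zsmul ℂ]
      | add x y hx hy => simp only [map_add, hx, hy, smul_add]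
    rw [h1]
    conv_lhs => rw [hσs]
    rw [map_sum]
    simp only [map_smul, LinearMap.baseChange_tmul, hb₀, TensorProduct.tmul_sum]
    have h2 : ∑ j, s j • ∑ k, (1 : ℂ) ⊗ₜ[ℤ] (M (j, k) • t k) =
        ((D₁ : ℂ) * starRingEnd ℂ x) • σ := by
      conv_rhs => rw [hσs]
      rw [Finset.smul_sum]
      simp only [Finset.smul_sum]
      rw [Finset.sum_comm]
      refine Finset.sum_congr rfl fun k _ => ?_
      rw [smul_smul, mul_assoc, hαs k, Finset.mul_sum, Finset.sum_smul]
      refine Finset.sum_congr rfl fun j _ => ?_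
      rw [TensorProduct.tmul_smul, ← Int.cast_smul_eq_zsmul ℂ, smul_smul, hM']
      congr 1
      ring
    rw [h2, smul_smul]
    push_cast
    congr 1
    ring

end Pool.Agent.Lib.MP0cb87d
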