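import Pool.Agent.Lib.MP_0cb87d_ag.HK.Stmts

/-! Module L1: a Hodge form on a source is a multiple of the given form. -/

namespace Pool.Agent.Lib.MP0cb87d

open TensorProduct

namespace L1aux

section General

variable {T : Type} [AddCommGroup T] [Module.Free ℤ T] [Module.Finite ℤ T]

/-- The Gram matrix of a basis. -/
noncomputable def gramQ (q : LinearMap.BilinForm ℤ T) {ι : Type} (b : Module.Basis ι ℤ T) :
    Matrix ι ι ℤ := Matrix.of fun i j => q (b i) (b j)

lemma det_gram_ne_zero (q : LinearMap.BilinForm ℤ T) (hnd : ∀ x, (∀ y, q x y = 0) → x = 0)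
    {ι : Type} [Fintype ι] [DecidableEq ι] (b : Module.Basis ι ℤ T) :
    (gramQ q b).det ≠ 0 := by
  intro h0
  obtain ⟨v, hv, hv0⟩ := Matrix.exists_vecMul_eq_zero_iff.2 h0
  apply hv
  have ht : (∑ i, v i • b i : T) = 0 := by
    apply hnd
    intro t'
    have key : ∀ j, q (∑ i, v i • b i : T) (b j) = 0 := by
      intro j
      have h := congrFun hv0 j
      simp only [Matrix.vecMul, dotProduct, Pi.zero_apply, gramQ, Matrix.of_apply] at h
      rw [← h]
      simp [map_sum]
    rw [← b.sum_repr t', map_sum]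
    refine Finset.sum_eq_zero fun j _ => ?_
    rw [map_smul, key j, smul_zero]
  have hli := b.linearIndependent
  rw [Fintype.linearIndependent_iff] at hli
  funext i
  exact hli v ht i

/-- A finite free lattice with a nondegenerate form: division by the discriminant. -/
lemma exists_adjoint (q : LinearMap.BilinForm ℤ T) (hnd : ∀ x, (∀ y, q x y = 0) → x = 0)
    (β : LinearMap.BilinForm ℤ T) :
    ∃ d : ℤ, d ≠ 0 ∧ ∃ f : T →ₗ[ℤ] T, ∀ t t' : T, d * β t t' = q (f t) t' := by
  classical
  let b := Module.Free.chooseBasis ℤ T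
  have hG : (gramQ q b).det ≠ 0 := det_gram_ne_zero q hnd b
  generalize hGG : gramQ q b = G at hG
  refine ⟨G.det, hG, ?_⟩
  let f : T →ₗ[ℤ] T :=
    ∑ i, (∑ k, (G.adjugate k i) • (β.flip (b k))).smulRight (b i)
  refine ⟨f, fun t t' => ?_⟩
  have key : ∀ j, q (f t) (b j) = G.det * β t (b j) := by
    intro j
    have h1 : f t = ∑ i, (∑ k, G.adjugate k i * β t (b k)) • b i := by
      simp [f, LinearMap.sum_apply]
    rw [h1, map_sum, LinearMap.sum_apply]
    have h2 : ∀ i, (q ((∑ k, G.adjugate k i * β t (b k)) • b i))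
        (b j) = ∑ k, β t (b k) * (G.adjugate k i * G i j) := by
      intro i
      rw [map_smul, LinearMap.smul_apply, smul_eq_mul, Finset.sum_mul]
      refine Finset.sum_congr rfl fun k _ => ?_
      rw [← hGG]
      simp only [gramQ, Matrix.of_apply]
      ring
    rw [Finset.sum_congr rfl fun i _ => h2 i, Finset.sum_comm]
    have h3 : ∀ k, ∑ i, β t (b k) * (G.adjugate k i * G i j) =
        β t (b k) * (G.det * if k = j then 1 else 0) := by
      intro k
      rw [← Finset.mul_sum]
      congr 1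
      have h4 := congrFun (congrFun (Matrix.adjugate_mul G) k) j
      rw [Matrix.mul_apply] at h4
      rw [h4]
      simp [Matrix.smul_apply, Matrix.one_apply]
    rw [Finset.sum_congr rfl fun k _ => h3 k]
    simp [mul_comm]
  rw [← b.sum_repr t', map_sum, map_sum, Finset.mul_sum]
  refine Finset.sum_congr rfl fun j _ => ?_
  rw [map_smul, map_smul, key j, smul_eq_mul, smul_eq_mul]
  ring

lemma form_baseChange (q : LinearMap.BilinForm ℤ T) (d : ℤ)
    (β : LinearMap.BilinForm ℤ T) (f : T →ₗ[ℤ] T)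
    (hf : ∀ t t' : T, d * β t t' = q (f t) t')
    (s z : ℂ ⊗[ℤ] T) :
    q.baseChange ℂ (f.baseChange ℂ s) z = d * β.baseChange ℂ s z := by
  induction s using TensorProduct.induction_on with
  | zero => simp
  | add x y hx hy =>
    simp only [map_add, LinearMap.add_apply, hx, hy, mul_add]
  | tmul a t =>
    induction z using TensorProduct.induction_on with
    | zero => simp
    | add x y hx hy =>
      simp only [map_add, hx, hy, mul_add]
    | tmul c t' =>
      rw [LinearMap.baseChange_tmul]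
      rw [LinearMap.BilinForm.baseChange_tmul, LinearMap.BilinForm.baseChange_tmul, ← hf]
      simp only [zsmul_eq_mul, Int.cast_mul]
      ring

/-- Nondegeneracy over the complex numbers. -/
lemma nondeg_complex (q : LinearMap.BilinForm ℤ T) (hnd : ∀ x, (∀ y, q x y = 0) → x = 0)
    (z : ℂ ⊗[ℤ] T) (hz : ∀ z', q.baseChange ℂ z z' = 0) : z = 0 := by
  classical
  let b := Module.Free.chooseBasis ℤ T
  have hG : (gramQ q b).det ≠ 0 := det_gram_ne_zero q hnd b
  let B := b.baseChange ℂ
  have hz1 : z = ∑ i, B.repr z i • B i := (B.sum_repr z).symm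
  have hB : ∀ i, B i = (1 : ℂ) ⊗ₜ[ℤ] b i := fun i => by simp [B]
  have hv : Matrix.vecMul (fun i => B.repr z i) ((gramQ q b).map (Int.castRingHom ℂ)) = 0 := by
    funext j
    have h := hz (B j)
    rw [hz1] at h
    simp only [map_sum, map_smul, LinearMap.sum_apply, LinearMap.smul_apply, smul_eq_mul] at h
    simp only [Matrix.vecMul, dotProduct, Pi.zero_apply, Matrix.map_apply]
    rw [← h]
    refine Finset.sum_congr rfl fun i _ => ?_
    rw [hB i, hB j, LinearMap.BilinForm.baseChange_tmul]
    simp [gramQ]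
  have hdet : ((gramQ q b).map (Int.castRingHom ℂ)).det ≠ 0 := by
    rw [← RingHom.mapMatrix_apply, ← RingHom.map_det]
    simpa using hG
  have h0 := Matrix.eq_zero_of_vecMul_eq_zero hdet hv
  rw [hz1]
  refine Finset.sum_eq_zero fun i _ => ?_
  have := congrFun h0 i
  simp only [Pi.zero_apply] at this
  rw [this, zero_smul]

end General

/-- Only the component of the opposite type contributes. -/
lemma sum_right (X : HodgeLattice) (S : Submodule ℤ X.V) (β : LinearMap.BilinForm ℤ S)
    (hβ : IsHodgeFormOn X S β) (l : ℤ) (x : ℂ ⊗[ℤ] S) (hx : inclS S x ∈ X.comp l)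
    (y : ℤ →₀ (ℂ ⊗[ℤ] S)) (hy : ∀ i, inclS S (y i) ∈ X.comp i) :
    β.baseChange ℂ x (y.sum fun _ v => v) = β.baseChange ℂ x (y (-l)) := by
  classical
  rw [Finsupp.sum, map_sum]
  refine Finset.sum_eq_single (-l) (fun m _ hm => ?_) (fun h => ?_)
  · exact hβ l m (fun h => hm (by omega)) x (y m) hx (hy m)
  · rw [Finsupp.notMem_support_iff.1 h, map_zero]

lemma sum_left (X : HodgeLattice) (S : Submodule ℤ X.V) (β : LinearMap.BilinForm ℤ S)
    (hβ : IsHodgeFormOn X S β) (l : ℤ) (x : ℂ ⊗[ℤ] S) (hx : inclS S x ∈ X.comp (-l))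
    (y : ℤ →₀ (ℂ ⊗[ℤ] S)) (hy : ∀ i, inclS S (y i) ∈ X.comp i) :
    β.baseChange ℂ (y.sum fun _ v => v) x = β.baseChange ℂ (y l) x := by
  classical
  rw [Finsupp.sum, map_sum, LinearMap.sum_apply]
  refine Finset.sum_eq_single l (fun m _ hm => ?_) (fun h => ?_)
  · exact hβ m (-l) (fun h => hm (by omega)) (y m) x (hy m) hx
  · rw [Finsupp.notMem_support_iff.1 h, map_zero, LinearMap.zero_apply]

end L1aux

open L1aux

theorem stL1 : StL1 := by
  intro X S β k ω hS b hb
  obtain ⟨d, hd, f, hf⟩ := exists_adjoint β hS.nondeg b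
  have hfC := form_baseChange β d b f hf
  have hHodge : IsHodgeEnd X S f := by
    intro k' s hs
    obtain ⟨y, hy, hys⟩ := hS.graded (f.baseChange ℂ s)
    have hy0 : ∀ l, l ≠ k' → y l = 0 := by
      intro l hl
      apply nondeg_complex β hS.nondeg
      intro z'
      obtain ⟨w, hw, rfl⟩ := hS.graded z'
      rw [sum_right X S β hS.orth l (y l) (hy l) w hw,
        ← sum_left X S β hS.orth l (w (-l)) (hw (-l)) y hy, hys, hfC,
        hb k' (-l) (by omega) s (w (-l)) hs (hw (-l)), mul_zero]
    have h1 : y.sum (fun _ v => v) = y k' := by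
      classical
      rw [Finsupp.sum]
      refine Finset.sum_eq_single k' (fun m _ hm => hy0 m hm) (fun h => ?_)
      exact Finsupp.notMem_support_iff.1 h
    rw [← hys, h1]
    exact hy k'
  obtain ⟨c, hc⟩ := hS.line _ (hHodge k ω hS.mem)
  have hmain : (d : ℂ) * b.baseChange ℂ ω (conj S ω) = c * β.baseChange ℂ ω (conj S ω) := by
    rw [← hfC, hc, map_smul, LinearMap.smul_apply, smul_eq_mul]
  refine ⟨⟨d, f, c, hd, hHodge, hc, hf, hmain⟩, fun h0 => ?_⟩
  rw [h0, mul_zero] at hmain
  have hc0 : c = 0 := by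
    rcases mul_eq_zero.1 hmain.symm with h | h
    · exact h
    · exact absurd h hS.ne_zero
  have hf0 : f = 0 := by
    apply hS.irr f hHodge
    rw [hc, hc0, zero_smul]
  ext t t'
  have h6 := hf t t'
  rw [hf0] at h6
  simp only [LinearMap.zero_apply, map_zero] at h6
  rcases mul_eq_zero.1 h6 with h | h
  · exact absurd h hd
  · simpa using h

end Pool.Agent.Lib.MP0cb87d
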