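import Pool.Agent.Lib.MP_0cb87d_ag.HK.Stmts
import Pool.Agent.Lib.MP_0cb87d_ag.F6

/-! The ring of multipliers of a source is a finitely generated abelian group, and its field of
fractions is a field. -/

namespace Pool.Agent.Lib.MP0cb87d

open TensorProduct

namespace L2aux

theorem fg {X : HodgeLattice} {S : Submodule ℤ X.V} {β : LinearMap.BilinForm ℤ S} {k : ℤ}
    {ω : ℂ ⊗[ℤ] S} (h : Source X S β k ω) : (multS X S ω).toAddSubgroup.FG := by
  obtain ⟨lam, hlam⟩ := F6aux.exists_functional h.ne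
  let ψ : (S →ₗ[ℤ] S) →+ ℂ :=
    { toFun := fun f => lam (f.baseChange ℂ ω)
      map_zero' := by simp
      map_add' := fun f g => by
        rw [LinearMap.baseChange_add, LinearMap.add_apply, map_add] }
  refine F6aux.fg_of_le_range ψ _ ?_
  rintro c ⟨f, -, hf⟩
  refine ⟨f, ?_⟩
  change lam (f.baseChange ℂ ω) = c
  rw [hf, map_smul, hlam, smul_eq_mul, mul_one]

theorem finite {X : HodgeLattice} {S : Submodule ℤ X.V} {β : LinearMap.BilinForm ℤ S} {k : ℤ}
    {ω : ℂ ⊗[ℤ] S} (hs : Source X S β k ω) : Module.Finite ℤ (multS X S ω) := by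
  have h := fg hs
  rw [← AddSubgroup.toIntSubmodule_toAddSubgroup (multS X S ω).toAddSubgroup,
    ← Submodule.fg_iff_addSubgroup_fg] at h
  exact Module.Finite.iff_fg.2 h

theorem isField {X : HodgeLattice} {S : Submodule ℤ X.V} {β : LinearMap.BilinForm ℤ S} {k : ℤ}
    {ω : ℂ ⊗[ℤ] S} (hs : Source X S β k ω) : IsField (multFieldS X S ω) := by
  have hfin := finite hs
  refine ⟨⟨0, 1, zero_ne_one⟩, mul_comm, ?_⟩
  rintro ⟨c, n, hn, hc⟩ hc0
  have hc0' : c ≠ 0 := fun h => hc0 (Subtype.ext h)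
  have hint : Algebra.IsIntegral ℤ (multS X S ω) := Algebra.IsIntegral.of_finite ℤ _
  have ha0 : (⟨(n : ℂ) * c, hc⟩ : multS X S ω) ≠ 0 := by
    intro h
    have h' : (n : ℂ) * c = 0 := congrArg Subtype.val h
    rcases mul_eq_zero.1 h' with h1 | h1
    · exact hn (by exact_mod_cast h1)
    · exact hc0' h1
  have halg : IsAlgebraic ℤ (⟨(n : ℂ) * c, hc⟩ : multS X S ω) :=
    (hint.isIntegral _).isAlgebraic
  obtain ⟨r, hr, ⟨b, hb⟩⟩ := halg.exists_nonzero_dvd (mem_nonZeroDivisors_of_ne_zero ha0)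
  have hb' : (r : ℂ) = (n : ℂ) * c * b := by
    have := congrArg (Subtype.val : multS X S ω → ℂ) hb
    simpa using this
  have hr' : (r : ℂ) ≠ 0 := by exact_mod_cast hr
  refine ⟨⟨(n : ℂ) * b / r, r, hr, ?_⟩, ?_⟩
  · rw [mul_div_cancel₀ _ hr']
    exact mul_mem (intCast_mem _ n) b.2
  · apply Subtype.ext
    change c * ((n : ℂ) * b / r) = 1
    rw [mul_div_assoc', ← mul_assoc, mul_comm c, ← hb', div_self hr']

end L2aux

/-- The ring of multipliers of a source. -/
theorem stL2 : StL2 := by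
  intro X S β k ω hs
  have hf := L2aux.isField hs
  refine ⟨L2aux.fg hs, hf, ?_⟩
  have := hf.isPrincipalIdealRing
  infer_instance

end Pool.Agent.Lib.MP0cb87d
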