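import Pool.Agent.Lib.MP_0cb87d_ag.HK.Stmts

/-! Module L3: `homLatS` over the field of multipliers is a functorial lattice. -/

set_option autoImplicit false

namespace Pool.Agent.Lib.MP0cb87d

open TensorProduct

namespace L3aux

variable {V V' : Type} [AddCommGroup V] [AddCommGroup V']

lemma conj_tmul (z : ℂ) (v : V) : conj V (z ⊗ₜ[ℤ] v) = (starRingEnd ℂ z) ⊗ₜ[ℤ] v := rfl

lemma conj_smul (c : ℂ) (x : ℂ ⊗[ℤ] V) : conj V (c • x) = (starRingEnd ℂ c) • conj V x := by
  induction x using TensorProduct.induction_on with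
  | zero => simp
  | tmul z v => simp only [TensorProduct.smul_tmul', conj_tmul, smul_eq_mul, map_mul]
  | add x y hx hy => rw [smul_add, map_add, hx, hy, map_add, smul_add]

lemma conj_baseChange (f : V →ₗ[ℤ] V') (x : ℂ ⊗[ℤ] V) :
    conj V' (f.baseChange ℂ x) = f.baseChange ℂ (conj V x) := by
  induction x using TensorProduct.induction_on with
  | zero => simp
  | tmul z v => simp only [LinearMap.baseChange_tmul, conj_tmul]
  | add x y hx hy => rw [map_add, map_add, hx, hy, map_add, map_add]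

lemma comp_baseChange (ψ : LinearMap.BilinForm ℤ V') (f g : V →ₗ[ℤ] V') (x y : ℂ ⊗[ℤ] V) :
    LinearMap.BilinForm.baseChange ℂ (ψ.compl₁₂ f g) x y =
      ψ.baseChange ℂ (f.baseChange ℂ x) (g.baseChange ℂ y) := by
  induction x using TensorProduct.induction_on with
  | zero => simp
  | add x x' hx hx' => simp only [map_add, LinearMap.add_apply, hx, hx']
  | tmul z v =>
    induction y using TensorProduct.induction_on with
    | zero => simp
    | add y y' hy hy' => simp only [map_add, hy, hy']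
    | tmul z' v' =>
      simp only [LinearMap.BilinForm.baseChange_tmul, LinearMap.baseChange_tmul,
        LinearMap.compl₁₂_apply]

/-- A determinant with entries in a subring is in the subring. -/
lemma det_mem {n : ℕ} (K : Subring ℂ) (M : Matrix (Fin n) (Fin n) ℂ) (h : ∀ i j, M i j ∈ K) :
    M.det ∈ K := by
  have h1 : M = K.subtype.mapMatrix (Matrix.of fun i j => (⟨M i j, h i j⟩ : K)) := by
    ext i j
    rfl
  rw [h1, ← RingHom.map_det]
  exact Subtype.property _

/-- The set of the vectors `f ω`. -/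
def homSet (X : HodgeLattice) (S : Submodule ℤ X.V) (ω : ℂ ⊗[ℤ] S) (N : HodgeLattice) :
    Set (ℂ ⊗[ℤ] N.V) :=
  {v | ∃ f : S →ₗ[ℤ] N.V, IsHodgeFrom X S N f ∧ f.baseChange ℂ ω = v}

lemma homLatS_eq (R : Subring ℂ) (X : HodgeLattice) (S : Submodule ℤ X.V) (ω : ℂ ⊗[ℤ] S)
    (N : HodgeLattice) : homLatS R X S ω N = Submodule.span R (homSet X S ω N) := rfl

/-- The Hodge maps, a group. -/
def hodgeMaps (X : HodgeLattice) (S : Submodule ℤ X.V) (N : HodgeLattice) :
    Submodule ℤ (S →ₗ[ℤ] N.V) where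
  carrier := {f | IsHodgeFrom X S N f}
  add_mem' := by
    intro f g hf hg k x hx
    rw [LinearMap.baseChange_add, LinearMap.add_apply]
    exact add_mem (hf k x hx) (hg k x hx)
  zero_mem' := by
    intro k x hx
    rw [LinearMap.baseChange_zero, LinearMap.zero_apply]
    exact zero_mem _
  smul_mem' := by
    intro c f hf k x hx
    rw [LinearMap.baseChange_smul, LinearMap.smul_apply]
    exact zsmul_mem (hf k x hx) c

/-- Evaluation at `ω`. -/
noncomputable def evalω (X : HodgeLattice) (S : Submodule ℤ X.V) (N : HodgeLattice)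
    (ω : ℂ ⊗[ℤ] S) : (S →ₗ[ℤ] N.V) →+ ℂ ⊗[ℤ] N.V where
  toFun f := f.baseChange ℂ ω
  map_zero' := by simp
  map_add' := by
    intro f g
    rw [LinearMap.baseChange_add, LinearMap.add_apply]

lemma homLatS_fg (R : Subring ℂ) (X : HodgeLattice) (S : Submodule ℤ X.V) (ω : ℂ ⊗[ℤ] S)
    (N : HodgeLattice) : (homLatS R X S ω N).FG := by
  classical
  have h0 : Module.Finite ℤ (S →ₗ[ℤ] N.V) := inferInstance
  obtain ⟨s, hs⟩ : (hodgeMaps X S N).FG := IsNoetherian.noetherian _
  refine ⟨s.image (evalω X S N ω), ?_⟩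
  apply le_antisymm
  · rw [Submodule.span_le]
    intro v hv
    rw [Finset.coe_image] at hv
    obtain ⟨f, hf, rfl⟩ := hv
    refine Submodule.subset_span ⟨f, ?_, rfl⟩
    have h1 : f ∈ hodgeMaps X S N := by
      rw [← hs]
      exact Submodule.subset_span hf
    exact h1
  · rw [homLatS_eq, Submodule.span_le]
    rintro v ⟨f, hf, rfl⟩
    have h1 : f ∈ Submodule.span ℤ (s : Set (S →ₗ[ℤ] N.V)) := by
      rw [hs]
      exact hf
    change evalω X S N ω f ∈ _
    clear hf
    induction h1 using Submodule.span_induction with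
    | mem g hg =>
      refine Submodule.subset_span ?_
      rw [Finset.coe_image]
      exact ⟨g, hg, rfl⟩
    | zero =>
      rw [map_zero]
      exact zero_mem _
    | add f g hf hg h1 h2 =>
      rw [map_add]
      exact add_mem h1 h2
    | smul c f hf h1 =>
      rw [map_zsmul]
      exact zsmul_mem h1 c

section

variable {X : HodgeLattice} {S : Submodule ℤ X.V} {β : LinearMap.BilinForm ℤ S} {k : ℤ}
  {ω : ℂ ⊗[ℤ] S} {N : HodgeLattice}

/-- The elements of the lattice have pairings in `K θ`. -/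
lemma pair_mem (hS : Source X S β k ω) (hL1 : StL1)
    {ψ : LinearMap.BilinForm ℤ N.V}
    (hψ : ∀ k l, k + l ≠ 0 → ∀ x ∈ N.comp k, ∀ y ∈ N.comp l, ψ.baseChange ℂ x y = 0)
    {v w : ℂ ⊗[ℤ] N.V} (hv : v ∈ homLatS (multFieldS X S ω) X S ω N) (hw : w ∈ homSet X S ω N) :
    ∃ c ∈ multFieldS X S ω, ψ.baseChange ℂ v (conj _ w) = c * β.baseChange ℂ ω (conj S ω) := by
  obtain ⟨g, hg, rfl⟩ := hw
  rw [homLatS_eq] at hv
  induction hv using Submodule.span_induction with
  | mem v hv =>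
    obtain ⟨f, hf, rfl⟩ := hv
    have h1 : IsHodgeFormOn X S (ψ.compl₁₂ f g) := by
      intro k l hkl x y hx hy
      rw [comp_baseChange]
      exact hψ k l hkl _ (hf k x hx) _ (hg l y hy)
    obtain ⟨⟨d, f', c, hd, hf', hc, -, h2⟩, -⟩ := hL1 X S β k ω hS _ h1
    have hd' : (d : ℂ) ≠ 0 := Int.cast_ne_zero.mpr hd
    refine ⟨c / d, ⟨d, hd, ?_⟩, ?_⟩
    · rw [mul_div_cancel₀ _ hd']
      exact ⟨f', hf', hc⟩
    · rw [conj_baseChange, ← comp_baseChange, div_mul_eq_mul_div, eq_div_iff hd', ← h2, mul_comm]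
  | zero => exact ⟨0, zero_mem _, by simp⟩
  | add x y hx hy h1 h2 =>
    obtain ⟨a, ha, h1⟩ := h1
    obtain ⟨b, hb, h2⟩ := h2
    exact ⟨a + b, add_mem ha hb, by rw [map_add, LinearMap.add_apply, h1, h2, add_mul]⟩
  | smul r x hx h1 =>
    obtain ⟨a, ha, h1⟩ := h1
    refine ⟨r * a, mul_mem r.2 ha, ?_⟩
    have h2 : (r • x : ℂ ⊗[ℤ] N.V) = (r : ℂ) • x := rfl
    rw [h2, map_smul, LinearMap.smul_apply, h1, smul_eq_mul, mul_assoc]

lemma homSet_comp (hS : Source X S β k ω) {w : ℂ ⊗[ℤ] N.V} (hw : w ∈ homSet X S ω N) :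
    w ∈ N.comp k := by
  obtain ⟨g, hg, rfl⟩ := hw
  exact hg k ω hS.mem

/-- Invertibility of the Gram matrix for a positive form. -/
lemma gram_det {ψ : LinearMap.BilinForm ℤ N.V}
    (hpos : ∀ k, ∀ x ∈ N.comp k, x ≠ 0 → 0 < (Complex.I ^ k * ψ.baseChange ℂ x (conj N.V x)).re)
    {n : ℕ} {e : Fin n → ℂ ⊗[ℤ] N.V} (he : LinearIndependent ℂ e) (h2 : ∀ i, e i ∈ N.comp k) :
    (Matrix.of fun i j => ψ.baseChange ℂ (e i) (conj _ (e j)) : Matrix (Fin n) (Fin n) ℂ).det
      ≠ 0 := by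
  intro h
  obtain ⟨c, hc, h1⟩ := Matrix.exists_vecMul_eq_zero_iff.mpr h
  have h3 : ∀ j, ψ.baseChange ℂ (∑ i, c i • e i) (conj _ (e j)) = 0 := by
    intro j
    have h4 := congrFun h1 j
    simp only [Matrix.vecMul, dotProduct, Matrix.of_apply, Pi.zero_apply] at h4
    rw [map_sum, LinearMap.sum_apply, ← h4]
    refine Finset.sum_congr rfl fun i _ => ?_
    rw [map_smul, LinearMap.smul_apply, smul_eq_mul]
  have h4 : ψ.baseChange ℂ (∑ i, c i • e i) (conj _ (∑ i, c i • e i)) = 0 := by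
    rw [map_sum (conj N.V), map_sum]
    refine Finset.sum_eq_zero fun j _ => ?_
    rw [conj_smul, map_smul, h3 j, smul_zero]
  have h5 : (∑ i, c i • e i) ∈ N.comp k := sum_mem fun i _ => Submodule.smul_mem _ _ (h2 i)
  have h6 : (∑ i, c i • e i) = 0 := by
    by_contra h7
    have h8 := hpos k _ h5 h7
    rw [h4, mul_zero] at h8
    exact lt_irrefl _ h8
  apply hc
  ext i
  exact Fintype.linearIndependent_iff.mp he c h6 i

/-- A basis of the complex span. -/
lemma exists_basis (X : HodgeLattice) (S : Submodule ℤ X.V) (N : HodgeLattice)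
    (ω : ℂ ⊗[ℤ] S) :
    ∃ (n : ℕ) (e : Fin n → ℂ ⊗[ℤ] N.V), LinearIndependent ℂ e ∧ (∀ i, e i ∈ homSet X S ω N) ∧
      Submodule.span ℂ (Set.range e) = Submodule.span ℂ (homSet X S ω N) := by
  obtain ⟨b, hb, h1, h2⟩ := exists_linearIndependent ℂ (homSet X S ω N)
  have h3 : b.Finite := h2.setFinite
  have := h3.fintype
  let g := Fintype.equivFin b
  refine ⟨Fintype.card b, fun i => (g.symm i : ℂ ⊗[ℤ] N.V), h2.comp _ g.symm.injective,
    fun i => hb (g.symm i).2, ?_⟩
  rw [← h1]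
  congr 1
  ext v
  constructor
  · rintro ⟨i, rfl⟩
    exact (g.symm i).2
  · intro hv
    exact ⟨g ⟨v, hv⟩, by simp⟩

lemma span_homLatS (R : Subring ℂ) (X : HodgeLattice) (S : Submodule ℤ X.V) (ω : ℂ ⊗[ℤ] S)
    (N : HodgeLattice) : Submodule.span ℂ (homLatS R X S ω N : Set (ℂ ⊗[ℤ] N.V)) =
      Submodule.span ℂ (homSet X S ω N) := by
  rw [homLatS_eq]
  exact Submodule.span_span_of_tower R ℂ _

/-- The rows are finitely generated. -/
lemma rows_fg {R : Subring ℂ} {W : Type} [AddCommGroup W] [Module ℂ W] {L : Submodule R W}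
    {n : ℕ} {e : Fin n → W} (he : IsFrame L e) (hL : L.FG) : (rows e L).FG := by
  have hinj : Function.Injective ((Fintype.linearCombination ℂ e).restrictScalars R) :=
    he.1.fintypeLinearCombination_injective
  apply Submodule.fg_of_fg_map_injective _ hinj
  have h1 : (rows e L).map ((Fintype.linearCombination ℂ e).restrictScalars R) = L := by
    rw [rows, Submodule.map_comap_eq, inf_eq_right]
    intro x hx
    have h2 : x ∈ Submodule.span ℂ (Set.range e) := by
      rw [he.2]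
      exact Submodule.subset_span hx
    rw [← Fintype.range_linearCombination] at h2
    exact h2
  rw [h1]
  exact hL

/-- Functoriality. -/
lemma map_mem (R : Subring ℂ) (X : HodgeLattice) (S : Submodule ℤ X.V) (ω : ℂ ⊗[ℤ] S)
    (N M : HodgeLattice) (f : N.V →ₗ[ℤ] M.V) (hf : IsHodge N M f) :
    ∀ x ∈ homLatS R X S ω N, f.baseChange ℂ x ∈ homLatS R X S ω M := by
  intro x hx
  rw [homLatS_eq] at hx
  induction hx using Submodule.span_induction with
  | mem v hv =>
    obtain ⟨g, hg, rfl⟩ := hv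
    refine Submodule.subset_span ⟨f ∘ₗ g, fun j x hx => ?_, ?_⟩
    · rw [LinearMap.baseChange_comp, LinearMap.comp_apply]
      exact hf j _ (hg j x hx)
    · rw [LinearMap.baseChange_comp, LinearMap.comp_apply]
  | zero => rw [map_zero]; exact zero_mem _
  | add x y _ _ h1 h2 => rw [map_add]; exact add_mem h1 h2
  | smul r x _ h1 =>
    have h2 : (r • x : ℂ ⊗[ℤ] N.V) = (r : ℂ) • x := rfl
    rw [h2, map_smul]
    exact Submodule.smul_mem _ r h1

/-- Nondegeneracy. -/
lemma nondeg (hE : StE1) (R : Subring ℂ) (hS : Source X S β k ω) (N : HodgeLattice) :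
    ∀ x ∈ Submodule.span ℂ (homLatS R X S ω N : Set (ℂ ⊗[ℤ] N.V)),
    (∀ y ∈ homLatS R X S ω N, N.form.baseChange ℂ x (conj N.V y) = 0) → x = 0 := by
  intro x hx hy
  obtain ⟨ψ, hψ1, hψ2⟩ := N.polarizable
  rw [span_homLatS] at hx
  have h1 : ∀ w ∈ homSet X S ω N, ψ.baseChange ℂ x (conj N.V w) = 0 := by
    rintro w ⟨f, hf, rfl⟩
    obtain ⟨g, hg, -, h2⟩ := hE X S N ψ hψ1 f hf
    rw [conj_baseChange, ← h2, ← conj_baseChange]
    exact hy _ (Submodule.subset_span ⟨g, hg, rfl⟩)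
  have h2 : ∀ w ∈ Submodule.span ℂ (homSet X S ω N), ψ.baseChange ℂ x (conj N.V w) = 0 := by
    intro w hw
    induction hw using Submodule.span_induction with
    | mem w hw => exact h1 w hw
    | zero => simp
    | add a b _ _ ha hb => rw [map_add, map_add, ha, hb, add_zero]
    | smul c a _ ha => rw [conj_smul, map_smul, ha, smul_zero]
  have h3 : x ∈ N.comp k := by
    refine (Submodule.span_le.mpr ?_) hx
    intro w hw
    exact homSet_comp hS hw
  by_contra h4
  have h5 := hψ2 k x h3 h4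
  rw [h2 x hx, mul_zero] at h5
  exact lt_irrefl _ h5

end

/-- The determinant ideal is invertible. -/
lemma inv (h5 : StA5) (h6 : StA6) (hL1 : StL1) (hL2 : StL2) (X : HodgeLattice)
    (S : Submodule ℤ X.V) (β : LinearMap.BilinForm ℤ S) (k : ℤ) (ω : ℂ ⊗[ℤ] S)
    (hS : Source X S β k ω) (N : HodgeLattice) :
    ∃ (n : ℕ) (e : Fin n → ℂ ⊗[ℤ] N.V), IsFrame (homLatS (multFieldS X S ω) X S ω N) e ∧
      IsUnit (detIdeal (rows e (homLatS (multFieldS X S ω) X S ω N))) := by
  obtain ⟨n, e, he1, he2, he3⟩ := exists_basis X S N ω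
  obtain ⟨ψ, hψ1, hψ2⟩ := N.polarizable
  set K := multFieldS X S ω with hK
  have hframe : IsFrame (homLatS K X S ω N) e := ⟨he1, he3.trans (span_homLatS K X S ω N).symm⟩
  refine ⟨n, e, hframe, ?_⟩
  have hθ : β.baseChange ℂ ω (conj S ω) ≠ 0 := hS.ne_zero
  set θ := β.baseChange ℂ ω (conj S ω) with hθdef
  have hpair : ∀ v ∈ homLatS K X S ω N, ∀ j, ψ.baseChange ℂ v (conj _ (e j)) / θ ∈ K := by
    intro v hv j
    obtain ⟨c, hc, h1⟩ := pair_mem hS hL1 hψ1 hv (he2 j)
    rw [h1, mul_div_cancel_right₀ _ hθ]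
    exact hc
  let Γ : Matrix (Fin n) (Fin n) ℂ := Matrix.of fun i j => ψ.baseChange ℂ (e i) (conj _ (e j))
  have hΓ : Γ.det ≠ 0 := gram_det hψ2 he1 fun i => homSet_comp hS (he2 i)
  let Γ' : Matrix (Fin n) (Fin n) ℂ := θ⁻¹ • Γ
  have hΓ' : Γ'.det ≠ 0 := by
    rw [Matrix.det_smul]
    exact mul_ne_zero (pow_ne_zero _ (inv_ne_zero hθ)) hΓ
  have heL : ∀ i, e i ∈ homLatS K X S ω N := fun i => Submodule.subset_span (he2 i)
  have hΓK : Γ'.det ∈ K := by
    apply det_mem
    intro i j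
    have h1 := hpair (e i) (heL i) j
    rw [div_eq_inv_mul] at h1
    exact h1
  have hCK : ∀ C : Matrix (Fin n) (Fin n) ℂ, (∀ i, C i ∈ rows e (homLatS K X S ω N)) →
      C.det * Γ'.det ∈ K := by
    intro C hC
    rw [← Matrix.det_mul]
    apply det_mem
    intro i j
    have h1 : (∑ k, C i k • e k) ∈ homLatS K X S ω N := hC i
    have h2 := hpair _ h1 j
    have h3 : (C * Γ') i j = ψ.baseChange ℂ (∑ k, C i k • e k) (conj _ (e j)) / θ := by
      rw [Matrix.mul_apply, map_sum, LinearMap.sum_apply, Finset.sum_div]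
      refine Finset.sum_congr rfl fun k _ => ?_
      rw [map_smul, LinearMap.smul_apply, smul_eq_mul, mul_div_assoc, div_eq_inv_mul]
      rfl
    rw [h3]
    exact h2
  have hIK : ∀ c ∈ detIdeal (rows e (homLatS K X S ω N)), c * Γ'.det ∈ K := by
    intro c hc
    induction hc using Submodule.span_induction with
    | mem c hc =>
      obtain ⟨C, hC, rfl⟩ := hc
      exact hCK C hC
    | zero => rw [zero_mul]; exact zero_mem _
    | add x y _ _ h1 h2 => rw [add_mul]; exact add_mem h1 h2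
    | smul r x _ h1 =>
      have h2 : (r • x : ℂ) = (r : ℂ) * x := rfl
      rw [h2, mul_assoc]
      exact mul_mem r.2 h1
  have hfg : (detIdeal (rows e (homLatS K X S ω N))).FG :=
    h5 K (Fin n) _ (rows_fg hframe (homLatS_fg K X S ω N))
  have hone : (1 : ℂ) ∈ detIdeal (rows e (homLatS K X S ω N)) := by
    refine Submodule.subset_span ⟨1, fun i => ?_, Matrix.det_one.symm⟩
    change (∑ k, (1 : Matrix (Fin n) (Fin n) ℂ) i k • e k) ∈ homLatS K X S ω N
    have h1 : (∑ k, (1 : Matrix (Fin n) (Fin n) ℂ) i k • e k) = e i := by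
      simp [Matrix.one_apply]
    rw [h1]
    exact heL i
  refine h6 K (hL2 X S β k ω hS).2.2 _ hfg ?_ ?_
  · intro h
    rw [h] at hone
    exact one_ne_zero ((Submodule.mem_bot K).mp hone)
  · refine ⟨⟨Γ'.det, hΓK⟩, fun h => hΓ' (congrArg Subtype.val h), fun c hc => ?_⟩
    refine ⟨⟨c * Γ'.det, hIK c hc⟩, ?_⟩
    change Γ'.det * c = c * Γ'.det
    ring

end L3aux

open L3aux in
theorem stL3 (hE : StE1) (h5 : StA5) (h6 : StA6) (h1 : StL1) (h2 : StL2) : StL3 := by
  intro X S β k ω hS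
  exact ⟨{ L := homLatS (multFieldS X S ω) X S ω
           map := map_mem (multFieldS X S ω) X S ω
           nondeg := nondeg hE (multFieldS X S ω) hS
           inv := inv h5 h6 h1 h2 X S β k ω hS }, fun N => rfl⟩

end Pool.Agent.Lib.MP0cb87d
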