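import Pool.Agent.Lib.MP_0cb87d_ag.HK.Stmts

/-! Module L4: L-equivalent varieties and an irreducible Hodge structure of top type. -/

namespace Pool.Agent.Lib.MP0cb87d

open TensorProduct

namespace L4aux

/-! ### conjugation -/

lemma conj_tmul (V : Type) [AddCommGroup V] (a : ℂ) (v : V) :
    conj V (a ⊗ₜ[ℤ] v) = (starRingEnd ℂ a) ⊗ₜ[ℤ] v := rfl

lemma conj_conj (V : Type) [AddCommGroup V] (x : ℂ ⊗[ℤ] V) : conj V (conj V x) = x := by
  induction x using TensorProduct.induction_on with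
  | zero => simp
  | tmul a v => rw [conj_tmul, conj_tmul, Complex.conj_conj]
  | add x y hx hy => rw [map_add, map_add, hx, hy]

lemma conj_smul (V : Type) [AddCommGroup V] (c : ℂ) (x : ℂ ⊗[ℤ] V) :
    conj V (c • x) = (starRingEnd ℂ c) • conj V x := by
  induction x using TensorProduct.induction_on with
  | zero => simp
  | tmul a v =>
    rw [TensorProduct.smul_tmul', conj_tmul, conj_tmul, TensorProduct.smul_tmul', smul_eq_mul,
      smul_eq_mul, map_mul]
  | add x y hx hy => rw [smul_add, map_add, hx, hy, map_add, smul_add]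

lemma form_conj {V : Type} [AddCommGroup V] (B : LinearMap.BilinForm ℤ V) (x y : ℂ ⊗[ℤ] V) :
    B.baseChange ℂ (conj V x) (conj V y) = starRingEnd ℂ (B.baseChange ℂ x y) := by
  induction x using TensorProduct.induction_on with
  | zero => simp
  | add x x' hx hx' => rw [map_add, map_add, map_add, LinearMap.add_apply, LinearMap.add_apply,
      map_add, hx, hx']
  | tmul a v =>
    induction y using TensorProduct.induction_on with
    | zero => simp
    | add y y' hy hy' => rw [map_add, map_add, map_add, hy, hy', map_add]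
    | tmul b w =>
      rw [conj_tmul, conj_tmul, LinearMap.BilinForm.baseChange_tmul,
        LinearMap.BilinForm.baseChange_tmul]
      simp

lemma form_symm {V : Type} [AddCommGroup V] (B : LinearMap.BilinForm ℤ V)
    (hB : ∀ x y, B x y = B y x) (x y : ℂ ⊗[ℤ] V) :
    B.baseChange ℂ x y = B.baseChange ℂ y x := by
  induction x using TensorProduct.induction_on with
  | zero => simp
  | add x x' hx hx' => rw [map_add, map_add, LinearMap.add_apply, hx, hx']
  | tmul a v =>
    induction y using TensorProduct.induction_on with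
    | zero => simp
    | add y y' hy hy' => rw [map_add, map_add, LinearMap.add_apply, hy, hy']
    | tmul b w =>
      rw [LinearMap.BilinForm.baseChange_tmul, LinearMap.BilinForm.baseChange_tmul, hB v w,
        mul_comm]

/-- the hermitian norm is real -/
lemma norm_real (N : HodgeLattice) (x : ℂ ⊗[ℤ] N.V) :
    (N.form.baseChange ℂ x (conj N.V x)).im = 0 := by
  apply Complex.conj_eq_iff_im.mp
  rw [← form_conj, conj_conj]
  exact form_symm N.form N.symm _ _

/-- two positive real numbers of the same absolute value -/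
lemma eq_of_norm {z w : ℂ} (hz : z.im = 0) (hw : w.im = 0) (hz0 : 0 < z.re) (hw0 : 0 < w.re)
    (h : ‖z‖ = ‖w‖) : z = w := by
  have ez : z = (z.re : ℂ) := Complex.ext rfl (by simpa using hz)
  have ew : w = (w.re : ℂ) := Complex.ext rfl (by simpa using hw)
  rw [ez, ew, Complex.norm_real, Complex.norm_real, Real.norm_of_nonneg hz0.le,
    Real.norm_of_nonneg hw0.le] at h
  rw [ez, ew, h]

/-! ### the line -/

variable {X : HodgeLattice} {S : Submodule ℤ X.V} {k : ℤ} {ω : ℂ ⊗[ℤ] S}

lemma homLatS_le (R : Subring ℂ) (N : HodgeLattice) (hω : inclS S ω ∈ X.comp k) :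
    ∀ v ∈ homLatS R X S ω N, v ∈ N.comp k := by
  intro v hv
  have h : homLatS R X S ω N ≤ (N.comp k).restrictScalars R := by
    apply Submodule.span_le.mpr
    rintro v ⟨f, hf, rfl⟩
    exact hf k ω hω
  exact h hv

lemma incl_mem (R : Subring ℂ) (X : HodgeLattice) (S : Submodule ℤ X.V) (ω : ℂ ⊗[ℤ] S) :
    inclS S ω ∈ homLatS R X S ω X :=
  Submodule.subset_span ⟨S.subtype, fun _ _ hx => hx, rfl⟩

lemma frame_X (R : Subring ℂ) (hω : inclS S ω ∈ X.comp k) (h0 : inclS S ω ≠ 0)
    (hl : ∀ x ∈ X.comp k, ∃ c : ℂ, x = c • inclS S ω) :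
    IsFrame (homLatS R X S ω X) (fun _ : Unit => inclS S ω) := by
  refine ⟨?_, le_antisymm ?_ ?_⟩
  · exact linearIndependent_unique_iff.mpr h0
  · rw [Submodule.span_le]
    rintro _ ⟨i, rfl⟩
    exact Submodule.subset_span (incl_mem R X S ω)
  · rw [Submodule.span_le]
    intro v hv
    obtain ⟨c, rfl⟩ := hl v (homLatS_le R X hω v hv)
    exact Submodule.smul_mem _ c (Submodule.subset_span ⟨(), rfl⟩)

lemma one_mem_detIdeal (R : Subring ℂ) (X : HodgeLattice) (S : Submodule ℤ X.V)
    (ω : ℂ ⊗[ℤ] S) :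
    (1 : ℂ) ∈ detIdeal (rows (fun _ : Unit => inclS S ω) (homLatS R X S ω X)) := by
  apply Submodule.subset_span
  refine ⟨Matrix.of fun _ _ => 1, fun i => ?_, ?_⟩
  · change Fintype.linearCombination ℂ (fun _ : Unit => inclS S ω) (fun _ => 1) ∈
      homLatS R X S ω X
    rw [Fintype.linearCombination_apply]
    simpa using incl_mem R X S ω
  · exact (Matrix.det_unique (Matrix.of fun _ _ : Unit => (1 : ℂ))).symm

lemma smul_mem_of_detIdeal {R : Subring ℂ} {W : Type} [AddCommGroup W] [Module ℂ W]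
    (L : Submodule R W) (e : Fin 1 → W) :
    ∀ c ∈ detIdeal (rows e L), c • e 0 ∈ L := by
  intro c hc
  unfold detIdeal at hc
  induction hc using Submodule.span_induction with
  | mem x hx =>
    obtain ⟨D, hD, rfl⟩ := hx
    have h1 := hD 0
    change Fintype.linearCombination ℂ e (D 0) ∈ L at h1
    rw [Fintype.linearCombination_apply] at h1
    rw [Matrix.det_unique]
    simpa using h1
  | zero => simp
  | add x y _ _ hx hy => rw [add_smul]; exact add_mem hx hy
  | smul r x _ hx =>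
    have h2 : (r • x) • e 0 = r • (x • e 0) := smul_assoc r x (e 0)
    rw [h2]
    exact L.smul_mem r hx

/-- common denominators -/
lemma exists_denom (X : HodgeLattice) (S : Submodule ℤ X.V) (ω : ℂ ⊗[ℤ] S) (N : HodgeLattice) :
    ∀ v ∈ homLatS (multFieldS X S ω) X S ω N, ∃ (n : ℕ) (f : S →ₗ[ℤ] N.V), 0 < n ∧
      IsHodgeFrom X S N f ∧ f.baseChange ℂ ω = (n : ℂ) • v := by
  have hcomp : ∀ (f : S →ₗ[ℤ] N.V) (h : S →ₗ[ℤ] S),
      IsHodgeFrom X S N f → IsHodgeEnd X S h → IsHodgeFrom X S N (f ∘ₗ h) := by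
    intro f h hf hh k x hx
    rw [LinearMap.baseChange_comp, LinearMap.comp_apply]
    exact hf k _ (hh k x hx)
  have hadd : ∀ f g : S →ₗ[ℤ] N.V, IsHodgeFrom X S N f →
      IsHodgeFrom X S N g → IsHodgeFrom X S N (f + g) := by
    intro f g hf hg k x hx
    rw [LinearMap.baseChange_add, LinearMap.add_apply]
    exact add_mem (hf k x hx) (hg k x hx)
  have hzero : IsHodgeFrom X S N 0 := by
    intro k x _
    simp
  have hzs : ∀ (m : ℤ) (f : S →ₗ[ℤ] N.V) (x : ℂ ⊗[ℤ] S),
      (m • f).baseChange ℂ x = (m : ℂ) • f.baseChange ℂ x := by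
    intro m f x
    rw [LinearMap.baseChange_smul, LinearMap.smul_apply, Int.cast_smul_eq_zsmul]
  have hsmul : ∀ (m : ℤ) (f : S →ₗ[ℤ] N.V),
      IsHodgeFrom X S N f → IsHodgeFrom X S N (m • f) := by
    intro m f hf k x hx
    rw [hzs]
    exact Submodule.smul_mem _ _ (hf k x hx)
  intro v hv
  rw [homLatS] at hv
  induction hv using Submodule.span_induction with
  | mem v hv =>
    obtain ⟨f, hf, rfl⟩ := hv
    exact ⟨1, f, one_pos, hf, by simp⟩
  | zero => exact ⟨1, 0, one_pos, hzero, by simp⟩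
  | add v w _ _ h1 h2 =>
    obtain ⟨n, f, hn, hf, hfv⟩ := h1
    obtain ⟨m, g, hm, hg, hgw⟩ := h2
    refine ⟨n * m, (m : ℤ) • f + (n : ℤ) • g, Nat.mul_pos hn hm,
      hadd _ _ (hsmul _ f hf) (hsmul _ g hg), ?_⟩
    rw [LinearMap.baseChange_add, LinearMap.add_apply, hzs, hzs, hfv, hgw, smul_smul, smul_smul]
    push_cast
    rw [smul_add, mul_comm (m : ℂ) (n : ℂ)]
  | smul c v _ h1 =>
    obtain ⟨n, f, hn, hf, hfv⟩ := h1
    obtain ⟨m, hm, h, hh, hc⟩ := c.2
    have h2 : (f ∘ₗ h).baseChange ℂ ω = ((m : ℂ) * (n : ℂ)) • (c • v) := by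
      rw [LinearMap.baseChange_comp, LinearMap.comp_apply, hc, map_smul, hfv, smul_smul]
      change _ = ((m : ℂ) * (n : ℂ)) • ((c : ℂ) • v)
      rw [smul_smul]
      congr 1
      ring
    rcases lt_or_gt_of_ne hm with h3 | h3
    · refine ⟨m.natAbs * n, (-1 : ℤ) • (f ∘ₗ h), Nat.mul_pos (Int.natAbs_pos.2 hm) hn,
        hsmul _ _ (hcomp f h hf hh), ?_⟩
      have h4 : ((m.natAbs : ℕ) : ℂ) = -(m : ℂ) := by
        have : ((m.natAbs : ℕ) : ℤ) = -m := by omega
        rw [← Int.cast_natCast, this, Int.cast_neg]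
      rw [hzs, h2, smul_smul]
      push_cast [h4]
      congr 1
      ring
    · refine ⟨m.natAbs * n, f ∘ₗ h, Nat.mul_pos (Int.natAbs_pos.2 hm) hn, hcomp f h hf hh, ?_⟩
      have h4 : ((m.natAbs : ℕ) : ℂ) = (m : ℂ) := by
        have : ((m.natAbs : ℕ) : ℤ) = m := by omega
        rw [← Int.cast_natCast, this]
      rw [h2]
      push_cast [h4]
      rfl

end L4aux

open L4aux in
/-- L-equivalent varieties and an irreducible Hodge structure of top type -/
theorem stL4 (hD : StD) (_h2 : StL2) (h3 : StL3) : StL4 := by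
  intro C X Y hXY S k ω hS hline hpos _ hY
  obtain ⟨F, hF⟩ := h3 (C.H X) S _ k ω hS
  have hω0 : inclS S ω ≠ 0 := by
    intro h
    rw [h] at hpos
    simp at hpos
  obtain ⟨n, e', he', -⟩ := F.inv (C.H Y)
  have hfX : IsFrame (F.L (C.H X)) (fun _ : Unit => inclS S ω) := by
    rw [hF]
    exact frame_X _ hS.mem hω0 hline
  obtain ⟨hcard, c, hc0, hc, hg⟩ := hD _ F C X Y hXY Unit (Fin n) (fun _ => inclS S ω) e'
    hfX he'
  have hn : n = 1 := by
    rw [Fintype.card_fin] at hcard
    simpa using hcard.symm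
  subst hn
  have hone : (1 : ℂ) ∈ detIdeal (rows (fun _ : Unit => inclS S ω) (F.L (C.H X))) := by
    rw [hF]
    exact one_mem_detIdeal _ (C.H X) S ω
  have hc1 : c ∈ detIdeal (rows e' (F.L (C.H Y))) := by
    have h4 : c * 1 ∈ detIdeal (rows e' (F.L (C.H Y))) := by
      rw [hc]
      exact Submodule.mul_mem_mul (Submodule.mem_span_singleton_self c) hone
    rwa [mul_one] at h4
  have hv := smul_mem_of_detIdeal _ e' c hc1
  rw [hF] at hv
  have hv0 : c • e' 0 ≠ 0 := smul_ne_zero hc0 (he'.1.ne_zero 0)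
  have hnorm : (C.H Y).form.baseChange ℂ (c • e' 0) (conj _ (c • e' 0)) =
      (C.H X).form.baseChange ℂ (inclS S ω) (conj _ (inclS S ω)) := by
    apply eq_of_norm (norm_real _ _) (norm_real _ _)
      (hY _ (homLatS_le _ (C.H Y) hS.mem _ hv) hv0) hpos
    rw [Matrix.det_unique, Matrix.det_unique] at hg
    change ‖(C.H X).form.baseChange ℂ (inclS S ω) (conj _ (inclS S ω))‖ =
      ‖c‖ ^ 2 * ‖(C.H Y).form.baseChange ℂ (e' 0) (conj _ (e' 0))‖ at hg
    rw [hg, conj_smul, map_smul, map_smul, LinearMap.smul_apply, smul_eq_mul, smul_eq_mul,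
      norm_mul, norm_mul, RCLike.norm_conj]
    ring
  obtain ⟨m, g, hm, hgH, hgv⟩ := exists_denom (C.H X) S ω (C.H Y) _ hv
  refine ⟨m, g, hm, hgH, ?_⟩
  rw [hgv, conj_smul, map_smul, map_smul, LinearMap.smul_apply, hnorm, smul_eq_mul, smul_eq_mul,
    Complex.conj_natCast]
  ring

end Pool.Agent.Lib.MP0cb87d
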