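import Pool.Agent.Lib.MP_0cb87d_ag.HK.Stmts
import Pool.Agent.Lib.MP_0cb87d_ag.C1
import Pool.Agent.Lib.MP_0cb87d_ag.E1
import Pool.Agent.Lib.MP_0cb87d_ag.F2
import Pool.Agent.Lib.MP_0cb87d_ag.F3
import Pool.Agent.Lib.MP_0cb87d_ag.G3
import Pool.Agent.Lib.MP_0cb87d_ag.H2

/-! Module L5: the irreducible Hodge structure of top type. -/

set_option autoImplicit false

namespace Pool.Agent.Lib.MP0cb87d

open TensorProduct

namespace L5aux

open C1aux

variable (N : HodgeLattice)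

/-- The complexification of a subgroup, as a subspace. -/
noncomputable def BC (B : Submodule ℤ N.V) : Submodule ℂ (ℂ ⊗[ℤ] N.V) :=
  LinearMap.range (inclS B)

variable {N}

theorem inclS_tmul (B : Submodule ℤ N.V) (c : ℂ) (b : B) :
    inclS B (c ⊗ₜ[ℤ] b) = c ⊗ₜ[ℤ] (b : N.V) := rfl

theorem one_mem {B : Submodule ℤ N.V} {b : N.V} (hb : b ∈ B) : (1 : ℂ) ⊗ₜ[ℤ] b ∈ BC N B :=
  ⟨1 ⊗ₜ[ℤ] ⟨b, hb⟩, rfl⟩

theorem BC_le {B : Submodule ℤ N.V} {Z : Submodule ℂ (ℂ ⊗[ℤ] N.V)}
    (h : ∀ b ∈ B, (1 : ℂ) ⊗ₜ[ℤ] b ∈ Z) : BC N B ≤ Z := by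
  rintro _ ⟨w, rfl⟩
  induction w using TensorProduct.induction_on with
  | zero => rw [map_zero]; exact Z.zero_mem
  | add x y hx hy => rw [map_add]; exact Z.add_mem hx hy
  | tmul c b =>
    rw [inclS_tmul]
    have : c ⊗ₜ[ℤ] (b : N.V) = c • ((1 : ℂ) ⊗ₜ[ℤ] (b : N.V)) := by
      rw [TensorProduct.smul_tmul', smul_eq_mul, mul_one]
    rw [this]
    exact Z.smul_mem c (h b b.2)

theorem BC_mono {B B' : Submodule ℤ N.V} (h : B ≤ B') : BC N B ≤ BC N B' :=
  BC_le fun _ hb => one_mem (h hb)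

theorem inclS_conj (B : Submodule ℤ N.V) (w : ℂ ⊗[ℤ] B) :
    inclS B (conj _ w) = conj _ (inclS B w) :=
  (G3aux.conj_baseChange B.subtype w).symm

theorem conj_BC {B : Submodule ℤ N.V} {z : ℂ ⊗[ℤ] N.V} (hz : z ∈ BC N B) :
    conj _ z ∈ BC N B := by
  obtain ⟨w, rfl⟩ := hz
  exact ⟨conj _ w, inclS_conj B w⟩

theorem cp_in (k : ℤ) (x : ℂ ⊗[ℤ] N.V) : cp N k x ∈ N.comp k :=
  Subtype.property _

theorem exists_fin (x : ℂ ⊗[ℤ] N.V) : ∃ s : Finset ℤ, (∀ k, k ∉ s → cp N k x = 0) ∧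
    x = ∑ k ∈ s, cp N k x := by
  obtain ⟨s, c, hc, hx⟩ := E1aux.exists_sum N x
  have h1 : ∀ k, cp N k x = if k ∈ s then c k else 0 := by
    intro k
    conv_lhs => rw [hx]
    rw [map_sum]
    have : ∀ j ∈ s, cp N k (c j) = if j = k then c j else 0 := fun j _ => cp_mem (hc j)
    rw [Finset.sum_congr rfl this, Finset.sum_ite_eq' s k c]
  refine ⟨s, fun k hk => by rw [h1, if_neg hk], ?_⟩
  conv_lhs => rw [hx]
  exact Finset.sum_congr rfl fun k hk => by rw [h1, if_pos hk]

theorem eq_zero_of_cp {x : ℂ ⊗[ℤ] N.V} (h : ∀ k, cp N k x = 0) : x = 0 := by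
  obtain ⟨s, -, hx⟩ := exists_fin x
  rw [hx]
  exact Finset.sum_eq_zero fun k _ => h k

/-- orthogonality as for a Hodge form -/
def Orth (β : LinearMap.BilinForm ℤ N.V) : Prop :=
  ∀ k l, k + l ≠ 0 → ∀ x ∈ N.comp k, ∀ y ∈ N.comp l, β.baseChange ℂ x y = 0

theorem orth_left {β : LinearMap.BilinForm ℤ N.V} (hβ : Orth β) {m : ℤ} {u : ℂ ⊗[ℤ] N.V}
    (hu : u ∈ N.comp m) (y : ℂ ⊗[ℤ] N.V) :
    β.baseChange ℂ y u = β.baseChange ℂ (cp N (-m) y) u := by
  obtain ⟨s, hs, hy⟩ := exists_fin y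
  conv_lhs => rw [hy]
  rw [map_sum, LinearMap.sum_apply]
  rw [Finset.sum_eq_single (-m)]
  · intro k _ hk
    exact hβ k m (by omega) _ (cp_in k y) _ hu
  · intro h
    rw [hs _ h, map_zero, LinearMap.zero_apply]

theorem orth_right {β : LinearMap.BilinForm ℤ N.V} (hβ : Orth β) {m : ℤ} {u : ℂ ⊗[ℤ] N.V}
    (hu : u ∈ N.comp m) (y : ℂ ⊗[ℤ] N.V) :
    β.baseChange ℂ u y = β.baseChange ℂ u (cp N (-m) y) := by
  obtain ⟨s, hs, hy⟩ := exists_fin y
  conv_lhs => rw [hy]
  rw [map_sum]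
  rw [Finset.sum_eq_single (-m)]
  · intro k _ hk
    exact hβ m k (by omega) _ hu _ (cp_in k y)
  · intro h
    rw [hs _ h, map_zero]

/-! ### the largest graded subgroup of types between `-d` and `d` -/

/-- graded subgroups of types between `-d` and `d` -/
def Gr (N : HodgeLattice) (d : ℤ) (B : Submodule ℤ N.V) : Prop :=
  ∀ z ∈ BC N B, ∀ k, cp N k z ∈ BC N B ∧ (¬ |k| < d → cp N k z = 0)

/-- the largest one -/
noncomputable def Bm (N : HodgeLattice) (d : ℤ) : Submodule ℤ N.V := sSup {B | Gr N d B}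

theorem le_Bm {d : ℤ} {B : Submodule ℤ N.V} (h : Gr N d B) : B ≤ Bm N d := le_sSup h

theorem gr_Bm (d : ℤ) : Gr N d (Bm N d) := by
  let Z : Submodule ℂ (ℂ ⊗[ℤ] N.V) :=
    { carrier := {z | ∀ k, cp N k z ∈ BC N (Bm N d) ∧ (¬ |k| < d → cp N k z = 0)}
      add_mem' := fun {a b} ha hb k => ⟨by
        rw [map_add]; exact add_mem (ha k).1 (hb k).1, fun h => by
        rw [map_add, (ha k).2 h, (hb k).2 h, add_zero]⟩
      zero_mem' := fun k => ⟨by rw [map_zero]; exact zero_mem _, fun _ => map_zero _⟩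
      smul_mem' := fun c x hx k => ⟨by
        rw [map_smul]; exact Submodule.smul_mem _ c (hx k).1, fun h => by
        rw [map_smul, (hx k).2 h, smul_zero]⟩ }
  let Z' : Submodule ℤ N.V :=
    { carrier := {b | (1 : ℂ) ⊗ₜ[ℤ] b ∈ Z}
      add_mem' := fun {a b} ha hb => by
        simp only [Set.mem_ofPred_eq, TensorProduct.tmul_add] at *
        exact add_mem ha hb
      zero_mem' := by
        simp only [Set.mem_ofPred_eq, TensorProduct.tmul_zero]
        exact zero_mem Z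
      smul_mem' := fun c x hx => by
        simp only [Set.mem_ofPred_eq, TensorProduct.tmul_smul] at *
        exact zsmul_mem hx c }
  have h1 : Bm N d ≤ Z' := by
    refine sSup_le fun B hB b hb => ?_
    change (1 : ℂ) ⊗ₜ[ℤ] b ∈ Z
    intro k
    obtain ⟨h1, h2⟩ := hB _ (one_mem hb) k
    exact ⟨BC_mono (le_Bm hB) h1, h2⟩
  have h2 : BC N (Bm N d) ≤ Z := BC_le fun b hb => h1 hb
  exact fun z hz => h2 hz

theorem map_BC (f : N.V →ₗ[ℤ] N.V) (B : Submodule ℤ N.V) {z : ℂ ⊗[ℤ] N.V}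
    (hz : z ∈ BC N (B.map f)) : ∃ w ∈ BC N B, f.baseChange ℂ w = z := by
  have h : BC N (B.map f) ≤ (BC N B).map (f.baseChange ℂ) := by
    apply BC_le
    rintro _ ⟨b, hb, rfl⟩
    exact ⟨1 ⊗ₜ[ℤ] b, one_mem hb, LinearMap.baseChange_tmul _ _ _⟩
  obtain ⟨w, hw, h2⟩ := h hz
  exact ⟨w, hw, h2⟩

theorem map_BC' (f : N.V →ₗ[ℤ] N.V) (B : Submodule ℤ N.V) {w : ℂ ⊗[ℤ] N.V}
    (hw : w ∈ BC N B) : f.baseChange ℂ w ∈ BC N (B.map f) := by
  have h : BC N B ≤ (BC N (B.map f)).comap (f.baseChange ℂ) := by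
    apply BC_le
    intro b hb
    rw [Submodule.mem_comap, LinearMap.baseChange_tmul]
    exact one_mem (Submodule.mem_map_of_mem hb)
  exact h hw

/-- Hodge maps preserve the largest graded subgroup -/
theorem map_Bm {f : N.V →ₗ[ℤ] N.V} (hf : IsHodge N N f) (d : ℤ) :
    (Bm N d).map f ≤ Bm N d := by
  apply le_Bm
  intro z hz k
  obtain ⟨w, hw, rfl⟩ := map_BC f _ hz
  obtain ⟨h1, h2⟩ := gr_Bm d w hw k
  rw [cp_comm hf]
  exact ⟨map_BC' f _ h1, fun h => by rw [h2 h, map_zero]⟩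

/-- the endomorphism which transforms the form into the polarization -/
theorem exists_tau (ψ : LinearMap.BilinForm ℤ N.V) (hψ : Orth ψ) :
    ∃ τ : N.V →ₗ[ℤ] N.V, IsHodge N N τ ∧ ∀ x t : ℂ ⊗[ℤ] N.V,
      N.form.baseChange ℂ x (τ.baseChange ℂ t) = ψ.baseChange ℂ x t := by
  let q : N.V ≃ₗ[ℤ] (N.V →ₗ[ℤ] ℤ) := LinearEquiv.ofBijective N.form N.unimodular
  let τ : N.V →ₗ[ℤ] N.V := q.symm.toLinearMap ∘ₗ (LinearMap.flip ψ)
  have hg : ∀ (x : N.V) (t : N.V), N.form x (τ t) = ψ x t := by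
    intro x t
    rw [N.symm]
    have h1 : q (τ t) = LinearMap.flip ψ t := q.apply_symm_apply _
    exact congrArg (fun l : N.V →ₗ[ℤ] ℤ => l x) h1
  have hgC : ∀ (x : ℂ ⊗[ℤ] N.V) (t : ℂ ⊗[ℤ] N.V),
      N.form.baseChange ℂ x (τ.baseChange ℂ t) = ψ.baseChange ℂ x t := by
    intro x t
    induction t using TensorProduct.induction_on with
    | zero => simp
    | tmul c t =>
      induction x using TensorProduct.induction_on with
      | zero => simp
      | tmul c' x =>
        rw [LinearMap.baseChange_tmul,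
          LinearMap.BilinForm.baseChange_tmul, LinearMap.BilinForm.baseChange_tmul, hg]
      | add x y hx hy =>
        rw [map_add, LinearMap.add_apply, hx, hy, map_add, LinearMap.add_apply]
    | add s t hs ht =>
      rw [map_add, map_add, hs, ht, map_add]
  refine ⟨τ, fun k t ht => E1aux.mem_comp N k _ fun l hl x hx => ?_, hgC⟩
  rw [hgC]
  exact hψ l k hl x hx _ ht

/-- the form is nondegenerate on the largest graded subgroup -/
theorem nondeg_Bm {d : ℤ} {y : ℂ ⊗[ℤ] N.V} (hy : y ∈ BC N (Bm N d))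
    (h : ∀ z ∈ BC N (Bm N d), N.form.baseChange ℂ y z = 0) : y = 0 := by
  obtain ⟨ψ, hψ, hpos⟩ := N.polarizable
  obtain ⟨τ, hτ, hτC⟩ := exists_tau ψ hψ
  apply eq_zero_of_cp
  intro k
  by_contra hne
  have h1 : conj _ (cp N k y) ∈ N.comp (-k) := N.conj_mem k _ (cp_in k y)
  have h2 : conj _ (cp N k y) ∈ BC N (Bm N d) := conj_BC (gr_Bm d y hy k).1
  have h3 : τ.baseChange ℂ (conj _ (cp N k y)) ∈ BC N (Bm N d) :=
    BC_mono (map_Bm hτ d) (map_BC' τ _ h2)
  have h4 := h _ h3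
  rw [hτC, orth_left (β := ψ) hψ h1, neg_neg] at h4
  have h5 := hpos k _ (cp_in k y) hne
  rw [h4] at h5
  simp at h5

/-! ### the orthogonal complement -/

/-- the orthogonal complement -/
def Sm (N : HodgeLattice) (B : Submodule ℤ N.V) : Submodule ℤ N.V where
  carrier := {x | ∀ y ∈ B, N.form x y = 0}
  add_mem' := fun {a b} ha hb y hy => by simp [ha y hy, hb y hy]
  zero_mem' := fun y hy => by simp
  smul_mem' := fun c x hx y hy => by simp [hx y hy]

theorem inclS_injective (S : Submodule ℤ N.V) : Function.Injective (inclS S) :=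
  Module.Flat.lTensor_preserves_injective_linearMap (M := ℂ) S.subtype S.injective_subtype

/-- The products with finitely many elements, as a homomorphism. -/
def prodMap (N : HodgeLattice) {n : ℕ} (y : Fin n → N.V) : N.V →ₗ[ℤ] (Fin n → ℤ) :=
  LinearMap.pi fun i => N.form.flip (y i)

theorem exact_prodMap (B : Submodule ℤ N.V) {n : ℕ} (y : Fin n → N.V)
    (hy : Submodule.span ℤ (Set.range y) = B) :
    Function.Exact (Sm N B).subtype (prodMap N y) := by
  intro x
  constructor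
  · intro hx
    refine ⟨⟨x, ?_⟩, rfl⟩
    intro z hz
    rw [← hy] at hz
    induction hz using Submodule.span_induction with
    | mem z hz =>
      obtain ⟨i, rfl⟩ := hz
      exact congrFun hx i
    | zero => simp
    | add a b _ _ ha hb => rw [map_add, ha, hb, add_zero]
    | smul c a _ ha => rw [map_smul, ha, smul_zero]
  · rintro ⟨t, rfl⟩
    funext i
    have h : y i ∈ B := by
      rw [← hy]
      exact Submodule.subset_span ⟨i, rfl⟩
    exact t.2 (y i) h

theorem piScalar_prodMap {n : ℕ} (y : Fin n → N.V) (x : ℂ ⊗[ℤ] N.V)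
    (i : Fin n) :
    TensorProduct.piScalarRight ℤ ℂ ℂ (Fin n) (LinearMap.lTensor ℂ (prodMap N y) x) i =
      N.form.baseChange ℂ x (1 ⊗ₜ y i) := by
  induction x using TensorProduct.induction_on with
  | zero => simp
  | add a b ha hb => rw [map_add, map_add, map_add, Pi.add_apply, ha, hb, LinearMap.add_apply]
  | tmul c v =>
    rw [LinearMap.lTensor_tmul, LinearMap.BilinForm.baseChange_tmul]
    simp [prodMap]

theorem mem_SC (B : Submodule ℤ N.V) (x : ℂ ⊗[ℤ] N.V) :
    x ∈ BC N (Sm N B) ↔ ∀ y ∈ B, N.form.baseChange ℂ x (1 ⊗ₜ y) = 0 := by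
  obtain ⟨n, y, hy⟩ := Submodule.fg_iff_exists_fin_generating_family.1
    (IsNoetherian.noetherian B)
  have hex := Module.Flat.lTensor_exact ℂ (exact_prodMap B y hy)
  have h1 : x ∈ BC N (Sm N B) ↔ LinearMap.lTensor ℂ (prodMap N y) x = 0 := (hex x).symm
  rw [h1]
  constructor
  · intro h z hz
    rw [← hy] at hz
    induction hz using Submodule.span_induction with
    | mem z hz =>
      obtain ⟨i, rfl⟩ := hz
      rw [← piScalar_prodMap, h, map_zero, Pi.zero_apply]
    | zero => simp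
    | add a b _ _ ha hb => rw [TensorProduct.tmul_add, map_add, ha, hb, add_zero]
    | smul c a _ ha => rw [TensorProduct.tmul_smul, map_zsmul, ha, smul_zero]
  · intro h
    apply (TensorProduct.piScalarRight ℤ ℂ ℂ (Fin n)).injective
    rw [map_zero]
    funext i
    rw [piScalar_prodMap, Pi.zero_apply]
    apply h
    rw [← hy]
    exact Submodule.subset_span ⟨i, rfl⟩

/-- orthogonality extends to the complexification -/
theorem orth_BC {B : Submodule ℤ N.V} {x : ℂ ⊗[ℤ] N.V}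
    (h : ∀ y ∈ B, N.form.baseChange ℂ x (1 ⊗ₜ y) = 0) {z : ℂ ⊗[ℤ] N.V} (hz : z ∈ BC N B) :
    N.form.baseChange ℂ x z = 0 := by
  have : BC N B ≤ LinearMap.ker (N.form.baseChange ℂ x) := BC_le fun b hb => by
    rw [LinearMap.mem_ker]; exact h b hb
  exact LinearMap.mem_ker.1 (this hz)

theorem orthN : Orth (N := N) N.form := N.orth

/-- the complement of a graded subgroup is graded -/
theorem cp_SC {d : ℤ} {B : Submodule ℤ N.V} (hB : Gr N d B) {z : ℂ ⊗[ℤ] N.V}
    (hz : z ∈ BC N (Sm N B)) (k : ℤ) : cp N k z ∈ BC N (Sm N B) := by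
  rw [mem_SC] at hz ⊢
  intro y hy
  have h1 := hB _ (one_mem hy) (-k)
  rw [orth_right orthN (cp_in k z)]
  have h2 := orth_left orthN (cp_in (-k) ((1 : ℂ) ⊗ₜ[ℤ] y)) z
  rw [neg_neg] at h2
  rw [← h2]
  exact orth_BC hz h1.1

theorem restrict_baseChange (S : Submodule ℤ N.V) (x y : ℂ ⊗[ℤ] S) :
    (N.form.restrict S).baseChange ℂ x y = N.form.baseChange ℂ (inclS S x) (inclS S y) := by
  induction x using TensorProduct.induction_on with
  | zero => simp
  | add x x' hx hx' => simp only [map_add, LinearMap.add_apply, hx, hx']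
  | tmul z v =>
    induction y using TensorProduct.induction_on with
    | zero => simp
    | add y y' hy hy' => simp only [map_add, hy, hy']
    | tmul z' v' =>
      rw [inclS_tmul, inclS_tmul, LinearMap.BilinForm.baseChange_tmul,
        LinearMap.BilinForm.baseChange_tmul]
      rfl

theorem disjoint {d : ℤ} {x : N.V} (hx : x ∈ Bm N d) (hx' : x ∈ Sm N (Bm N d)) : x = 0 := by
  apply H2aux.one_tmul_eq_zero N.V
  apply nondeg_Bm (one_mem hx)
  intro z hz
  exact orth_BC (fun y hy => by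
    rw [LinearMap.BilinForm.baseChange_tmul, hx' y hy, zero_smul]) hz

/-- the form is nondegenerate on the complement -/
theorem nondeg_Sm {d : ℤ} {x : N.V} (hx : x ∈ Sm N (Bm N d))
    (h : ∀ y ∈ Sm N (Bm N d), N.form x y = 0) : x = 0 := by
  apply N.unimodular.1
  rw [map_zero]
  refine LinearMap.ext fun v => ?_
  rw [LinearMap.zero_apply]
  obtain ⟨c, b0, hc, hb0⟩ := F3aux.exists_dual (T := Bm N d) (N.form.restrict (Bm N d)) (by
    intro t ht
    apply Subtype.ext
    apply disjoint (N := N) (d := d) t.2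
    intro y hy
    exact ht ⟨y, hy⟩) ((N.form v) ∘ₗ (Bm N d).subtype)
  have hs : c • v - (b0 : N.V) ∈ Sm N (Bm N d) := by
    intro y hy
    have h1 : N.form (b0 : N.V) y = c * N.form v y := hb0 ⟨y, hy⟩
    rw [map_sub, LinearMap.sub_apply, map_smul, LinearMap.smul_apply, h1, smul_eq_mul, sub_self]
  have h1 := h _ hs
  rw [map_sub, map_smul, hx _ b0.2, sub_zero, smul_eq_mul] at h1
  exact (mul_eq_zero.1 h1).resolve_left hc

end L5aux

open L5aux C1aux in
theorem stL5 : StL5 := by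
  intro N d hd htop hfin hpos
  obtain ⟨⟨v, hv⟩, hv0, hvl⟩ := finrank_eq_one_iff'.1 hfin
  set B := Bm N d with hB
  set S := Sm N B with hS
  have hv0' : v ≠ 0 := fun h => hv0 (Subtype.ext h)
  have hvl' : ∀ x ∈ N.comp d, ∃ c : ℂ, x = c • v := by
    intro x hx
    obtain ⟨c, hc⟩ := hvl ⟨x, hx⟩
    exact ⟨c, by
      have := congrArg Subtype.val hc
      exact this.symm⟩
  have hvS : v ∈ BC N S := by
    rw [hS, mem_SC]
    intro y hy
    rw [orth_right orthN hv]
    rw [(gr_Bm d _ (one_mem hy) (-d)).2 (by rw [abs_neg, abs_of_pos hd]; exact lt_irrefl d),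
      map_zero]
  obtain ⟨ω, hω⟩ := hvS
  have hinj := inclS_injective (N := N) S
  have hgr : ∀ z : ℂ ⊗[ℤ] S, ∃ y : ℤ →₀ (ℂ ⊗[ℤ] S), (∀ i, inclS S (y i) ∈ N.comp i) ∧
      y.sum (fun _ v => v) = z := by
    intro z
    obtain ⟨s, hs, hx⟩ := exists_fin (N := N) (inclS S z)
    have hw : ∀ k, ∃ w, inclS S w = cp N k (inclS S z) := fun k =>
      cp_SC (gr_Bm d) (⟨z, rfl⟩ : inclS S z ∈ BC N S) k
    choose w hw using hw
    refine ⟨Finsupp.onFinset s w fun k hk => ?_, fun i => ?_, ?_⟩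
    · by_contra hks
      apply hk
      apply hinj
      rw [hw, hs k hks, map_zero]
    · rw [Finsupp.onFinset_apply, hw]
      exact cp_in i _
    · rw [Finsupp.onFinset_sum _ fun _ => rfl]
      apply hinj
      rw [map_sum, Finset.sum_congr rfl fun k _ => hw k, ← hx]
  have hline : ∀ z, inclS S z ∈ N.comp d → ∃ c : ℂ, z = c • ω := by
    intro z hz
    obtain ⟨c, hc⟩ := hvl' _ hz
    refine ⟨c, hinj ?_⟩
    rw [map_smul, hω, hc]
  refine ⟨S, ω, ⟨hgr, by rw [hω]; exact hv, ?_, hline, ?_, fun x y => N.symm x y, ?_, ?_, ?_⟩,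
    fun x hx => ?_, ?_⟩
  · rintro rfl
    rw [map_zero] at hω
    exact hv0' hω.symm
  · intro f hf hfω
    -- types at least `d`
    have hA : ∀ j, d ≤ j → ∀ u, inclS S u ∈ N.comp j → f.baseChange ℂ u = 0 := by
      intro j hj u hu
      rcases hj.lt_or_eq with h | rfl
      · rw [htop j h, Submodule.mem_bot] at hu
        have : u = 0 := hinj (by rw [hu, map_zero])
        rw [this, map_zero]
      · obtain ⟨c, rfl⟩ := hline u hu
        rw [map_smul, hfω, smul_zero]
    have hA' : ∀ j, j ≤ -d → ∀ u, inclS S u ∈ N.comp j → f.baseChange ℂ u = 0 := by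
      intro j hj u hu
      have h1 : inclS S (conj _ u) ∈ N.comp (-j) := by
        rw [inclS_conj]; exact N.conj_mem j _ hu
      have h2 := hA (-j) (by omega) _ h1
      rw [← G3aux.conj_baseChange] at h2
      have h3 := congrArg (conj S) h2
      rwa [F2aux.conj_conj, map_zero] at h3
    have hP : Gr N d (LinearMap.range (S.subtype ∘ₗ f)) := by
      intro z hz j
      have hin : ∀ u : ℂ ⊗[ℤ] S, inclS S (f.baseChange ℂ u) ∈
          BC N (LinearMap.range (S.subtype ∘ₗ f)) := by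
        intro u
        induction u using TensorProduct.induction_on with
        | zero => simp only [map_zero]; exact zero_mem _
        | add x y hx hy => rw [map_add, map_add]; exact add_mem hx hy
        | tmul c t =>
          rw [LinearMap.baseChange_tmul, inclS_tmul]
          exact ⟨c ⊗ₜ[ℤ] ⟨(f t : N.V), ⟨t, rfl⟩⟩, rfl⟩
      have hout : ∃ u : ℂ ⊗[ℤ] S, inclS S (f.baseChange ℂ u) = z := by
        have h : BC N (LinearMap.range (S.subtype ∘ₗ f)) ≤
            LinearMap.range (inclS S ∘ₗ f.baseChange ℂ) := by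
          apply BC_le
          rintro _ ⟨t, rfl⟩
          exact ⟨1 ⊗ₜ[ℤ] t, rfl⟩
        obtain ⟨u, hu⟩ := h hz
        exact ⟨u, hu⟩
      obtain ⟨u, rfl⟩ := hout
      obtain ⟨y, hy, hyu⟩ := hgr u
      have hcp : cp N j (inclS S (f.baseChange ℂ u)) = inclS S (f.baseChange ℂ (y j)) := by
        rw [← hyu, Finsupp.sum, map_sum, map_sum, map_sum]
        rw [Finset.sum_eq_single j]
        · rw [cp_mem (hf j _ (hy j)), if_pos rfl]
        · intro k _ hk
          rw [cp_mem (hf k _ (hy k)), if_neg hk]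
        · intro h
          rw [Finsupp.notMem_support_iff.1 h, map_zero, map_zero, map_zero]
      rw [hcp]
      refine ⟨hin _, fun hj => ?_⟩
      rcases le_or_gt 0 j with h0 | h0
      · rw [abs_of_nonneg h0] at hj
        rw [hA j (by omega) _ (hy j), map_zero]
      · rw [abs_of_neg h0] at hj
        rw [hA' j (by omega) _ (hy j), map_zero]
    have hle := le_Bm hP
    refine LinearMap.ext fun t => ?_
    apply Subtype.ext
    rw [LinearMap.zero_apply, Submodule.coe_zero]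
    exact disjoint (hle ⟨t, rfl⟩) (f t).2
  · intro k l hkl x y hx hy
    rw [restrict_baseChange]
    exact N.orth k l hkl _ hx _ hy
  · intro x hx
    apply Subtype.ext
    exact nondeg_Sm x.2 fun y hy => hx ⟨y, hy⟩
  · rw [restrict_baseChange, inclS_conj, hω]
    intro h
    have := hpos v hv hv0'
    rw [h] at this
    simp at this
  · rw [hω]; exact hvl' x hx
  · rw [restrict_baseChange, inclS_conj]

end Pool.Agent.Lib.MP0cb87d
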