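import Pool.Agent.Lib.MP_0cb87d_ag.HK.Stmts

/-! Module M1: the additive measure in degree one. -/

set_option autoImplicit false

namespace Pool.Agent.Lib.MP0cb87d

open TensorProduct

namespace M1aux

/-- the decomposition as a linear equivalence -/
noncomputable def D (N : GradedHodgeLattice) : (DirectSum ℤ fun k => N.deg k) ≃ₗ[ℤ] N.V :=
  LinearEquiv.ofBijective (DirectSum.coeLinearMap N.deg) N.deg_internal

/-- the component of degree `l` -/
noncomputable def dg (N : GradedHodgeLattice) (l : ℤ) : N.V →ₗ[ℤ] N.V :=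
  (N.deg l).subtype ∘ₗ (DirectSum.component ℤ ℤ (fun k => N.deg k) l) ∘ₗ (D N).symm.toLinearMap

lemma D_of (N : GradedHodgeLattice) (k : ℤ) (x : N.deg k) :
    D N (DirectSum.lof ℤ ℤ (fun k => N.deg k) k x) = x :=
  DirectSum.coeLinearMap_lof N.deg k x

lemma dg_mem {N : GradedHodgeLattice} {k l : ℤ} {x : N.V} (hx : x ∈ N.deg k) :
    dg N l x = if k = l then x else 0 := by
  have h1 : (D N).symm x = DirectSum.lof ℤ ℤ (fun k => N.deg k) k ⟨x, hx⟩ := by
    rw [LinearEquiv.symm_apply_eq, D_of]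
  simp only [dg, LinearMap.comp_apply, LinearEquiv.coe_coe]
  rw [h1]
  by_cases h : k = l
  · subst h
    rw [if_pos rfl, DirectSum.component.lof_self]
    rfl
  · rw [if_neg h, DirectSum.component.of, dif_neg h]
    simp

lemma mem_of_dg {N : GradedHodgeLattice} {k : ℤ} {x : N.V} (h : ∀ l, l ≠ k → dg N l x = 0) :
    x ∈ N.deg k := by
  have h1 : (D N).symm x = DirectSum.lof ℤ ℤ (fun k => N.deg k) k
      (DirectSum.component ℤ ℤ (fun k => N.deg k) k ((D N).symm x)) := by
    apply DirectSum.ext_component ℤ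
    intro l
    by_cases hl : l = k
    · subst hl
      rw [DirectSum.component.lof_self]
    · rw [DirectSum.component.of, dif_neg (Ne.symm hl)]
      have h2 := h l hl
      simp only [dg, LinearMap.comp_apply, LinearEquiv.coe_coe] at h2
      exact Subtype.ext h2
  rw [LinearEquiv.symm_apply_eq, D_of] at h1
  rw [h1]
  exact Subtype.property _

lemma dg_comm {N M : GradedHodgeLattice} {f : N.V →ₗ[ℤ] M.V} {j : ℤ}
    (hf : ∀ i, ∀ x ∈ N.deg i, f x ∈ M.deg (i + j)) (l : ℤ) (x : N.V) :
    dg M (l + j) (f x) = f (dg N l x) := by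
  have h : (dg M (l + j) ∘ₗ f) ∘ₗ (D N).toLinearMap = (f ∘ₗ dg N l) ∘ₗ (D N).toLinearMap := by
    apply DirectSum.linearMap_ext
    intro i
    ext y
    simp only [LinearMap.comp_apply, LinearEquiv.coe_coe]
    rw [D_of, dg_mem (hf i _ y.2), dg_mem y.2]
    by_cases hil : i = l
    · rw [if_pos hil, if_pos (by rw [hil])]
    · rw [if_neg hil, if_neg (fun h => hil (add_right_cancel h)), map_zero]
  have h2 := LinearMap.congr_fun h ((D N).symm x)
  simpa only [LinearMap.comp_apply, LinearEquiv.coe_coe, LinearEquiv.apply_symm_apply] using h2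

section

variable (X : HodgeLattice) (T : Submodule ℤ X.V) (σ : ℂ ⊗[ℤ] T)

/-- The complex span of the values at `σ` of the Hodge maps of `T` to the part of degree `l`. -/
noncomputable def W (l : ℤ) (N : GradedHodgeLattice) : Submodule ℂ (ℂ ⊗[ℤ] N.V) :=
  Submodule.span ℂ {v | ∃ f : T →ₗ[ℤ] N.V, IsHodgeFrom X T N.toHodgeLattice f ∧
    (∀ t, f t ∈ N.deg l) ∧ f.baseChange ℂ σ = v}

/-- Its dimension. -/
noncomputable def nn (l : ℤ) (N : GradedHodgeLattice) : ℤ := Module.finrank ℂ (W X T σ l N)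

variable {X T σ}

lemma W_map {N M : GradedHodgeLattice} {f : N.V →ₗ[ℤ] M.V}
    (hf : IsHodge N.toHodgeLattice M.toHodgeLattice f) {l l' : ℤ}
    (hd : ∀ x ∈ N.deg l, f x ∈ M.deg l') : ∀ v ∈ W X T σ l N, f.baseChange ℂ v ∈ W X T σ l' M := by
  intro v hv
  have h1 : W X T σ l N ≤ (W X T σ l' M).comap (f.baseChange ℂ) := by
    refine Submodule.span_le.2 ?_
    rintro _ ⟨g, hg, hgd, rfl⟩
    refine Submodule.subset_span ⟨f ∘ₗ g, fun k x hx => ?_, fun t => hd _ (hgd t), ?_⟩
    · rw [LinearMap.baseChange_comp]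
      exact hf k _ (hg k x hx)
    · rw [LinearMap.baseChange_comp]
      rfl
  exact h1 hv

/-- The dimensions are additive. -/
lemma dim_add (hc : StC1) (m : ℕ) (A N M : GradedHodgeLattice) (a : A.V →ₗ[ℤ] M.V)
    (b : Fin m → N.V →ₗ[ℤ] M.V) (d : Fin m → ℤ) (ha : IsHodgeDeg 0 A M a)
    (hb : ∀ i, IsHodgeDeg (d i) N M (b i))
    (hbij : Function.Bijective (fun z : A.V × (Fin m → N.V) => a z.1 + ∑ i, b i (z.2 i)))
    (l : ℤ) : nn X T σ l M = nn X T σ l A + ∑ i, nn X T σ (l - d i) N := by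
  obtain ⟨p, r, hp, hr, pa, pb, ra, rb, hs⟩ := hc m A.toHodgeLattice N.toHodgeLattice
    M.toHodgeLattice a b ha.1 (fun i => (hb i).1) hbij
  -- degrees
  have key : ∀ x ∈ M.deg l, ∀ j, j ≠ l → dg A j (p x) = 0 ∧ ∀ i, dg N (j - d i) (r i x) = 0 := by
    intro x hx j hj
    have h1 : dg M j x = 0 := by rw [dg_mem hx, if_neg (Ne.symm hj)]
    have h2 : a (dg A j (p x)) + ∑ i, b i (dg N (j - d i) (r i x)) = 0 := by
      rw [← h1]
      conv_rhs => rw [hs x]
      rw [map_add, map_sum]
      congr 1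
      · have := dg_comm ha.2 j (p x)
        rw [add_zero] at this
        exact this.symm
      · refine Finset.sum_congr rfl fun i _ => ?_
        have := dg_comm (hb i).2 (j - d i) (r i x)
        rw [sub_add_cancel] at this
        exact this.symm
    constructor
    · have h3 := congrArg p h2
      rw [map_add, map_sum, pa, map_zero, Finset.sum_eq_zero (fun i _ => pb i _), add_zero] at h3
      exact h3
    · intro i
      have h3 := congrArg (r i) h2
      rw [map_add, map_sum, ra, map_zero, zero_add] at h3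
      simp only [rb] at h3
      simpa using h3
  have hpd : ∀ x ∈ M.deg l, p x ∈ A.deg l := fun x hx =>
    mem_of_dg fun j hj => (key x hx j hj).1
  have hrd : ∀ i, ∀ x ∈ M.deg l, r i x ∈ N.deg (l - d i) := by
    intro i x hx
    refine mem_of_dg fun j hj => ?_
    have := (key x hx (j + d i) (fun h => hj (by rw [← h]; ring))).2 i
    rwa [add_sub_cancel_right] at this
  have had : ∀ x ∈ A.deg l, a x ∈ M.deg l := by
    intro x hx
    have := ha.2 l x hx
    rwa [add_zero] at this
  have hbd : ∀ i, ∀ x ∈ N.deg (l - d i), b i x ∈ M.deg l := by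
    intro i x hx
    have := (hb i).2 _ x hx
    rwa [sub_add_cancel] at this
  -- the identities over the complex numbers
  have cpa : ∀ x, p.baseChange ℂ (a.baseChange ℂ x) = x := by
    have h1 : p ∘ₗ a = LinearMap.id := LinearMap.ext pa
    intro x
    rw [← LinearMap.comp_apply, ← LinearMap.baseChange_comp, h1, LinearMap.baseChange_id]
    rfl
  have cpb : ∀ i x, p.baseChange ℂ ((b i).baseChange ℂ x) = 0 := by
    intro i x
    have h1 : p ∘ₗ b i = 0 := LinearMap.ext (pb i)
    rw [← LinearMap.comp_apply, ← LinearMap.baseChange_comp, h1, LinearMap.baseChange_zero]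
    rfl
  have cra : ∀ i x, (r i).baseChange ℂ (a.baseChange ℂ x) = 0 := by
    intro i x
    have h1 : r i ∘ₗ a = 0 := LinearMap.ext (ra i)
    rw [← LinearMap.comp_apply, ← LinearMap.baseChange_comp, h1, LinearMap.baseChange_zero]
    rfl
  have crb : ∀ i j x, (r i).baseChange ℂ ((b j).baseChange ℂ x) = if i = j then x else 0 := by
    intro i j x
    by_cases h : i = j
    · subst h
      have h1 : r i ∘ₗ b i = LinearMap.id := LinearMap.ext fun y => by
        rw [LinearMap.comp_apply, rb, if_pos rfl]; rfl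
      rw [← LinearMap.comp_apply, ← LinearMap.baseChange_comp, h1, LinearMap.baseChange_id,
        if_pos rfl]
      rfl
    · have h1 : r i ∘ₗ b j = 0 := LinearMap.ext fun y => by
        rw [LinearMap.comp_apply, rb, if_neg h]; rfl
      rw [← LinearMap.comp_apply, ← LinearMap.baseChange_comp, h1, LinearMap.baseChange_zero,
        if_neg h]
      rfl
  have csum : ∀ x, x = a.baseChange ℂ (p.baseChange ℂ x) +
      ∑ i, (b i).baseChange ℂ ((r i).baseChange ℂ x) := by
    intro x
    induction x using TensorProduct.induction_on with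
    | zero => simp
    | tmul c v =>
      simp only [LinearMap.baseChange_tmul]
      rw [← TensorProduct.tmul_sum, ← TensorProduct.tmul_add, ← hs v]
    | add x y hx hy =>
      conv_lhs => rw [hx, hy]
      simp only [map_add, Finset.sum_add_distrib]
      abel
  -- the isomorphism
  let Φ : W X T σ l M →ₗ[ℂ] W X T σ l A × (∀ i : Fin m, W X T σ (l - d i) N) :=
    LinearMap.prod ((p.baseChange ℂ).restrict (W_map hp hpd))
      (LinearMap.pi fun i => ((r i).baseChange ℂ).restrict (W_map (hr i) (hrd i)))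
  have hΦ : Function.Bijective Φ := by
    constructor
    · rw [← LinearMap.ker_eq_bot, LinearMap.ker_eq_bot']
      intro v hv
      have h1 : p.baseChange ℂ (v : ℂ ⊗[ℤ] M.V) = 0 := congrArg (fun z => (z.1 : ℂ ⊗[ℤ] A.V)) hv
      have h2 : ∀ i, (r i).baseChange ℂ (v : ℂ ⊗[ℤ] M.V) = 0 := fun i =>
        congrArg (fun z => ((z.2 i : W X T σ (l - d i) N) : ℂ ⊗[ℤ] N.V)) hv
      apply Subtype.ext
      rw [csum (v : ℂ ⊗[ℤ] M.V), h1, map_zero, zero_add]
      exact Finset.sum_eq_zero fun i _ => by rw [h2 i, map_zero]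
    · rintro ⟨u, w⟩
      refine ⟨⟨a.baseChange ℂ (u : ℂ ⊗[ℤ] A.V) + ∑ i, (b i).baseChange ℂ (w i : ℂ ⊗[ℤ] N.V),
        add_mem (W_map ha.1 had _ u.2) (sum_mem fun i _ => W_map (hb i).1 (hbd i) _ (w i).2)⟩, ?_⟩
      refine Prod.ext (Subtype.ext ?_) (funext fun i => Subtype.ext ?_)
      · show p.baseChange ℂ (a.baseChange ℂ (u : ℂ ⊗[ℤ] A.V) +
          ∑ i, (b i).baseChange ℂ (w i : ℂ ⊗[ℤ] N.V)) = u
        rw [map_add, map_sum, cpa, Finset.sum_eq_zero (fun i _ => cpb i _), add_zero]
      · show (r i).baseChange ℂ (a.baseChange ℂ (u : ℂ ⊗[ℤ] A.V) +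
          ∑ i, (b i).baseChange ℂ (w i : ℂ ⊗[ℤ] N.V)) = w i
        rw [map_add, map_sum, cra, zero_add]
        simp only [crb]
        simp
  have hfin := (LinearEquiv.ofBijective Φ hΦ).finrank_eq
  rw [Module.finrank_prod, Module.finrank_pi_fintype] at hfin
  unfold nn
  rw [hfin]
  push_cast
  rfl

lemma dim_union (hc : StC1) {A B M : GradedHodgeLattice} (h : GradedOrthSum A B M) (l : ℤ) :
    nn X T σ l M = nn X T σ l A + nn X T σ l B := by
  obtain ⟨a, b, ha, hb, hbij, -, -, -⟩ := h
  have h1 : Function.Bijective (fun z : A.V × (Fin 1 → B.V) => a z.1 + ∑ i : Fin 1, b (z.2 i)) := by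
    have : (fun z : A.V × (Fin 1 → B.V) => a z.1 + ∑ i : Fin 1, b (z.2 i)) =
        (fun z : A.V × B.V => a z.1 + b z.2) ∘
          (Prod.map id (Equiv.funUnique (Fin 1) B.V)) := by
      funext z
      simp
    rw [this]
    exact hbij.comp (Function.bijective_id.prodMap (Equiv.bijective _))
  have h2 := dim_add (X := X) (T := T) (σ := σ) hc 1 A B M a (fun _ => b) (fun _ => 0) ha
    (fun _ => hb) h1 l
  rw [h2]
  simp

lemma dim_blowup (hc : StC1) {m : ℕ} {A N M : GradedHodgeLattice} (h : GradedBlowup m A N M)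
    (l : ℤ) : nn X T σ l M = nn X T σ l A + ∑ i : Fin m, nn X T σ (l - ((i : ℕ) + 1)) N := by
  obtain ⟨a, b, ha, hb, hbij, -, -, -, -⟩ := h
  exact dim_add hc m A N M a b (fun i => ((i : ℕ) + 1 : ℤ)) ha hb hbij l

lemma dim_bundle (hc : StC1) {m : ℕ} {N M : GradedHodgeLattice} (h : GradedBundle (m + 1) N M)
    (l : ℤ) : nn X T σ l M = nn X T σ l N + ∑ i : Fin m, nn X T σ (l - ((i : ℕ) + 1)) N := by
  obtain ⟨b, hb, hbij, -, -⟩ := h
  have h0 : IsHodgeDeg 0 N M (b 0) := by
    have := hb 0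
    simpa using this
  have h1 : ∀ i : Fin m, IsHodgeDeg (((i : ℕ) + 1 : ℤ)) N M (b i.succ) := by
    intro i
    have := hb i.succ
    rw [Fin.val_succ] at this
    push_cast at this
    exact this
  refine dim_add hc m N N M (b 0) (fun i => b i.succ) (fun i => ((i : ℕ) + 1 : ℤ)) h0 h1 ?_ l
  have h2 : (fun z : N.V × (Fin m → N.V) => b 0 z.1 + ∑ i, b i.succ (z.2 i)) =
      (fun z : Fin (m + 1) → N.V => ∑ i, b i (z i)) ∘ (Fin.consEquiv fun _ => N.V) := by
    funext z
    rw [Function.comp_apply, Fin.sum_univ_succ]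
    simp [Fin.consEquiv]
  rw [h2]
  exact hbij.comp (Equiv.bijective _)

end

end M1aux

open M1aux in
theorem stM1 (hc : StC1) : StM1 := by
  intro C X Y hXY T hT k σ hσ _
  let μ : FreeAbelianGroup C.Var →+ (ℤ → ℤ) :=
    FreeAbelianGroup.lift fun Z l => nn (C.H X).toHodgeLattice T σ l (C.H Z)
  have hμ : ∀ Z, μ (FreeAbelianGroup.of Z) = fun l => nn (C.H X).toHodgeLattice T σ l (C.H Z) := fun Z =>
    FreeAbelianGroup.lift_apply_of _ Z
  have hrel : ∀ z ∈ C.relations, μ z = 0 := by
    intro z hz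
    have hle : C.relations ≤ μ.ker := by
      refine (AddSubgroup.closure_le _).2 ?_
      rintro w ((⟨Z, hZ, rfl⟩ | ⟨Z, Z', S, hS, rfl⟩) | ⟨Z, Z', m, B, E, hB, rfl⟩)
      · rw [SetLike.mem_coe, AddMonoidHom.mem_ker, hμ]
        have h1 : Subsingleton (C.H Z).V := C.empty_spec Z hZ
        funext l
        show nn (C.H X).toHodgeLattice T σ l (C.H Z) = 0
        unfold nn
        have h2 : Subsingleton (ℂ ⊗[ℤ] (C.H Z).V) := inferInstance
        have h3 : Subsingleton (W (C.H X).toHodgeLattice T σ l (C.H Z)) := inferInstance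
        rw [Module.finrank_zero_of_subsingleton]
        rfl
      · rw [SetLike.mem_coe, AddMonoidHom.mem_ker, map_sub, map_add, hμ, hμ, hμ]
        funext l
        simp only [Pi.sub_apply, Pi.add_apply, Pi.zero_apply]
        rw [dim_union hc (C.union_spec Z Z' S hS), sub_self]
      · rw [SetLike.mem_coe, AddMonoidHom.mem_ker, map_sub, map_sub, map_sub, hμ, hμ, hμ, hμ]
        obtain ⟨hbl, hbu⟩ := C.blowup_spec Z Z' m B E hB
        funext l
        simp only [Pi.sub_apply, Pi.zero_apply]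
        rw [dim_blowup hc hbl, dim_bundle hc hbu]
        ring
    exact AddMonoidHom.mem_ker.1 (hle hz)
  have hmul : ∀ z l, μ (C.mulL z) l = μ z (l - 1) := by
    intro z l
    let τ : (ℤ → ℤ) →+ (ℤ → ℤ) :=
      { toFun := fun g l => g (l - 1), map_zero' := rfl, map_add' := fun _ _ => rfl }
    have hcm : μ.comp C.mulL = τ.comp μ := by
      refine FreeAbelianGroup.lift_ext _ _ fun Z => ?_
      rw [AddMonoidHom.comp_apply, AddMonoidHom.comp_apply]
      have h2 : C.mulL (FreeAbelianGroup.of Z) =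
          FreeAbelianGroup.of (C.timesP1 Z) - FreeAbelianGroup.of Z :=
        FreeAbelianGroup.lift_apply_of _ Z
      rw [h2, map_sub, hμ, hμ]
      funext l
      show nn (C.H X).toHodgeLattice T σ l (C.H (C.timesP1 Z)) - nn (C.H X).toHodgeLattice T σ l (C.H Z) = nn (C.H X).toHodgeLattice T σ (l - 1) (C.H Z)
      rw [dim_bundle hc (m := 1) (C.timesP1_spec Z)]
      simp
    exact congrFun (DFunLike.congr_fun hcm z) l
  have hiter : ∀ (j : ℕ) z l, μ ((C.mulL)^[j] z) l = μ z (l - j) := by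
    intro j
    induction j with
    | zero => intro z l; simp
    | succ j ih =>
      intro z l
      have h3 : l - (j : ℤ) - 1 = l - ((j + 1 : ℕ) : ℤ) := by
        push_cast
        ring
      rw [Function.iterate_succ_apply, ih, hmul, h3]
  obtain ⟨j, hj⟩ := hXY
  have h2 : nn (C.H X).toHodgeLattice T σ 1 (C.H X) = nn (C.H X).toHodgeLattice T σ 1 (C.H Y) := by
    have h3 := congrFun (hrel _ hj) (1 + j)
    rw [hiter, map_sub, hμ, hμ] at h3
    simp only [add_sub_cancel_right, Pi.sub_apply, Pi.zero_apply] at h3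
    linarith
  -- the inclusion
  have hinj : Function.Injective (inclS T) :=
    Module.Flat.lTensor_preserves_injective_linearMap (M := ℂ) T.subtype T.injective_subtype
  have h4 : inclS T σ ≠ 0 := fun h => hσ (hinj (by rw [h, map_zero]))
  have h5 : inclS T σ ∈ W (C.H X).toHodgeLattice T σ 1 (C.H X) :=
    Submodule.subset_span ⟨T.subtype, fun k x hx => hx, fun t => hT t.2, rfl⟩
  have h6 : nn (C.H X).toHodgeLattice T σ 1 (C.H X) ≠ 0 := by
    unfold nn
    have : Module.finrank ℂ (W (C.H X).toHodgeLattice T σ 1 (C.H X)) ≠ 0 := by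
      intro h
      rw [Submodule.finrank_eq_zero] at h
      rw [h, Submodule.mem_bot] at h5
      exact h4 h5
    exact_mod_cast this
  rw [h2] at h6
  by_contra hno
  push Not at hno
  apply h6
  have h7 : W (C.H X).toHodgeLattice T σ 1 (C.H Y) = ⊥ := by
    unfold W
    rw [Submodule.span_eq_bot]
    rintro _ ⟨f, hf, hfd, rfl⟩
    exact hno f hf hfd
  unfold nn
  rw [h7, finrank_bot]
  rfl

end Pool.Agent.Lib.MP0cb87d
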