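import Pool.Agent.Lib.MP_0cb87d_ag.HK.Stmts
import Pool.Agent.Lib.MP_0cb87d_ag.I3

/-! Module (N2): Hodge maps between transcendental lattices of hyperkähler manifolds. -/

namespace Pool.Agent.Lib.MP0cb87d

open TensorProduct

namespace N2aux

/-- The complexification of a map with values in a subgroup. -/
lemma mem_baseChange {V W : Type} [AddCommGroup V] [AddCommGroup W] (f : V →ₗ[ℤ] W)
    (D : Submodule ℤ W) (hf : ∀ t, f t ∈ D) (x : ℂ ⊗[ℤ] V) :
    f.baseChange ℂ x ∈ D.baseChange ℂ := by
  induction x using TensorProduct.induction_on with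
  | zero => simp
  | tmul c v =>
    rw [LinearMap.baseChange_tmul]
    exact Submodule.tmul_mem_baseChange_of_mem c (hf v)
  | add x y hx hy =>
    rw [map_add]
    exact add_mem hx hy

/-- The complexification of a functional given by a form. -/
lemma functional_baseChange {V W : Type} [AddCommGroup V] [AddCommGroup W]
    (B : LinearMap.BilinForm ℤ W) (f : V →ₗ[ℤ] W) (y : W) (x : ℂ ⊗[ℤ] V) :
    TensorProduct.rid ℤ ℂ (((LinearMap.flip B y) ∘ₗ f).baseChange ℂ x) =
      B.baseChange ℂ (f.baseChange ℂ x) (1 ⊗ₜ[ℤ] y) := by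
  induction x using TensorProduct.induction_on with
  | zero => simp
  | tmul c v => simp [LinearMap.BilinForm.baseChange_tmul]
  | add x z hx hz => simp only [map_add, LinearMap.add_apply, hx, hz]

/-- The complexification of a difference. -/
lemma sub_smul_id_baseChange {V : Type} [AddCommGroup V] (f : V →ₗ[ℤ] V) (m : ℤ)
    (x : ℂ ⊗[ℤ] V) : (f - m • LinearMap.id).baseChange ℂ x = f.baseChange ℂ x - (m : ℂ) • x := by
  induction x using TensorProduct.induction_on with
  | zero => simp
  | tmul c v =>
    simp only [LinearMap.baseChange_tmul, LinearMap.sub_apply, LinearMap.smul_apply,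
      LinearMap.id_apply, tmul_sub, tmul_smul]
    rw [Int.cast_smul_eq_zsmul]
  | add x z hx hz =>
    simp only [map_add, hx, hz, smul_add]
    abel

end N2aux

open N2aux I3aux

/-- (N2) A Hodge map from a transcendental lattice to `H²` has values in the transcendental
lattice, is injective and has image of finite index. -/
theorem stN2 (h1 : StN1) (hL1 : StL1) (hL2 : StL2) : StN2 := by
  intro n n' N N' h h' f hf hdeg hf0
  obtain ⟨σ, hσ, -, hirr, -, -⟩ := h1 n N h
  obtain ⟨σ', hσ', -, hirr', -, -⟩ := h1 n' N' h'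
  -- the image of the complexification
  have hdegC : ∀ x, f.baseChange ℂ x ∈ (N'.deg 1).baseChange ℂ := mem_baseChange f _ hdeg
  have hcomp : ∀ k x, inclS h.trans x ∈ N.comp k → f.baseChange ℂ x ∈ comp2 N' k :=
    fun k x hx => ⟨hf k x hx, hdegC x⟩
  have hne : f.baseChange ℂ σ ≠ 0 := fun h0 => hf0 (hirr N'.V f h0)
  -- values in the transcendental lattice
  have hmem : ∀ t, f t ∈ h'.trans := by
    intro t
    refine ⟨hdeg t, fun y hy hy' => ?_⟩
    have h2 : (LinearMap.flip h'.q y) ∘ₗ f = 0 := by
      apply hirr ℤ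
      apply (TensorProduct.rid ℤ ℂ).injective
      rw [functional_baseChange, map_zero]
      exact h'.q_orth 2 0 (by norm_num) _ (hcomp 2 σ hσ.mem) _
        ⟨hy, Submodule.tmul_mem_baseChange_of_mem 1 hy'⟩
    exact LinearMap.congr_fun h2 t
  set g : h.trans →ₗ[ℤ] h'.trans := f.codRestrict h'.trans hmem with hg
  have hgf : h'.trans.subtype ∘ₗ g = f := by ext x; rfl
  have hincl : ∀ x, inclS h'.trans (g.baseChange ℂ x) = f.baseChange ℂ x := by
    intro x
    rw [inclS, ← LinearMap.comp_apply, ← LinearMap.baseChange_comp, hgf]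
  refine ⟨g, fun t => rfl, ?_, ?_⟩
  · -- injectivity
    set b : LinearMap.BilinForm ℤ h.trans := LinearMap.compl₁₂ h'.q f f with hb
    have hbC : ∀ x y, b.baseChange ℂ x y =
        h'.q.baseChange ℂ (f.baseChange ℂ x) (f.baseChange ℂ y) := pull_baseChange h'.q f
    have hbH : IsHodgeFormOn N.toHodgeLattice h.trans b := by
      intro k l hkl x y hx hy
      rw [hbC]
      exact h'.q_orth k l hkl _ (hcomp k x hx) _ (hcomp l y hy)
    obtain ⟨⟨d, f1, c, hd, hf1, hf1σ, hf1b, hf1c⟩, -⟩ := hL1 _ _ _ _ _ hσ b hbH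
    have hc : c ≠ 0 := by
      rintro rfl
      rw [zero_mul] at hf1c
      have h3 := (mul_eq_zero.1 hf1c).resolve_left (by exact_mod_cast hd)
      rw [hbC, baseChange_conj] at h3
      have h4 := h'.q_pos _ (hcomp 2 σ hσ.mem) hne
      rw [h3] at h4
      simp at h4
    have hcmem : c ∈ multFieldS N.toHodgeLattice h.trans σ :=
      ⟨1, one_ne_zero, by simpa using ⟨f1, hf1, hf1σ⟩⟩
    obtain ⟨e, he⟩ := (hL2 _ _ _ _ _ hσ).2.1.mul_inv_cancel
      (a := (⟨c, hcmem⟩ : multFieldS N.toHodgeLattice h.trans σ))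
      (fun h0 => hc (congrArg Subtype.val h0))
    have he' : c * (e : ℂ) = 1 := congrArg Subtype.val he
    obtain ⟨m, hm, f2, hf2, hf2σ⟩ := e.2
    have h5 : f2 ∘ₗ f1 - m • LinearMap.id = 0 := by
      apply hirr
      rw [sub_smul_id_baseChange, LinearMap.baseChange_comp, LinearMap.comp_apply, hf1σ, map_smul,
        hf2σ, smul_smul, sub_eq_zero]
      congr 1
      linear_combination (m : ℂ) * he'
    have h6 : ∀ t, f2 (f1 t) = m • t := fun t => by
      have := LinearMap.congr_fun h5 t
      simpa [sub_eq_zero] using this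
    rw [injective_iff_map_eq_zero]
    intro t ht
    have h7 : f t = 0 := congrArg Subtype.val ht
    have h8 : f1 t = 0 := by
      apply hσ.nondeg
      intro y
      rw [← hf1b t y]
      have : b t y = 0 := by
        rw [hb]
        simp [h7]
      rw [this, mul_zero]
    have h9 := h6 t
    rw [h8, map_zero] at h9
    exact (smul_eq_zero.1 h9.symm).resolve_left hm
  · -- finite index
    apply finite_index
    intro l hl
    obtain ⟨c, hc⟩ := hσ'.line (g.baseChange ℂ σ) (by rw [hincl]; exact (hcomp 2 σ hσ.mem).1)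
    have hc0 : c ≠ 0 := by
      rintro rfl
      rw [zero_smul] at hc
      apply hne
      rw [← hincl, hc, map_zero]
    apply hirr' ℤ l
    have h2 : l.baseChange ℂ (g.baseChange ℂ σ) = 0 := by
      rw [← LinearMap.comp_apply, ← LinearMap.baseChange_comp, hl]
      simp
    rw [hc, map_smul] at h2
    exact (smul_eq_zero.1 h2).resolve_left hc0

end Pool.Agent.Lib.MP0cb87d
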