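import Pool.Agent.Lib.MP_0cb87d_ag.HK.Stmts

/-! Module N3: an endomorphism of the transcendental lattice with adjoint is a Hodge map. -/

set_option autoImplicit false

namespace Pool.Agent.Lib.MP0cb87d

open TensorProduct

namespace N3aux

section

variable {V W : Type} [AddCommGroup V] [AddCommGroup W]

lemma conj_smul (c : ℂ) (x : ℂ ⊗[ℤ] V) : conj V (c • x) = (starRingEnd ℂ c) • conj V x := by
  induction x using TensorProduct.induction_on with
  | zero => simp
  | tmul a v =>
    rw [TensorProduct.smul_tmul', smul_eq_mul]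
    change (starRingEnd ℂ (c * a)) ⊗ₜ[ℤ] v = (starRingEnd ℂ c) • ((starRingEnd ℂ a) ⊗ₜ[ℤ] v)
    rw [TensorProduct.smul_tmul', smul_eq_mul, map_mul]
  | add x y hx hy => rw [smul_add, map_add, hx, hy, map_add, smul_add]

lemma conj_conj (x : ℂ ⊗[ℤ] V) : conj V (conj V x) = x := by
  induction x using TensorProduct.induction_on with
  | zero => simp
  | tmul a v =>
    change (starRingEnd ℂ (starRingEnd ℂ a)) ⊗ₜ[ℤ] v = a ⊗ₜ[ℤ] v
    rw [Complex.conj_conj]
  | add x y hx hy => rw [map_add, map_add, hx, hy]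

lemma conj_map (f : V →ₗ[ℤ] W) (x : ℂ ⊗[ℤ] V) :
    conj W (f.baseChange ℂ x) = f.baseChange ℂ (conj V x) := by
  induction x using TensorProduct.induction_on with
  | zero => simp
  | tmul a v => rfl
  | add x y hx hy => rw [map_add, map_add, hx, hy, map_add, map_add]

lemma adj {q : LinearMap.BilinForm ℤ V} {a b : V →ₗ[ℤ] V} (h : ∀ s t, q (a s) t = q s (b t))
    (x y : ℂ ⊗[ℤ] V) :
    q.baseChange ℂ (a.baseChange ℂ x) y = q.baseChange ℂ x (b.baseChange ℂ y) := by
  induction x using TensorProduct.induction_on with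
  | zero => simp
  | add x x' hx hx' => simp only [map_add, LinearMap.add_apply, hx, hx']
  | tmul c s =>
    induction y using TensorProduct.induction_on with
    | zero => simp
    | add y y' hy hy' => simp only [map_add, hy, hy']
    | tmul d t =>
      simp only [LinearMap.baseChange_tmul, LinearMap.BilinForm.baseChange_tmul, h]

lemma symm_base {q : LinearMap.BilinForm ℤ V} (h : ∀ s t, q s t = q t s)
    (x y : ℂ ⊗[ℤ] V) : q.baseChange ℂ x y = q.baseChange ℂ y x := by
  induction x using TensorProduct.induction_on with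
  | zero => simp
  | add x x' hx hx' => simp only [map_add, LinearMap.add_apply, hx, hx']
  | tmul c s =>
    induction y using TensorProduct.induction_on with
    | zero => simp
    | add y y' hy hy' => simp only [map_add, LinearMap.add_apply, hy, hy']
    | tmul d t =>
      simp only [LinearMap.BilinForm.baseChange_tmul, h s t]
      ring_nf

end

lemma inclS_injective {V : Type} [AddCommGroup V] (S : Submodule ℤ V) :
    Function.Injective (inclS S) := by
  have h := Module.Flat.lTensor_preserves_injective_linearMap (M := ℂ) S.subtype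
    S.injective_subtype
  exact h

lemma inclS_conj {V : Type} [AddCommGroup V] (S : Submodule ℤ V) (x : ℂ ⊗[ℤ] S) :
    inclS S (conj S x) = conj V (inclS S x) :=
  (conj_map S.subtype x).symm

lemma inclS_mem {V : Type} [AddCommGroup V] {S D : Submodule ℤ V} (h : S ≤ D) (x : ℂ ⊗[ℤ] S) :
    inclS S x ∈ D.baseChange ℂ := by
  induction x using TensorProduct.induction_on with
  | zero => simp
  | tmul a v => exact Submodule.tmul_mem_baseChange_of_mem a (h v.2)
  | add x y hx hy => rw [map_add]; exact add_mem hx hy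

/-- pairing a decomposed element with an element of type `l` -/
lemma pair_sum {X : HodgeLattice} {S : Submodule ℤ X.V} {q : LinearMap.BilinForm ℤ S}
    (ho : IsHodgeFormOn X S q) (y : ℤ →₀ (ℂ ⊗[ℤ] S)) (hy : ∀ i, inclS S (y i) ∈ X.comp i)
    {l : ℤ} {z : ℂ ⊗[ℤ] S} (hz : inclS S z ∈ X.comp l) :
    q.baseChange ℂ (y.sum fun _ v => v) z = q.baseChange ℂ (y (-l)) z := by
  rw [Finsupp.sum, map_sum, LinearMap.sum_apply]
  refine Finset.sum_eq_single (-l) (fun i _ hi => ?_) (fun hi => ?_)
  · exact ho i l (fun h => hi (by omega)) _ _ (hy i) hz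
  · rw [Finsupp.notMem_support_iff.mp hi, map_zero, LinearMap.zero_apply]

end N3aux

open N3aux in
/-- (N3) -/
theorem stN3 : StN3 := by
  intro n N h σ hs a b hab hc hc' k x hx
  obtain ⟨c, hc⟩ := hc
  obtain ⟨c', hc'⟩ := hc'
  have hT : h.trans ≤ N.deg 1 := fun t ht => ht.1
  have hz0 : ∀ (j : ℤ) (z : ℂ ⊗[ℤ] h.trans), j ≠ -2 → j ≠ 0 → j ≠ 2 →
      inclS h.trans z ∈ N.comp j → z = 0 := by
    intro j z h1 h2 h3 hz
    have h4 : inclS h.trans z ∈ comp2 N j := ⟨hz, inclS_mem hT z⟩
    rw [h.comp2_eq_bot j h1 h2 h3, Submodule.mem_bot] at h4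
    exact inclS_injective h.trans (h4.trans (map_zero _).symm)
  have hσ' : inclS h.trans (conj _ σ) ∈ N.comp (-2) := by
    rw [inclS_conj]
    exact N.conj_mem 2 _ hs.mem
  have hline' : ∀ z : ℂ ⊗[ℤ] h.trans, inclS h.trans z ∈ N.comp (-2) →
      ∃ e : ℂ, z = e • conj _ σ := by
    intro z hz
    have h1 : inclS h.trans (conj _ z) ∈ N.comp 2 := by
      rw [inclS_conj]
      exact N.conj_mem (-2) _ hz
    obtain ⟨e, he⟩ := hs.line _ h1
    refine ⟨starRingEnd ℂ e, ?_⟩
    rw [← conj_smul, ← he, conj_conj]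
  have hac : a.baseChange ℂ (conj _ σ) = (starRingEnd ℂ c) • conj _ σ := by
    rw [← conj_map, hc, conj_smul]
  have hbc : b.baseChange ℂ (conj _ σ) = (starRingEnd ℂ c') • conj _ σ := by
    rw [← conj_map, hc', conj_smul]
  have hne := hs.ne_zero
  have hne' : h.qT.baseChange ℂ (conj _ σ) σ ≠ 0 := by
    rw [symm_base hs.symm]
    exact hne
  by_cases h2 : k = 2
  · subst h2
    obtain ⟨e, he⟩ := hs.line x hx
    rw [he, map_smul, hc, map_smul, map_smul]
    exact Submodule.smul_mem _ _ (Submodule.smul_mem _ _ hs.mem)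
  by_cases h3 : k = -2
  · subst h3
    obtain ⟨e, he⟩ := hline' x hx
    rw [he, map_smul, hac, map_smul, map_smul]
    exact Submodule.smul_mem _ _ (Submodule.smul_mem _ _ hσ')
  by_cases h0 : k = 0
  · subst h0
    obtain ⟨y, hy, hsum⟩ := hs.graded (a.baseChange ℂ x)
    have e1 : y (-2) = 0 := by
      have p1 := pair_sum hs.orth y hy hs.mem
      rw [hsum, adj hab, hc', map_smul, hs.orth 0 2 (by norm_num) _ _ hx hs.mem, smul_zero] at p1
      obtain ⟨e, he⟩ := hline' _ (hy (-2))
      rw [he, map_smul, LinearMap.smul_apply, smul_eq_mul] at p1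
      have p2 : e = 0 := (mul_eq_zero.mp p1.symm).resolve_right hne'
      rw [he, p2, zero_smul]
    have e2 : y 2 = 0 := by
      have p1 := pair_sum hs.orth y hy hσ'
      rw [hsum, adj hab, hbc, map_smul, hs.orth 0 (-2) (by norm_num) _ _ hx hσ', smul_zero,
        neg_neg] at p1
      obtain ⟨e, he⟩ := hs.line _ (hy 2)
      rw [he, map_smul, LinearMap.smul_apply, smul_eq_mul] at p1
      have p2 : e = 0 := (mul_eq_zero.mp p1.symm).resolve_right hne
      rw [he, p2, zero_smul]
    have e3 : a.baseChange ℂ x = y 0 := by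
      rw [← hsum, Finsupp.sum]
      refine Finset.sum_eq_single 0 (fun i _ hi => ?_)
        (fun hi => Finsupp.notMem_support_iff.mp hi)
      by_cases i1 : i = -2
      · rw [i1, e1]
      by_cases i2 : i = 2
      · rw [i2, e2]
      exact hz0 i _ i1 hi i2 (hy i)
    rw [e3]
    exact hy 0
  · rw [hz0 k x h3 h0 h2 hx, map_zero, map_zero]
    exact zero_mem _

end Pool.Agent.Lib.MP0cb87d
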