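import Pool.Agent.Lib.MP_0cb87d_ag.HK.Stmts

/-! Modules N5 and N4: automorphisms of the complex numbers, conjugation and powers. -/

set_option autoImplicit false

namespace Pool.Agent.Lib.MP0cb87d

open TensorProduct

namespace N4aux

/-- The action of a ring homomorphism. -/
noncomputable def act (V : Type) [AddCommGroup V] (φ : ℂ →+* ℂ) :
    ℂ ⊗[ℤ] V →ₗ[ℤ] ℂ ⊗[ℤ] V :=
  LinearMap.rTensor V φ.toAddMonoidHom.toIntLinearMap

variable {V W : Type} [AddCommGroup V] [AddCommGroup W] (φ : ℂ →+* ℂ)

lemma act_tmul (z : ℂ) (v : V) : act V φ (z ⊗ₜ[ℤ] v) = (φ z) ⊗ₜ[ℤ] v := rfl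

lemma act_smul (c : ℂ) (x : ℂ ⊗[ℤ] V) : act V φ (c • x) = φ c • act V φ x := by
  induction x using TensorProduct.induction_on with
  | zero => simp
  | tmul z v => simp only [TensorProduct.smul_tmul', act_tmul, smul_eq_mul, map_mul]
  | add x y hx hy => rw [smul_add, map_add, hx, hy, map_add, smul_add]

lemma act_baseChange (f : V →ₗ[ℤ] W) (x : ℂ ⊗[ℤ] V) :
    act W φ (f.baseChange ℂ x) = f.baseChange ℂ (act V φ x) := by
  induction x using TensorProduct.induction_on with
  | zero => simp
  | tmul z v => simp only [LinearMap.baseChange_tmul, act_tmul]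
  | add x y hx hy => rw [map_add, map_add, hx, hy, map_add, map_add]

lemma act_form (b : LinearMap.BilinForm ℤ V) (x y : ℂ ⊗[ℤ] V) :
    b.baseChange ℂ (act V φ x) (act V φ y) = φ (b.baseChange ℂ x y) := by
  induction x using TensorProduct.induction_on with
  | zero => simp
  | add x x' hx hx' => simp only [map_add, LinearMap.add_apply, hx, hx']
  | tmul z v =>
    induction y using TensorProduct.induction_on with
    | zero => simp
    | add y y' hy hy' => simp only [map_add, hy, hy']
    | tmul z' v' =>
      simp only [LinearMap.BilinForm.baseChange_tmul, act_tmul, map_zsmul, map_mul]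

lemma comp_baseChange (ψ : LinearMap.BilinForm ℤ W) (f g : V →ₗ[ℤ] W) (x y : ℂ ⊗[ℤ] V) :
    LinearMap.BilinForm.baseChange ℂ (ψ.compl₁₂ f g) x y =
      ψ.baseChange ℂ (f.baseChange ℂ x) (g.baseChange ℂ y) := by
  induction x using TensorProduct.induction_on with
  | zero => simp
  | add x x' hx hx' => simp only [map_add, LinearMap.add_apply, hx, hx']
  | tmul z v =>
    induction y using TensorProduct.induction_on with
    | zero => simp
    | add y y' hy hy' => simp only [map_add, hy, hy']
    | tmul z' v' =>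
      simp only [LinearMap.BilinForm.baseChange_tmul, LinearMap.baseChange_tmul,
        LinearMap.compl₁₂_apply]

section ring

variable {A : Type} [CommRing A]

lemma act_one : act A φ (1 : ℂ ⊗[ℤ] A) = 1 := by
  rw [Algebra.TensorProduct.one_def, act_tmul, map_one]

lemma act_mul (x y : ℂ ⊗[ℤ] A) : act A φ (x * y) = act A φ x * act A φ y := by
  induction x using TensorProduct.induction_on with
  | zero => simp
  | add x x' hx hx' => rw [add_mul, map_add, map_add, hx, hx', add_mul]
  | tmul z v =>
    induction y using TensorProduct.induction_on with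
    | zero => simp
    | add y y' hy hy' => rw [mul_add, map_add, map_add, hy, hy', mul_add]
    | tmul z' v' =>
      simp only [Algebra.TensorProduct.tmul_mul_tmul, act_tmul, map_mul]

lemma act_pow (x : ℂ ⊗[ℤ] A) (n : ℕ) : act A φ (x ^ n) = act A φ x ^ n := by
  induction n with
  | zero => rw [pow_zero, pow_zero, act_one]
  | succ n ih => rw [pow_succ, pow_succ, act_mul, ih]

end ring

variable {n : ℕ} {N : GradedHodgeLattice} (h : Hyperkahler n N)

lemma e_symm (x : ℂ ⊗[ℤ] N.V) :
    h.e.toLinearMap.baseChange ℂ (h.e.symm.toLinearMap.baseChange ℂ x) = x := by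
  rw [← LinearMap.comp_apply, ← LinearMap.baseChange_comp]
  have : h.e.toLinearMap ∘ₗ h.e.symm.toLinearMap = LinearMap.id := by
    ext y
    simp
  rw [this, LinearMap.baseChange_id, LinearMap.id_apply]

lemma act_hpow (x : ℂ ⊗[ℤ] N.V) : act _ φ (h.pow x) = h.pow (act _ φ x) := by
  unfold Hyperkahler.pow
  rw [act_baseChange, act_pow, act_baseChange]

end N4aux

open N4aux

theorem stN5 : StN5 := by
  refine ⟨?_, ?_, ?_, ?_, ?_, ?_, ?_⟩
  · intro V W _ _ f γ x
    exact act_baseChange (γ : ℂ →+* ℂ) f x
  · intro V _ γ c x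
    exact act_smul (γ : ℂ →+* ℂ) c x
  · intro V _ b γ x y
    exact act_form (γ : ℂ →+* ℂ) b x y
  · intro V W _ _ f x
    exact act_baseChange (starRingEnd ℂ) f x
  · intro V _ c x
    exact act_smul (starRingEnd ℂ) c x
  · intro V _ b x y
    exact act_form (starRingEnd ℂ) b x y
  · intro V W _ _ b f g x y
    exact comp_baseChange b f g x y

theorem stN4 : StN4 := by
  intro n N h
  refine ⟨?_, ?_, ?_, ?_, ?_⟩
  · intro x hx
    refine h.pow_mem _ ?_
    rw [e_symm]
    exact hx
  · intro x γ
    exact act_hpow (γ : ℂ →+* ℂ) h x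
  · intro x
    exact act_hpow (starRingEnd ℂ) h x
  · intro c x
    unfold Hyperkahler.pow
    rw [map_smul, smul_pow, map_smul]
  · intro x hx y hy hxx hyy
    have := h.fujiki (h.e.symm.toLinearMap.baseChange ℂ x) (h.e.symm.toLinearMap.baseChange ℂ y)
      (by rw [e_symm]; exact hx) (by rw [e_symm]; exact hy) (by rw [e_symm]; exact hxx)
      (by rw [e_symm]; exact hyy)
    rw [e_symm, e_symm] at this
    exact this

end Pool.Agent.Lib.MP0cb87d
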