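import Pool.Agent.Lib.MP_0cb87d_ag.HK.Stmts
import Pool.Agent.Lib.MP_0cb87d_ag.F2
import Pool.Agent.Lib.MP_0cb87d_ag.F3

/-! Module N1: the transcendental lattice of a hyperkähler manifold. -/

set_option autoImplicit false

namespace Pool.Agent.Lib.MP0cb87d

open TensorProduct

namespace N1aux

open F2aux (conj_tmul conj_conj conj_smul form_conj form_symm one_tmul_eq_zero)

/-- The inclusion of the complexification of a subgroup is injective. -/
theorem inclS_injective {V : Type} [AddCommGroup V] (S : Submodule ℤ V) :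
    Function.Injective (inclS S) :=
  Module.Flat.lTensor_preserves_injective_linearMap (M := ℂ) S.subtype S.injective_subtype

theorem inclS_tmul {V : Type} [AddCommGroup V] (S : Submodule ℤ V) (a : ℂ) (v : S) :
    inclS S (a ⊗ₜ[ℤ] v) = a ⊗ₜ[ℤ] (v : V) := rfl

theorem inclS_conj {V : Type} [AddCommGroup V] (S : Submodule ℤ V) (x : ℂ ⊗[ℤ] S) :
    inclS S (conj _ x) = conj _ (inclS S x) := by
  induction x using TensorProduct.induction_on with
  | zero => simp
  | tmul a v => rfl
  | add x y hx hy => simp only [map_add, hx, hy]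

theorem conj_mem_baseChange {V : Type} [AddCommGroup V] (S : Submodule ℤ V) (x : ℂ ⊗[ℤ] V)
    (hx : x ∈ S.baseChange ℂ) : conj V x ∈ S.baseChange ℂ := by
  obtain ⟨y, rfl⟩ := hx
  exact ⟨conj _ y, inclS_conj S y⟩

theorem conj_comp2 (N : GradedHodgeLattice) (k : ℤ) (x : ℂ ⊗[ℤ] N.V) (hx : x ∈ comp2 N k) :
    conj N.V x ∈ comp2 N (-k) :=
  ⟨N.conj_mem k x hx.1, conj_mem_baseChange _ x hx.2⟩

/-- The base change of the restriction of a form. -/
theorem restrict_baseChange {V : Type} [AddCommGroup V] (B : LinearMap.BilinForm ℤ V)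
    (S : Submodule ℤ V) (x y : ℂ ⊗[ℤ] S) :
    (B.restrict S).baseChange ℂ x y = B.baseChange ℂ (inclS S x) (inclS S y) := by
  induction x using TensorProduct.induction_on with
  | zero => simp
  | add x x' hx hx' => rw [map_add, map_add, map_add, LinearMap.add_apply, LinearMap.add_apply,
      hx, hx']
  | tmul a v =>
    induction y using TensorProduct.induction_on with
    | zero => simp
    | add y y' hy hy' => rw [map_add, map_add, map_add, hy, hy']
    | tmul b w =>
      rw [inclS_tmul, inclS_tmul, LinearMap.BilinForm.baseChange_tmul,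
        LinearMap.BilinForm.baseChange_tmul]
      rfl

/-- A projection onto the complexification of the part of degree one. -/
theorem exists_proj (N : GradedHodgeLattice) : ∃ π : ℂ ⊗[ℤ] N.V →ₗ[ℂ] ℂ ⊗[ℤ] N.V,
    (∀ x ∈ (N.deg 1).baseChange ℂ, π x = x) ∧
    ∀ i, i ≠ 1 → ∀ x ∈ (N.deg i).baseChange ℂ, π x = 0 := by
  have D : DirectSum.IsInternal fun i => (N.deg i).baseChange ℂ :=
    DirectSum.IsInternal.baseChange (S := ℂ) N.deg N.deg_internal
  let := D.chooseDecomposition
  refine ⟨((N.deg 1).baseChange ℂ).subtype ∘ₗ DirectSum.component ℂ ℤ _ 1 ∘ₗ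
    (DirectSum.decomposeLinearEquiv fun i => (N.deg i).baseChange ℂ).toLinearMap, ?_, ?_⟩
  · intro x hx
    exact DirectSum.decompose_of_mem_same (fun i => (N.deg i).baseChange ℂ) hx
  · intro i hi x hx
    exact DirectSum.decompose_of_mem_ne (fun i => (N.deg i).baseChange ℂ) hx hi

variable {n : ℕ} {N : GradedHodgeLattice}

theorem trans_le (h : Hyperkahler n N) : h.trans ≤ N.deg 1 := fun _ hx => hx.1

theorem inclS_trans_mem (h : Hyperkahler n N) (z : ℂ ⊗[ℤ] h.trans) :
    inclS h.trans z ∈ (N.deg 1).baseChange ℂ :=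
  Submodule.baseChange_mono ℂ (trans_le h) ⟨z, rfl⟩

/-- The form `q` is symmetric on the part of degree one. -/
theorem q_symmC (h : Hyperkahler n N) (x y : ℂ ⊗[ℤ] N.V) (hx : x ∈ (N.deg 1).baseChange ℂ)
    (hy : y ∈ (N.deg 1).baseChange ℂ) : h.q.baseChange ℂ x y = h.q.baseChange ℂ y x := by
  obtain ⟨x, rfl⟩ := hx
  obtain ⟨y, rfl⟩ := hy
  have h1 := restrict_baseChange h.q (N.deg 1) x y
  have h2 := restrict_baseChange h.q (N.deg 1) y x
  have h3 := form_symm (h.q.restrict (N.deg 1)) (fun a b => h.q_symm a a.2 b b.2) x y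
  rw [h1, h2] at h3
  exact h3

/-- The decomposition of the elements of degree one. -/
theorem decomp (h : Hyperkahler n N) (z : ℂ ⊗[ℤ] N.V) (hz : z ∈ (N.deg 1).baseChange ℂ) :
    ∃ a ∈ comp2 N (-2), ∃ b ∈ comp2 N 0, ∃ c ∈ comp2 N 2, z = a + b + c := by
  obtain ⟨π, h1, h2⟩ := exists_proj N
  have key : ∀ x ∈ ⨆ k, N.comp k, π x ∈ comp2 N (-2) ⊔ comp2 N 0 ⊔ comp2 N 2 := by
    intro x hx
    induction hx using Submodule.iSup_induction' with
    | mem k x hx =>
      obtain ⟨y, hy, rfl⟩ := N.comp_graded k x hx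
      have h3 : π (y.sum fun _ v => v) = y 1 := by
        rw [map_finsuppSum, Finsupp.sum, Finset.sum_eq_single 1]
        · exact h1 _ (hy 1).2
        · intro i _ hi
          exact h2 i hi _ (hy i).2
        · intro hi
          rw [Finsupp.notMem_support_iff.1 hi, map_zero]
      rw [h3]
      have h4 : y 1 ∈ comp2 N k := hy 1
      by_cases k1 : k = -2
      · subst k1
        exact Submodule.mem_sup_left (Submodule.mem_sup_left h4)
      by_cases k2 : k = 0
      · subst k2
        exact Submodule.mem_sup_left (Submodule.mem_sup_right h4)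
      by_cases k3 : k = 2
      · subst k3
        exact Submodule.mem_sup_right h4
      rw [h.comp2_eq_bot k k1 k2 k3] at h4
      rw [(Submodule.mem_bot ℂ).1 h4]
      exact Submodule.zero_mem _
    | zero => rw [map_zero]; exact Submodule.zero_mem _
    | add x y _ _ hx hy => rw [map_add]; exact Submodule.add_mem _ hx hy
  have htop := N.internal.submodule_iSup_eq_top
  have h5 := key z (htop ▸ Submodule.mem_top)
  rw [h1 z hz] at h5
  obtain ⟨y, hy, c, hc, e1⟩ := Submodule.mem_sup.1 h5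
  obtain ⟨a, ha, b, hb, e2⟩ := Submodule.mem_sup.1 hy
  exact ⟨a, ha, b, hb, c, hc, by rw [e2, e1]⟩

/-- The products with finitely many elements, as a homomorphism. -/
def prodMap (h : Hyperkahler n N) {m : ℕ} (y : Fin m → N.V) : N.deg 1 →ₗ[ℤ] (Fin m → ℤ) :=
  LinearMap.pi fun i => (h.q.flip (y i)) ∘ₗ (N.deg 1).subtype

theorem exact_prodMap (h : Hyperkahler n N) {m : ℕ} (y : Fin m → N.V)
    (hy : Submodule.span ℤ (Set.range y) = algebraic N.toHodgeLattice ⊓ N.deg 1) :
    Function.Exact (Submodule.inclusion (trans_le h)) (prodMap h y) := by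
  intro x
  constructor
  · intro hx
    refine ⟨⟨x, x.2, ?_⟩, rfl⟩
    intro z hz hz'
    have hz1 : z ∈ algebraic N.toHodgeLattice ⊓ N.deg 1 := ⟨hz, hz'⟩
    rw [← hy] at hz1
    clear hz hz'
    induction hz1 using Submodule.span_induction with
    | mem z hz =>
      obtain ⟨i, rfl⟩ := hz
      exact congrFun hx i
    | zero => simp
    | add a b _ _ ha hb => rw [map_add, ha, hb, add_zero]
    | smul c a _ ha => rw [map_smul, ha, smul_zero]
  · rintro ⟨t, rfl⟩
    funext i
    have h1 : y i ∈ algebraic N.toHodgeLattice ⊓ N.deg 1 := by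
      rw [← hy]
      exact Submodule.subset_span ⟨i, rfl⟩
    exact t.2.2 (y i) h1.1 h1.2

theorem piScalar_prodMap (h : Hyperkahler n N) {m : ℕ} (y : Fin m → N.V)
    (x : ℂ ⊗[ℤ] (N.deg 1)) (i : Fin m) :
    TensorProduct.piScalarRight ℤ ℂ ℂ (Fin m) (LinearMap.lTensor ℂ (prodMap h y) x) i =
      h.q.baseChange ℂ (inclS (N.deg 1) x) (1 ⊗ₜ y i) := by
  induction x using TensorProduct.induction_on with
  | zero => simp
  | add a b ha hb => rw [map_add, map_add, map_add, map_add, Pi.add_apply, ha, hb,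
      LinearMap.add_apply]
  | tmul c v =>
    rw [LinearMap.lTensor_tmul, inclS_tmul, LinearMap.BilinForm.baseChange_tmul]
    simp [prodMap]

/-- The complexification of the transcendental lattice. -/
theorem mem_range (h : Hyperkahler n N) (x : ℂ ⊗[ℤ] N.V) (hx : x ∈ (N.deg 1).baseChange ℂ)
    (hx' : ∀ y ∈ algebraic N.toHodgeLattice, y ∈ N.deg 1 → h.q.baseChange ℂ x (1 ⊗ₜ y) = 0) :
    ∃ t, inclS h.trans t = x := by
  obtain ⟨m, y, hy⟩ := Submodule.fg_iff_exists_fin_generating_family.1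
    (IsNoetherian.noetherian (algebraic N.toHodgeLattice ⊓ N.deg 1))
  have hex := Module.Flat.lTensor_exact ℂ (exact_prodMap h y hy)
  obtain ⟨x, rfl⟩ := hx
  have h1 : LinearMap.lTensor ℂ (prodMap h y) x = 0 := by
    apply (TensorProduct.piScalarRight ℤ ℂ ℂ (Fin m)).injective
    rw [map_zero]
    funext i
    rw [piScalar_prodMap, Pi.zero_apply]
    have h2 : y i ∈ algebraic N.toHodgeLattice ⊓ N.deg 1 := by
      rw [← hy]
      exact Submodule.subset_span ⟨i, rfl⟩
    exact hx' (y i) h2.1 h2.2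
  obtain ⟨t, ht⟩ := (hex x).1 h1
  refine ⟨t, ?_⟩
  rw [← ht]
  change _ = (N.deg 1).subtype.baseChange ℂ
    ((Submodule.inclusion (trans_le h)).baseChange ℂ t)
  rw [← LinearMap.comp_apply, ← LinearMap.baseChange_comp]
  rfl

theorem incl_alg (h : Hyperkahler n N) (t : ℂ ⊗[ℤ] h.trans) (y : N.V)
    (hy : y ∈ algebraic N.toHodgeLattice) (hy' : y ∈ N.deg 1) :
    h.q.baseChange ℂ (inclS h.trans t) (1 ⊗ₜ y) = 0 := by
  induction t using TensorProduct.induction_on with
  | zero => simp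
  | add a b ha hb => rw [map_add, map_add, LinearMap.add_apply, ha, hb, add_zero]
  | tmul c v =>
    rw [inclS_tmul, LinearMap.BilinForm.baseChange_tmul, v.2.2 y hy hy']
    simp

/-- An algebraic class of degree one is of type `0` in the part of degree one. -/
theorem alg_comp2 (y : N.V) (hy : y ∈ algebraic N.toHodgeLattice) (hy' : y ∈ N.deg 1) :
    (1 : ℂ) ⊗ₜ[ℤ] y ∈ comp2 N 0 :=
  ⟨hy, Submodule.tmul_mem_baseChange_of_mem 1 hy'⟩

/-- The decomposition of the elements of the complexified transcendental lattice. -/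
theorem decomp_trans (h : Hyperkahler n N) (z : ℂ ⊗[ℤ] h.trans) :
    ∃ a b c : ℂ ⊗[ℤ] h.trans, inclS h.trans a ∈ comp2 N (-2) ∧ inclS h.trans b ∈ comp2 N 0 ∧
      inclS h.trans c ∈ comp2 N 2 ∧ z = a + b + c := by
  obtain ⟨a, ha, b, hb, c, hc, hz⟩ := decomp h (inclS h.trans z) (inclS_trans_mem h z)
  have ha0 : ∀ y ∈ algebraic N.toHodgeLattice, y ∈ N.deg 1 →
      h.q.baseChange ℂ a (1 ⊗ₜ y) = 0 := fun y hy hy' =>
    h.q_orth (-2) 0 (by norm_num) a ha _ (alg_comp2 y hy hy')
  have hc0 : ∀ y ∈ algebraic N.toHodgeLattice, y ∈ N.deg 1 →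
      h.q.baseChange ℂ c (1 ⊗ₜ y) = 0 := fun y hy hy' =>
    h.q_orth 2 0 (by norm_num) c hc _ (alg_comp2 y hy hy')
  have hb0 : ∀ y ∈ algebraic N.toHodgeLattice, y ∈ N.deg 1 →
      h.q.baseChange ℂ b (1 ⊗ₜ y) = 0 := fun y hy hy' => by
    have h1 := incl_alg h z y hy hy'
    rw [hz, map_add, map_add, LinearMap.add_apply, LinearMap.add_apply, ha0 y hy hy',
      hc0 y hy hy', zero_add, add_zero] at h1
    exact h1
  obtain ⟨a', rfl⟩ := mem_range h a ha.2 ha0
  obtain ⟨b', rfl⟩ := mem_range h b hb.2 hb0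
  obtain ⟨c', rfl⟩ := mem_range h c hc.2 hc0
  refine ⟨a', b', c', ha, hb, hc, inclS_injective _ ?_⟩
  rw [hz, map_add, map_add]

/-- The part of type `2` in degree one is a line. -/
theorem line (h : Hyperkahler n N) {w : ℂ ⊗[ℤ] N.V} (hw : w ∈ comp2 N 2) (hw0 : w ≠ 0)
    {x : ℂ ⊗[ℤ] N.V} (hx : x ∈ comp2 N 2) : ∃ c : ℂ, c • w = x := by
  have h0 : (⟨w, hw⟩ : comp2 N 2) ≠ 0 := by
    intro h
    exact hw0 (congrArg Subtype.val h)
  obtain ⟨c, hc⟩ := (finrank_eq_one_iff_of_nonzero' _ h0).1 h.finrank_comp2 ⟨x, hx⟩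
  exact ⟨c, congrArg Subtype.val hc⟩

/-- A transcendental element orthogonal to the period is zero. -/
theorem eq_zero_of_period (h : Hyperkahler n N) {w : ℂ ⊗[ℤ] N.V} (hw : w ∈ comp2 N 2)
    (hw0 : w ≠ 0) (t : N.V) (ht : t ∈ h.trans)
    (h0 : h.q.baseChange ℂ (1 ⊗ₜ t) w = 0) : t = 0 := by
  have hp : h.q.baseChange ℂ w (conj N.V w) ≠ 0 := by
    intro h0
    have h1 := h.q_pos w hw hw0
    rw [h0] at h1
    exact lt_irrefl _ h1
  have hcw : conj N.V w ∈ comp2 N (-2) := conj_comp2 N 2 w hw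
  have h' : h.q.baseChange ℂ (1 ⊗ₜ t) (conj N.V w) = 0 := by
    have h1 := form_conj h.q ((1 : ℂ) ⊗ₜ[ℤ] t) w
    rw [conj_tmul, map_one, h0, map_zero] at h1
    exact h1
  obtain ⟨a, ha, b, hb, c, hc, hz⟩ := decomp h (1 ⊗ₜ t)
    (Submodule.tmul_mem_baseChange_of_mem 1 ht.1)
  have hc0 : c = 0 := by
    obtain ⟨r, hr⟩ := line h hw hw0 hc
    rw [hz, map_add, map_add, LinearMap.add_apply, LinearMap.add_apply,
      h.q_orth (-2) (-2) (by norm_num) a ha _ hcw, h.q_orth 0 (-2) (by norm_num) b hb _ hcw,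
      zero_add, zero_add, ← hr, map_smul, LinearMap.smul_apply, smul_eq_mul] at h'
    rw [← hr, (mul_eq_zero.1 h').resolve_right hp, zero_smul]
  have ha0 : a = 0 := by
    have hca : conj N.V a ∈ comp2 N 2 := by
      have h1 := conj_comp2 N (-2) a ha
      rwa [neg_neg] at h1
    obtain ⟨r, hr⟩ := line h hw hw0 hca
    have ha1 : a = (starRingEnd ℂ r) • conj N.V w := by
      rw [← conj_smul, hr, conj_conj]
    rw [hz, map_add, map_add, LinearMap.add_apply, LinearMap.add_apply,
      h.q_orth 0 2 (by norm_num) b hb _ hw, h.q_orth 2 2 (by norm_num) c hc _ hw,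
      add_zero, add_zero, ha1, map_smul, LinearMap.smul_apply, smul_eq_mul,
      q_symmC h (conj N.V w) w hcw.2 hw.2] at h0
    rw [ha1, (mul_eq_zero.1 h0).resolve_right hp, zero_smul]
  have hb' : (1 : ℂ) ⊗ₜ[ℤ] t ∈ comp2 N 0 := by
    rw [hz, ha0, hc0, zero_add, add_zero]
    exact hb
  have halg : t ∈ algebraic N.toHodgeLattice := hb'.1
  apply one_tmul_eq_zero N.toHodgeLattice
  by_contra hne
  have hq : ∀ y : N.V, h.q.baseChange ℂ (1 ⊗ₜ t) (1 ⊗ₜ y) = (h.q t y : ℂ) := by
    intro y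
    rw [LinearMap.BilinForm.baseChange_tmul]
    simp
  have h1 := h.q_index _ hb' (fun y hy hy' => by rw [hq, ht.2 y hy hy', Int.cast_zero]) hne
  rw [conj_tmul, map_one, hq, ht.2 t halg ht.1, Int.cast_zero, Complex.zero_re] at h1
  exact lt_irrefl _ h1

/-- The form of `t0` with an element of the complexification. -/
theorem form_dual {T : Type} [AddCommGroup T] (B : LinearMap.BilinForm ℤ T) (t0 : T)
    (g : T →ₗ[ℤ] ℤ) (d : ℤ) (h : ∀ t : T, B t0 t = d * g t) (x : ℂ ⊗[ℤ] T) :
    B.baseChange ℂ (1 ⊗ₜ t0) x = (d : ℂ) * TensorProduct.rid ℤ ℂ (g.baseChange ℂ x) := by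
  induction x using TensorProduct.induction_on with
  | zero => simp
  | add x y hx hy => rw [map_add, hx, hy, map_add, map_add, mul_add]
  | tmul c t =>
    rw [LinearMap.baseChange_tmul, TensorProduct.rid_tmul, LinearMap.BilinForm.baseChange_tmul,
      h t]
    simp [mul_comm, mul_left_comm]

/-- A functional orthogonal to a lattice is zero. -/
theorem form_zero {T : Type} [AddCommGroup T] (B : LinearMap.BilinForm ℤ T) (t0 : T)
    (h : ∀ t : T, B t0 t = 0) (x : ℂ ⊗[ℤ] T) : B.baseChange ℂ (1 ⊗ₜ t0) x = 0 := by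
  have h1 := form_dual B t0 0 0 (fun t => by rw [h t]; simp) x
  rw [h1]
  simp

end N1aux

open N1aux in
theorem stN1 : StN1 := by
  intro n N h
  have : Module.Finite ℤ h.trans := inferInstance
  have : Module.Free ℤ h.trans := inferInstance
  have h2 : comp2 N 2 ≠ ⊥ := by
    intro h0
    have h3 := h.finrank_comp2
    rw [h0, finrank_bot] at h3
    exact zero_ne_one h3
  obtain ⟨w, hw, hw0⟩ := Submodule.exists_mem_ne_zero_of_ne_bot h2
  obtain ⟨σ, hσ⟩ := mem_range h w hw.2
    (fun y hy hy' => h.q_orth 2 0 (by norm_num) w hw _ (alg_comp2 y hy hy'))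
  have hσ0 : σ ≠ 0 := by
    intro h0
    rw [h0, map_zero] at hσ
    exact hw0 hσ.symm
  have hpos : 0 < (h.qT.baseChange ℂ σ (conj _ σ)).re := by
    have h3 := h.q_pos w hw hw0
    rw [← hσ, ← inclS_conj] at h3
    rw [Hyperkahler.qT, restrict_baseChange]
    exact h3
  have hper : ∀ t : h.trans, h.qT.baseChange ℂ (1 ⊗ₜ t) σ = 0 → t = 0 := by
    intro t ht
    apply Subtype.ext
    refine eq_zero_of_period h hw hw0 t t.2 ?_
    rw [Hyperkahler.qT, restrict_baseChange, inclS_tmul, hσ] at ht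
    exact ht
  have hnd : ∀ t : h.trans, (∀ t', h.qT t t' = 0) → t = 0 := by
    intro t ht
    exact hper t (form_zero h.qT t ht σ)
  have hirr : ∀ (P : Type) [AddCommGroup P] [Module.Free ℤ P] [Module.Finite ℤ P]
      (f : h.trans →ₗ[ℤ] P), f.baseChange ℂ σ = 0 → f = 0 := by
    intro P _ _ _ f hf
    have key : ∀ p : P →ₗ[ℤ] ℤ, p ∘ₗ f = 0 := by
      intro p
      obtain ⟨d, t0, hd, ht⟩ := F3aux.exists_dual h.qT hnd (p ∘ₗ f)
      have h3 := form_dual h.qT t0 (p ∘ₗ f) d ht σ
      have h4 : (p ∘ₗ f).baseChange ℂ σ = 0 := by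
        rw [LinearMap.baseChange_comp, LinearMap.comp_apply, hf, map_zero]
      rw [h4, map_zero, mul_zero] at h3
      have h5 := hper t0 h3
      apply LinearMap.ext
      intro t
      have h6 := ht t
      rw [h5] at h6
      simp only [map_zero, LinearMap.zero_apply] at h6
      rw [LinearMap.zero_apply]
      exact (mul_eq_zero.1 h6.symm).resolve_left hd
    apply LinearMap.ext
    intro t
    let b := Module.Free.chooseBasis ℤ P
    apply b.ext_elem
    intro i
    have h7 := LinearMap.congr_fun (key (b.coord i)) t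
    rw [LinearMap.comp_apply, LinearMap.zero_apply, Module.Basis.coord_apply] at h7
    rw [h7]
    simp
  have hline : ∀ x ∈ comp2 N 2, ∃ c : ℂ, x = c • inclS h.trans σ := by
    intro x hx
    obtain ⟨c, hc⟩ := line h hw hw0 hx
    exact ⟨c, by rw [hσ, hc]⟩
  refine ⟨σ, ⟨?_, ?_, hσ0, ?_, ?_, ?_, ?_, hnd, ?_⟩, hpos, hirr, hper, hline⟩
  · intro z
    obtain ⟨a, b, c, ha, hb, hc, hz⟩ := decomp_trans h z
    refine ⟨Finsupp.single (-2) a + Finsupp.single 0 b + Finsupp.single 2 c, ?_, ?_⟩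
    · intro i
      rw [Finsupp.add_apply, Finsupp.add_apply, map_add, map_add]
      refine Submodule.add_mem _ (Submodule.add_mem _ ?_ ?_) ?_
      · rw [Finsupp.single_apply]
        split_ifs with hi
        · subst hi; exact ha.1
        · rw [map_zero]; exact Submodule.zero_mem _
      · rw [Finsupp.single_apply]
        split_ifs with hi
        · subst hi; exact hb.1
        · rw [map_zero]; exact Submodule.zero_mem _
      · rw [Finsupp.single_apply]
        split_ifs with hi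
        · subst hi; exact hc.1
        · rw [map_zero]; exact Submodule.zero_mem _
    · rw [Finsupp.sum_add_index' (fun _ => rfl) (fun _ _ _ => rfl),
        Finsupp.sum_add_index' (fun _ => rfl) (fun _ _ _ => rfl),
        Finsupp.sum_single_index rfl, Finsupp.sum_single_index rfl, Finsupp.sum_single_index rfl,
        hz]
  · rw [hσ]; exact hw.1
  · intro z hz
    obtain ⟨c, hc⟩ := hline (inclS h.trans z) ⟨hz, inclS_trans_mem h z⟩
    refine ⟨c, inclS_injective _ ?_⟩
    rw [hc, map_smul]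
  · intro f _ hf
    exact hirr h.trans f hf
  · intro x y
    exact h.q_symm x x.2.1 y y.2.1
  · intro k l hkl x y hx hy
    rw [Hyperkahler.qT, restrict_baseChange]
    exact h.q_orth k l hkl _ ⟨hx, inclS_trans_mem h x⟩ _ ⟨hy, inclS_trans_mem h y⟩
  · intro h0
    rw [h0, Complex.zero_re] at hpos
    exact lt_irrefl _ hpos

end Pool.Agent.Lib.MP0cb87d
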