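import Pool.Agent.Lib.MP_0cb87d_ag.HK.Stmts
import Pool.Agent.Lib.MP_0cb87d_ag.HK.N1

/-! Module N6: the arithmetic identity. -/

set_option autoImplicit false

namespace Pool.Agent.Lib.MP0cb87d

open TensorProduct

namespace N6aux

open F2aux (conj_conj conj_smul form_conj form_symm)
open N1aux (inclS_injective inclS_conj inclS_trans_mem restrict_baseChange conj_comp2 q_symmC)

variable {n : ℕ} {N : GradedHodgeLattice}

/-- Products of powers of the conjugates of a class of type `2` of degree one. -/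
theorem form_pow (h4 : StN4) (h5 : StN5) (h : Hyperkahler n N) {w : ℂ ⊗[ℤ] N.V}
    (hw : w ∈ comp2 N 2) (γ : ℂ ≃+* ℂ) (hγ : gact _ γ w ∈ (N.deg 1).baseChange ℂ) :
    N.form.baseChange ℂ (h.pow w) (gact _ γ (h.pow w)) =
      h.c * h.q.baseChange ℂ w (gact _ γ w) ^ n := by
  obtain ⟨-, k2, -, -, k5⟩ := h4 n N h
  obtain ⟨-, -, l3, -⟩ := h5
  have h0 : h.q.baseChange ℂ w w = 0 := h.q_orth 2 2 (by norm_num) w hw w hw
  rw [k2]
  refine k5 w hw.2 _ hγ h0 ?_
  rw [l3, h0, map_zero]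

theorem form_pow_conj (h4 : StN4) (h : Hyperkahler n N) {w : ℂ ⊗[ℤ] N.V}
    (hw : w ∈ comp2 N 2) :
    N.form.baseChange ℂ (h.pow w) (conj _ (h.pow w)) =
      h.c * h.q.baseChange ℂ w (conj _ w) ^ n := by
  obtain ⟨-, -, k3, -, k5⟩ := h4 n N h
  have h0 : h.q.baseChange ℂ w w = 0 := h.q_orth 2 2 (by norm_num) w hw w hw
  have hc := conj_comp2 N 2 w hw
  rw [k3]
  exact k5 w hw.2 _ hc.2 h0 (h.q_orth (-2) (-2) (by norm_num) _ hc _ hc)

/-- The hermitian square of a class of type `2` is real. -/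
theorem q_real (h : Hyperkahler n N) {w : ℂ ⊗[ℤ] N.V} (hw : w ∈ comp2 N 2) :
    starRingEnd ℂ (h.q.baseChange ℂ w (conj _ w)) = h.q.baseChange ℂ w (conj _ w) := by
  have hc := conj_comp2 N 2 w hw
  rw [← form_conj, conj_conj, q_symmC h _ _ hc.2 hw.2]

theorem q_eq_re (h : Hyperkahler n N) {w : ℂ ⊗[ℤ] N.V} (hw : w ∈ comp2 N 2) :
    h.q.baseChange ℂ w (conj _ w) = ((h.q.baseChange ℂ w (conj _ w)).re : ℂ) :=
  (Complex.conj_eq_iff_re.1 (q_real h hw)).symm

theorem q_ne (h : Hyperkahler n N) {w : ℂ ⊗[ℤ] N.V} (hw : w ∈ comp2 N 2) (hw0 : w ≠ 0) :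
    h.q.baseChange ℂ w (conj _ w) ≠ 0 := by
  intro h0
  have h1 := h.q_pos w hw hw0
  rw [h0] at h1
  exact lt_irrefl _ h1

theorem pow_ne (h4 : StN4) (h : Hyperkahler n N) {w : ℂ ⊗[ℤ] N.V}
    (hw : w ∈ comp2 N 2) (hw0 : w ≠ 0) : h.pow w ≠ 0 := by
  intro h0
  have h1 := form_pow_conj h4 h hw
  rw [h0, map_zero, LinearMap.zero_apply] at h1
  have h2 : (h.c : ℂ) ≠ 0 := by exact_mod_cast h.c_pos.ne'
  exact mul_ne_zero h2 (pow_ne_zero n (q_ne h hw hw0)) h1.symm

/-- The part of type `2 n` is the line of the power. -/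
theorem line (h4 : StN4) (h : Hyperkahler n N) {w : ℂ ⊗[ℤ] N.V}
    (hw : w ∈ comp2 N 2) (hw0 : w ≠ 0) {x : ℂ ⊗[ℤ] N.V} (hx : x ∈ N.comp (2 * n)) :
    ∃ c : ℂ, x = c • h.pow w := by
  have hp : h.pow w ∈ N.comp (2 * n) := (h4 n N h).1 w hw
  have h0 : (⟨h.pow w, hp⟩ : N.comp (2 * n)) ≠ 0 := by
    intro h1
    exact pow_ne h4 h hw hw0 (congrArg Subtype.val h1)
  obtain ⟨c, hc⟩ := (finrank_eq_one_iff_of_nonzero' _ h0).1 h.finrank_comp ⟨x, hx⟩
  exact ⟨c, (congrArg Subtype.val hc).symm⟩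

/-- The norm of a multiple of the power. -/
theorem form_smul_pow (h4 : StN4) (h : Hyperkahler n N) {w : ℂ ⊗[ℤ] N.V}
    (hw : w ∈ comp2 N 2) (c : ℂ) :
    N.form.baseChange ℂ (c • h.pow w) (conj _ (c • h.pow w)) =
      (c * starRingEnd ℂ c) * (h.c * h.q.baseChange ℂ w (conj _ w) ^ n) := by
  rw [conj_smul, map_smul, map_smul, LinearMap.smul_apply, smul_eq_mul, smul_eq_mul,
    form_pow_conj h4 h hw]
  ring

/-- Positivity on the part of type `2 n`. -/
theorem form_pos (h4 : StN4) (h : Hyperkahler n N) {w : ℂ ⊗[ℤ] N.V}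
    (hw : w ∈ comp2 N 2) (hw0 : w ≠ 0) {x : ℂ ⊗[ℤ] N.V} (hx : x ∈ N.comp (2 * n))
    (hx0 : x ≠ 0) : 0 < (N.form.baseChange ℂ x (conj _ x)).re := by
  obtain ⟨c, rfl⟩ := line h4 h hw hw0 hx
  have hc : c ≠ 0 := by
    rintro rfl
    exact hx0 (zero_smul _ _)
  rw [form_smul_pow h4 h hw c, q_eq_re h hw, Complex.mul_conj]
  have h1 : ((Complex.normSq c : ℂ) * ((h.c : ℂ) *
      ((h.q.baseChange ℂ w (conj _ w)).re : ℂ) ^ n)) =
      ((Complex.normSq c * ((h.c : ℝ) * (h.q.baseChange ℂ w (conj _ w)).re ^ n) : ℝ) : ℂ) := by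
    push_cast
    ring
  rw [h1, Complex.ofReal_re]
  have h2 : (0 : ℝ) < h.c := by exact_mod_cast h.c_pos
  exact mul_pos (Complex.normSq_pos.2 hc) (mul_pos h2 (pow_pos (h.q_pos w hw hw0) n))

/-- The base change of a form composed with maps. -/
theorem sub_form {S V W : Type} [AddCommGroup S] [AddCommGroup V] [AddCommGroup W]
    (A : LinearMap.BilinForm ℤ V) (B : LinearMap.BilinForm ℤ W) (g : S →ₗ[ℤ] V)
    (i : S →ₗ[ℤ] W) (m : ℤ) (x y : ℂ ⊗[ℤ] S) :
    LinearMap.BilinForm.baseChange ℂ (A.compl₁₂ g g - m • B.compl₁₂ i i) x y =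
      A.baseChange ℂ (g.baseChange ℂ x) (g.baseChange ℂ y) -
        (m : ℂ) * B.baseChange ℂ (i.baseChange ℂ x) (i.baseChange ℂ y) := by
  induction x using TensorProduct.induction_on with
  | zero => simp
  | add x x' hx hx' =>
    simp only [map_add, LinearMap.add_apply, hx, hx']
    ring
  | tmul a v =>
    induction y using TensorProduct.induction_on with
    | zero => simp
    | add y y' hy hy' =>
      simp only [map_add, hy, hy']
      ring
    | tmul b w =>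
      rw [LinearMap.BilinForm.baseChange_tmul, LinearMap.baseChange_tmul,
        LinearMap.baseChange_tmul, LinearMap.baseChange_tmul, LinearMap.baseChange_tmul,
        LinearMap.BilinForm.baseChange_tmul, LinearMap.BilinForm.baseChange_tmul]
      simp only [LinearMap.sub_apply, LinearMap.smul_apply, LinearMap.compl₁₂_apply,
        zsmul_eq_mul, smul_eq_mul, Int.cast_sub, Int.cast_mul]
      ring

end N6aux

open N6aux N1aux in
open F2aux (conj_conj conj_smul form_conj form_symm) in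
theorem stN6 (hK3 : StK3) (hL1 : StL1) (hL4 : StL4) (hL5 : StL5) (hN1 : StN1) (hN3 : StN3)
    (hN4 : StN4) (hN5 : StN5) : StN6 := by
  intro C X Y n hn hX hY hXY σ hσ f hf hinj
  have hN5' := hN5
  obtain ⟨a1, a2, a3, a4, a5, a6, a7⟩ := hN5
  -- the classes of type 2
  obtain ⟨sX, hsX⟩ : ∃ s, s = inclS hX.trans σ := ⟨_, rfl⟩
  obtain ⟨sY, hsY⟩ : ∃ s, s = inclS hY.trans (f.baseChange ℂ σ) := ⟨_, rfl⟩
  have hsX2 : sX ∈ comp2 (C.H X) 2 := by
    rw [hsX]
    exact ⟨hσ.mem, inclS_trans_mem hX σ⟩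
  have hsX0 : sX ≠ 0 := by
    intro h0
    rw [hsX] at h0
    exact hσ.ne (inclS_injective _ (by rw [h0, map_zero]))
  have hf' : ∀ k (x : ℂ ⊗[ℤ] hX.trans), inclS hX.trans x ∈ (C.H X).comp k →
      inclS hY.trans (f.baseChange ℂ x) ∈ comp2 (C.H Y) k := by
    intro k x hx
    have h1 := hf k x hx
    rw [LinearMap.baseChange_comp, LinearMap.comp_apply] at h1
    exact ⟨h1, inclS_trans_mem hY _⟩
  have hsY2 : sY ∈ comp2 (C.H Y) 2 := by
    rw [hsY]
    exact hf' 2 σ hσ.mem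
  have hfinj : Function.Injective (f.baseChange ℂ) :=
    Module.Flat.lTensor_preserves_injective_linearMap (M := ℂ) f hinj
  have hsY0 : sY ≠ 0 := by
    intro h0
    rw [hsY] at h0
    have h1 : f.baseChange ℂ σ = 0 := inclS_injective _ (by rw [h0, map_zero])
    exact hσ.ne (hfinj (by rw [h1, map_zero]))
  have hqX : ∀ x y, hX.qT.baseChange ℂ x y =
      hX.q.baseChange ℂ (inclS hX.trans x) (inclS hX.trans y) :=
    fun x y => restrict_baseChange hX.q hX.trans x y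
  have hqY : ∀ x y, hY.qT.baseChange ℂ x y =
      hY.q.baseChange ℂ (inclS hY.trans x) (inclS hY.trans y) :=
    fun x y => restrict_baseChange hY.q hY.trans x y
  -- the form b
  obtain ⟨⟨d, f1, c, hd, hf1, hf1σ, hdb, hdbσ⟩, -⟩ := hL1 (C.H X).toHodgeLattice hX.trans hX.qT 2 σ
    hσ (hY.qT.compl₁₂ f f) (by
      intro k l hkl x y hx hy
      rw [a7, hqY]
      exact hY.q_orth k l hkl _ (hf' k x hx) _ (hf' l y hy))
  have hdC : (d : ℂ) ≠ 0 := by exact_mod_cast hd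
  obtain ⟨u, hu⟩ : ∃ u : ℂ, u = c / d := ⟨_, rfl⟩
  have hdu : (d : ℂ) * u = c := by rw [hu]; field_simp
  have hbz : ∀ z : ℂ ⊗[ℤ] hX.trans, hY.qT.baseChange ℂ (f.baseChange ℂ σ) (f.baseChange ℂ z) =
      u * hX.qT.baseChange ℂ σ z := by
    intro z
    have h1 : ∀ x y : ℂ ⊗[ℤ] hX.trans,
        (d : ℂ) * hY.qT.baseChange ℂ (f.baseChange ℂ x) (f.baseChange ℂ y) =
          hX.qT.baseChange ℂ (f1.baseChange ℂ x) y := by
      intro x y
      have h2 := sub_form hX.qT hY.qT f1 f 1 x y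
      induction x using TensorProduct.induction_on with
      | zero => simp
      | add x x' hx hx' =>
        have e1 := hx (sub_form hX.qT hY.qT f1 f 1 x y)
        have e2 := hx' (sub_form hX.qT hY.qT f1 f 1 x' y)
        simp only [map_add, LinearMap.add_apply, mul_add, e1, e2]
      | tmul a v =>
        clear h2
        induction y using TensorProduct.induction_on with
        | zero => simp
        | add y y' hy hy' => simp only [map_add, mul_add, hy, hy']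
        | tmul b w =>
          rw [LinearMap.baseChange_tmul, LinearMap.baseChange_tmul, LinearMap.baseChange_tmul,
            LinearMap.BilinForm.baseChange_tmul, LinearMap.BilinForm.baseChange_tmul, ← hdb,
            LinearMap.compl₁₂_apply]
          simp only [zsmul_eq_mul, Int.cast_mul]
          ring
    have h3 := h1 σ z
    rw [hf1σ, map_smul, LinearMap.smul_apply, smul_eq_mul, ← hdu, mul_assoc] at h3
    exact mul_left_cancel₀ hdC h3
  have humem : u ∈ multFieldS (C.H X).toHodgeLattice hX.trans σ := by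
    refine ⟨d, hd, f1, hf1, ?_⟩
    rw [hdu]
    exact hf1σ
  have hQ0 : hX.q.baseChange ℂ sX (conj _ sX) ≠ 0 := q_ne hX hsX2 hsX0
  have hYX : hY.q.baseChange ℂ sY (conj _ sY) = u * hX.q.baseChange ℂ sX (conj _ sX) := by
    have h1 := hbz (conj _ σ)
    rw [hqY, hqX, ← a4, inclS_conj, inclS_conj, ← hsX, ← hsY] at h1
    exact h1
  have hureal : starRingEnd ℂ u = u := by
    have h1 := q_real hY hsY2
    rw [hYX, map_mul, q_real hX hsX2] at h1
    exact mul_right_cancel₀ hQ0 h1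
  -- the irreducible Hodge structures of top type
  have htop : ∀ k, 2 * (n : ℤ) < k → (C.H X).comp k = ⊥ := hX.comp_eq_bot
  obtain ⟨S, ω, hω, hlineS, -⟩ := hL5 (C.H X).toHodgeLattice (2 * n) (by positivity) htop
    hX.finrank_comp (fun x hx hx0 => form_pos hN4 hX hsX2 hsX0 hx hx0)
  have hω0 : inclS S ω ≠ 0 := by
    intro h0
    exact hω.ne (inclS_injective _ (by rw [h0, map_zero]))
  obtain ⟨m, g, hm, hg, hgω⟩ : ∃ (m : ℕ) (g : S →ₗ[ℤ] (C.H Y).V), 0 < m ∧
      IsHodgeFrom (C.H X).toHodgeLattice S (C.H Y).toHodgeLattice g ∧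
      (C.H Y).form.baseChange ℂ (g.baseChange ℂ ω) (conj _ (g.baseChange ℂ ω)) =
        (m : ℂ) ^ 2 * (C.H X).form.baseChange ℂ (inclS S ω) (conj _ (inclS S ω)) :=
    hL4 C.toEven X Y hXY S (2 * n) ω hω hlineS
      (form_pos hN4 hX hsX2 hsX0 hω.mem hω0) hY.finrank_comp
      (fun y hy hy0 => form_pos hN4 hY hsY2 hsY0 hy hy0)
  obtain ⟨c0, hc0⟩ := line hN4 hX hsX2 hsX0 hω.mem
  have hc00 : c0 ≠ 0 := by
    rintro rfl
    rw [zero_smul] at hc0
    exact hω0 hc0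
  obtain ⟨y, hy⟩ := line hN4 hY hsY2 hsY0 (hg (2 * n) ω hω.mem)
  have hy' : g.baseChange ℂ ω = y • hY.pow sY := hy
  obtain ⟨x, hx⟩ : ∃ x : ℂ, y = c0 * x := ⟨y / c0, by field_simp⟩
  have hcX : (hX.c : ℂ) ≠ 0 := by exact_mod_cast hX.c_pos.ne'
  have hcY : (hY.c : ℂ) ≠ 0 := by exact_mod_cast hY.c_pos.ne'
  have hmC : (m : ℂ) ≠ 0 := by exact_mod_cast hm.ne'
  have hsc0 : starRingEnd ℂ c0 ≠ 0 := by
    rw [Ne, map_eq_zero]
    exact hc00
  have hmain : (hY.c : ℂ) * (x * starRingEnd ℂ x) * u ^ n = (m : ℂ) ^ 2 * hX.c := by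
    have h1 : (C.H Y).form.baseChange ℂ (y • hY.pow sY) (conj _ (y • hY.pow sY)) =
        (m : ℂ) ^ 2 * (C.H X).form.baseChange ℂ (c0 • hX.pow sX) (conj _ (c0 • hX.pow sX)) := by
      rw [← hy', ← hc0]
      exact hgω
    rw [form_smul_pow hN4 hY hsY2, form_smul_pow hN4 hX hsX2, hYX, hx, map_mul, mul_pow] at h1
    have h2 : (c0 * starRingEnd ℂ c0 * hX.q.baseChange ℂ sX (conj _ sX) ^ n) *
        ((hY.c : ℂ) * (x * starRingEnd ℂ x) * u ^ n) =
        (c0 * starRingEnd ℂ c0 * hX.q.baseChange ℂ sX (conj _ sX) ^ n) *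
          ((m : ℂ) ^ 2 * hX.c) := by
      linear_combination h1
    exact mul_left_cancel₀ (mul_ne_zero (mul_ne_zero hc00 hsc0) (pow_ne_zero n hQ0)) h2
  have hrhs : (m : ℂ) ^ 2 * hX.c ≠ 0 := mul_ne_zero (pow_ne_zero 2 hmC) hcX
  have hx0 : x ≠ 0 := by
    rintro rfl
    rw [zero_mul, mul_zero, zero_mul] at hmain
    exact hrhs hmain.symm
  have hu0 : u ^ n ≠ 0 := by
    intro h0
    rw [h0, mul_zero] at hmain
    exact hrhs hmain.symm
  -- the form of `Y` pulled back is a multiple of the form of `X`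
  have hβ0 := (hL1 (C.H X).toHodgeLattice S ((C.H X).form.restrict S) (2 * n) ω hω
    ((C.H Y).form.compl₁₂ g g - ((m : ℤ) ^ 2) • (C.H X).form.compl₁₂ S.subtype S.subtype) (by
      intro k l hkl x y hx hy
      rw [sub_form, (C.H Y).orth k l hkl _ (hg k x hx) _ (hg l y hy)]
      have h1 : (C.H X).form.baseChange ℂ (S.subtype.baseChange ℂ x)
          (S.subtype.baseChange ℂ y) = 0 := (C.H X).orth k l hkl _ hx _ hy
      rw [h1, mul_zero, sub_zero])).2 (by
      rw [sub_form]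
      have h1 : S.subtype.baseChange ℂ (conj _ ω) = conj _ (S.subtype.baseChange ℂ ω) :=
        inclS_conj S ω
      have h2 : (C.H Y).form.baseChange ℂ (g.baseChange ℂ ω) (conj _ (g.baseChange ℂ ω)) =
        (m : ℂ) ^ 2 * (C.H X).form.baseChange ℂ (S.subtype.baseChange ℂ ω)
          (conj _ (S.subtype.baseChange ℂ ω)) := hgω
      rw [← a4, h1, h2]
      push_cast
      ring)
  have hgam : ∀ z : ℂ ⊗[ℤ] S, (C.H Y).form.baseChange ℂ (g.baseChange ℂ ω) (g.baseChange ℂ z) =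
      (m : ℂ) ^ 2 * (C.H X).form.baseChange ℂ (inclS S ω) (inclS S z) := by
    intro z
    have h1 := sub_form (C.H Y).form (C.H X).form g S.subtype ((m : ℤ) ^ 2) ω z
    have h2 : LinearMap.BilinForm.baseChange ℂ
      ((C.H Y).form.compl₁₂ g g - ((m : ℤ) ^ 2) • (C.H X).form.compl₁₂ S.subtype S.subtype) =
        0 := by
      rw [hβ0]
      ext
      simp
    rw [h2, LinearMap.zero_apply, LinearMap.zero_apply] at h1
    have h3 := sub_eq_zero.1 h1.symm
    rw [h3]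
    push_cast
    rfl
  -- the automorphisms of the complex numbers
  have hK : ∀ γ : ℂ ≃+* ℂ, starRingEnd ℂ x * hX.qT.baseChange ℂ σ (gact _ γ σ) =
      γ x * hX.qT.baseChange ℂ σ (gact _ γ σ) := by
    intro γ
    have e1 := hgam (gact _ γ ω)
    have e2 : inclS S (gact _ γ ω) = gact _ γ (inclS S ω) := (a1 _ _ S.subtype γ ω).symm
    have e3 : inclS hX.trans (gact _ γ σ) = gact _ γ sX := by
      rw [hsX]
      exact (a1 _ _ hX.trans.subtype γ σ).symm
    have e4 : inclS hY.trans (f.baseChange ℂ (gact _ γ σ)) = gact _ γ sY := by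
      rw [hsY, ← a1]
      exact (a1 _ _ hY.trans.subtype γ _).symm
    have hγX : gact _ γ sX ∈ ((C.H X).deg 1).baseChange ℂ := by
      rw [← e3]
      exact inclS_trans_mem hX _
    have hγY : gact _ γ sY ∈ ((C.H Y).deg 1).baseChange ℂ := by
      rw [← e4]
      exact inclS_trans_mem hY _
    have e5 : hY.q.baseChange ℂ sY (gact _ γ sY) = u * hX.q.baseChange ℂ sX (gact _ γ sX) := by
      have h1 := hbz (gact _ γ σ)
      rw [hqY, hqX, e3, e4, ← hsX, ← hsY] at h1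
      exact h1
    rw [e2, ← a1, hy', hc0, a2, a2, map_smul, map_smul, map_smul, map_smul,
      LinearMap.smul_apply, LinearMap.smul_apply, form_pow hN4 hN5' hY hsY2 γ hγY,
      form_pow hN4 hN5' hX hsX2 γ hγX, e5, hx, map_mul, mul_pow] at e1
    simp only [smul_eq_mul] at e1
    rw [hqX, e3, ← hsX]
    obtain ⟨Q, hQ⟩ : ∃ Q, Q = hX.q.baseChange ℂ sX (gact _ γ sX) := ⟨_, rfl⟩
    rw [← hQ] at e1 ⊢
    by_cases hQ1 : Q = 0
    · rw [hQ1, mul_zero, mul_zero]
    have hγc0 : γ c0 ≠ 0 := by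
      rw [Ne, map_eq_zero_iff γ γ.injective]
      exact hc00
    have e6 : (c0 * γ c0 * (hY.c : ℂ) * u ^ n * x * Q ^ n) * γ x =
        (c0 * γ c0 * (hY.c : ℂ) * u ^ n * x * Q ^ n) * starRingEnd ℂ x := by
      linear_combination e1 - (c0 * γ c0 * Q ^ n) * hmain
    have e7 := mul_left_cancel₀ (mul_ne_zero (mul_ne_zero (mul_ne_zero (mul_ne_zero
      (mul_ne_zero hc00 hγc0) hcY) hu0) hx0) (pow_ne_zero n hQ1)) e6
    rw [e7]
  -- conclusion
  obtain ⟨σ', hσ', -, -, hper, -⟩ := hN1 n (C.H X) hX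
  obtain ⟨r, hr⟩ := hσ'.line σ hσ.mem
  have hr0 : r ≠ 0 := by
    rintro rfl
    exact hσ.ne (by rw [hr, zero_smul])
  obtain ⟨e, a, b, he, hab, haσ, hbσ⟩ := hK3 hX.trans hX.qT hσ.symm hσ.nondeg σ (by
    intro t ht
    rw [hr, map_smul, smul_eq_mul] at ht
    exact hper t ((mul_eq_zero.1 ht).resolve_left hr0)) x hK
  have haH := hN3 n (C.H X) hX σ hσ a b hab ⟨_, haσ⟩ ⟨_, hbσ⟩
  refine ⟨u, x, m, hm, humem, ⟨e, he, a, haH, haσ⟩, hureal, ?_, hmain⟩
  have h1 := hbz (conj _ σ)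
  rw [← a4] at h1
  exact h1

end Pool.Agent.Lib.MP0cb87d
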