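import Pool.Agent.Lib.MP_0cb87d_ag.HK.Stmts

/-! Final assembly for hyperkähler manifolds. -/

namespace Pool.Agent.Lib.MP0cb87d

open TensorProduct

namespace N7aux

lemma restrict_baseChange (h7 : StN5) {V : Type} [AddCommGroup V] (S : Submodule ℤ V)
    (q : LinearMap.BilinForm ℤ V) (x y : ℂ ⊗[ℤ] S) :
    (q.restrict S).baseChange ℂ x y = q.baseChange ℂ (inclS S x) (inclS S y) := by
  have h := h7.2.2.2.2.2.2 S V q S.subtype S.subtype x y
  have e : q.compl₁₂ S.subtype S.subtype = q.restrict S := by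
    ext a b; rfl
  rw [e] at h
  exact h

lemma mem_degC {V : Type} [AddCommGroup V] {S D : Submodule ℤ V} (hSD : S ≤ D)
    (x : ℂ ⊗[ℤ] S) : inclS S x ∈ D.baseChange ℂ := by
  induction x using TensorProduct.induction_on with
  | zero => simp
  | tmul z v =>
    have : inclS S (z ⊗ₜ[ℤ] v) = z ⊗ₜ[ℤ] (v : V) := rfl
    rw [this]
    exact Submodule.tmul_mem_baseChange_of_mem z (hSD v.2)
  | add x y hx hy => rw [map_add]; exact add_mem hx hy

end N7aux

open N7aux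

theorem stN7 (hM1 : StM1) (hN1 : StN1) (hN2 : StN2) (hN6 : StN6) (hL1 : StL1) (hN5 : StN5) :
    HKStatement := by
  intro C X Y n hn hX hY hXY
  obtain ⟨σ, hS, hpos, -⟩ := hN1 n _ hX
  have hT : hX.trans ≤ (C.H X).deg 1 := fun x hx => hx.1
  have hT' : hY.trans ≤ (C.H Y).deg 1 := fun x hx => hx.1
  obtain ⟨f0, hf0, hf0d, hf0σ⟩ := hM1 C X Y hXY hX.trans hT 2 σ hS.ne hS.mem
  have hf0ne : f0 ≠ 0 := by
    rintro rfl
    exact hf0σ (by simp)
  obtain ⟨f, hfeq, hfinj, -⟩ := hN2 n n _ _ hX hY f0 hf0 hf0d hf0ne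
  have hff0 : hY.trans.subtype ∘ₗ f = f0 := LinearMap.ext fun t => hfeq t
  have hf : IsHodgeFrom (C.H X).toHodgeLattice hX.trans (C.H Y).toHodgeLattice
      (hY.trans.subtype ∘ₗ f) := by rw [hff0]; exact hf0
  obtain ⟨u, x, m, hm, hu, hx, hur, hnorm, hid⟩ := hN6 C X Y n hn.pos hX hY hXY σ hS f hf hfinj
  have hmC : (m : ℂ) ≠ 0 := by exact_mod_cast hm.ne'
  have hcX : ((hX.c : ℚ) : ℂ) ≠ 0 := by exact_mod_cast hX.c_pos.ne'
  have hrhs : (m : ℂ) ^ 2 * hX.c ≠ 0 := mul_ne_zero (pow_ne_zero _ hmC) hcX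
  have hx0 : x ≠ 0 := by
    rintro rfl
    apply hrhs; rw [← hid]; simp
  have hu0 : u ≠ 0 := by
    rintro rfl
    apply hrhs; rw [← hid, zero_pow hn.pos.ne']; simp
  obtain ⟨k, hk⟩ := hn
  set w : ℂ := x * u ^ k with hw
  have hw0 : w ≠ 0 := mul_ne_zero hx0 (pow_ne_zero _ hu0)
  have hwm : w ∈ multFieldS (C.H X).toHodgeLattice hX.trans σ := mul_mem hx (pow_mem hu k)
  have hww : (hY.c : ℂ) * u * (w * starRingEnd ℂ w) = (m : ℂ) ^ 2 * hX.c := by
    have hun : u ^ n = u * u ^ k * u ^ k := by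
      have : u ^ n = u ^ (2 * k + 1) := congrArg (fun j => u ^ j) hk
      rw [this]; ring
    rw [← hid, hw, map_mul, map_pow, hur, hun]
    ring
  obtain ⟨N, hN, g, hg, hgσ⟩ := hwm
  have hNC : (N : ℂ) ≠ 0 := by exact_mod_cast hN
  have hfσ : f.baseChange ℂ σ ≠ 0 := by
    intro h0
    rw [h0] at hnorm
    simp only [map_zero, LinearMap.zero_apply] at hnorm
    rcases mul_eq_zero.mp hnorm.symm with h | h
    · exact hu0 h
    · exact hS.ne_zero h
  -- the map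
  have hψH : IsHodgeFrom (C.H X).toHodgeLattice hX.trans (C.H Y).toHodgeLattice (f0 ∘ₗ g) := by
    intro j z hz
    rw [LinearMap.baseChange_comp]
    exact hf0 j _ (hg j z hz)
  have hψσ : (f0 ∘ₗ g).baseChange ℂ σ = ((N : ℂ) * w) • f0.baseChange ℂ σ := by
    rw [LinearMap.baseChange_comp, LinearMap.comp_apply, hgσ, map_smul]
  have hψne : f0 ∘ₗ g ≠ 0 := by
    intro h0
    rw [h0] at hψσ
    have : ((N : ℂ) * w) • f0.baseChange ℂ σ = 0 := by rw [← hψσ]; simp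
    rcases smul_eq_zero.mp this with h | h
    · exact mul_ne_zero hNC hw0 h
    · exact hf0σ h
  obtain ⟨ψ, hψeq, hψinj, hψfin⟩ := hN2 n n _ _ hX hY (f0 ∘ₗ g) hψH (fun t => hf0d _) hψne
  have hψψ : hY.trans.subtype ∘ₗ ψ = f0 ∘ₗ g := LinearMap.ext fun t => hψeq t
  have hψg : ψ = f ∘ₗ g := by
    apply LinearMap.ext
    intro t
    apply Subtype.ext
    rw [hψeq, LinearMap.comp_apply, LinearMap.comp_apply, hfeq]
  have hψHodge : ∀ j (z : ℂ ⊗[ℤ] hX.trans), inclS hX.trans z ∈ (C.H X).comp j →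
      inclS hY.trans (ψ.baseChange ℂ z) ∈ (C.H Y).comp j := by
    intro j z hz
    have h1 := hψH j z hz
    rw [← hψψ, LinearMap.baseChange_comp] at h1
    exact h1
  have hψσ' : ψ.baseChange ℂ σ = ((N : ℂ) * w) • f.baseChange ℂ σ := by
    rw [hψg, LinearMap.baseChange_comp, LinearMap.comp_apply, hgσ, map_smul]
  have hconjsmul := hN5.2.2.2.2.1
  have hqψ : hY.qT.baseChange ℂ (ψ.baseChange ℂ σ) (conj _ (ψ.baseChange ℂ σ)) =
      ((N : ℂ) ^ 2 * (w * starRingEnd ℂ w)) * (u * hX.qT.baseChange ℂ σ (conj _ σ)) := by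
    rw [hψσ', hconjsmul, ← hnorm, map_smul, map_smul, LinearMap.smul_apply]
    simp only [smul_eq_mul, map_mul, map_intCast]
    ring
  -- the form
  set A : ℤ := hY.c.num * hX.c.den with hA
  set B : ℤ := ((N.natAbs * m : ℕ) : ℤ) ^ 2 * (hX.c.num * hY.c.den) with hB
  let b : LinearMap.BilinForm ℤ hX.trans := A • (hY.qT.compl₁₂ ψ ψ) - B • hX.qT
  have hbval : ∀ z z' : ℂ ⊗[ℤ] hX.trans, b.baseChange ℂ z z' =
      A * hY.qT.baseChange ℂ (ψ.baseChange ℂ z) (ψ.baseChange ℂ z') -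
        B * hX.qT.baseChange ℂ z z' := by
    intro z z'
    induction z using TensorProduct.induction_on with
    | zero => simp
    | add z1 z2 h1 h2 =>
      simp only [map_add, LinearMap.add_apply] at h1 h2 ⊢
      rw [h1, h2]; ring
    | tmul c v =>
      induction z' using TensorProduct.induction_on with
      | zero => simp
      | add z1 z2 h1 h2 =>
        simp only [map_add] at h1 h2 ⊢
        rw [h1, h2]; ring
      | tmul c' v' =>
        simp only [LinearMap.BilinForm.baseChange_tmul, LinearMap.baseChange_tmul, b,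
          LinearMap.sub_apply, LinearMap.smul_apply, LinearMap.compl₁₂_apply, smul_eq_mul]
        push_cast
        simp only [zsmul_eq_mul, Int.cast_sub, Int.cast_mul, Int.cast_pow, Int.cast_natCast]
        ring
  have hbH : IsHodgeFormOn (C.H X).toHodgeLattice hX.trans b := by
    intro j l hjl z z' hz hz'
    rw [hbval]
    have h1 : hY.qT.baseChange ℂ (ψ.baseChange ℂ z) (ψ.baseChange ℂ z') = 0 := by
      rw [Hyperkahler.qT, restrict_baseChange hN5]
      exact hY.q_orth j l hjl _ ⟨hψHodge j z hz, mem_degC hT' _⟩ _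
        ⟨hψHodge l z' hz', mem_degC hT' _⟩
    have h2 : hX.qT.baseChange ℂ z z' = 0 := hS.orth j l hjl z z' hz hz'
    rw [h1, h2]; simp
  have hconjψ : conj _ (ψ.baseChange ℂ σ) = ψ.baseChange ℂ (conj _ σ) :=
    hN5.2.2.2.1 _ _ ψ σ
  have hcYr : ((hY.c : ℚ) : ℂ) = hY.c.num / hY.c.den := by
    conv_lhs => rw [← Rat.num_div_den hY.c]
    push_cast; rfl
  have hcXr : ((hX.c : ℚ) : ℂ) = hX.c.num / hX.c.den := by
    conv_lhs => rw [← Rat.num_div_den hX.c]
    push_cast; rfl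
  have hdY : ((hY.c.den : ℕ) : ℂ) ≠ 0 := by exact_mod_cast hY.c.den_nz
  have hdX : ((hX.c.den : ℕ) : ℂ) ≠ 0 := by exact_mod_cast hX.c.den_nz
  have hNN : ((|N| : ℤ) : ℂ) ^ 2 = (N : ℂ) ^ 2 := by
    have : (|N| : ℤ) ^ 2 = N ^ 2 := sq_abs N
    exact_mod_cast this
  have hb0 : b.baseChange ℂ σ (conj _ σ) = 0 := by
    rw [hbval, ← hconjψ, hqψ, hA, hB]
    rw [hcYr, hcXr] at hww
    have h3 : (hY.c.num : ℂ) * u * (w * starRingEnd ℂ w) * hX.c.den =
        (m : ℂ) ^ 2 * hX.c.num * hY.c.den := by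
      field_simp at hww
      linear_combination hww
    push_cast
    rw [mul_pow, hNN]
    linear_combination ((N : ℂ) ^ 2 * hX.qT.baseChange ℂ σ (conj _ σ)) * h3
  have hbzero : b = 0 := (hL1 _ _ _ _ _ hS b hbH).2 hb0
  refine ⟨N.natAbs * m, ψ, Nat.mul_pos (Int.natAbs_pos.mpr hN) hm, hψHodge, hψinj, hψfin, ?_⟩
  intro s t
  have h4 : A * hY.q (ψ s) (ψ t) = B * hX.q s t := by
    have h5 : b s t = 0 := by rw [hbzero]; rfl
    have h6 : b s t = A * hY.q (ψ s) (ψ t) - B * hX.q s t := by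
      simp only [b, LinearMap.sub_apply, LinearMap.smul_apply, LinearMap.compl₁₂_apply,
        smul_eq_mul]
      rfl
    rw [h6] at h5
    linarith
  have h7 : (A : ℚ) * hY.q (ψ s) (ψ t) = B * hX.q s t := by exact_mod_cast h4
  have hY1 : (hY.c : ℚ) * hY.c.den = hY.c.num := Rat.mul_den_eq_num _
  have hX1 : (hX.c : ℚ) * hX.c.den = hX.c.num := Rat.mul_den_eq_num _
  have hdY' : ((hY.c.den : ℕ) : ℚ) ≠ 0 := by exact_mod_cast hY.c.den_nz
  have hdX' : ((hX.c.den : ℕ) : ℚ) ≠ 0 := by exact_mod_cast hX.c.den_nz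
  rw [hA, hB] at h7
  push_cast at h7
  rw [← hY1, ← hX1] at h7
  push_cast
  rw [Nat.cast_natAbs, Int.cast_abs]
  have h8 : ((hY.c.den : ℕ) : ℚ) * ((hX.c.den : ℕ) : ℚ) ≠ 0 := mul_ne_zero hdY' hdX'
  apply mul_left_cancel₀ h8
  linear_combination h7

end Pool.Agent.Lib.MP0cb87d
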