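import Pool.Agent.Lib.MP_0cb87d_ag.Final
import Pool.Agent.Lib.MP_0cb87d_ag.HK.K1
import Pool.Agent.Lib.MP_0cb87d_ag.HK.K2
import Pool.Agent.Lib.MP_0cb87d_ag.HK.K3
import Pool.Agent.Lib.MP_0cb87d_ag.HK.L1
import Pool.Agent.Lib.MP_0cb87d_ag.HK.L2
import Pool.Agent.Lib.MP_0cb87d_ag.HK.L3
import Pool.Agent.Lib.MP_0cb87d_ag.HK.L4
import Pool.Agent.Lib.MP_0cb87d_ag.HK.L5
import Pool.Agent.Lib.MP_0cb87d_ag.HK.M1
import Pool.Agent.Lib.MP_0cb87d_ag.HK.N1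
import Pool.Agent.Lib.MP_0cb87d_ag.HK.N2
import Pool.Agent.Lib.MP_0cb87d_ag.HK.N3
import Pool.Agent.Lib.MP_0cb87d_ag.HK.N4
import Pool.Agent.Lib.MP_0cb87d_ag.HK.N6
import Pool.Agent.Lib.MP_0cb87d_ag.HK.N7

/-! The theorem on hyperkähler manifolds, from the modules. -/

namespace Pool.Agent.Lib.MP0cb87d

theorem mainHK : HKStatement := by
  have hC3 : StC3 := stC3 stA3 stA4
  have hC2 : StC2 := stC2 stA1 (stA2 stA1 stA3) stB2 stC1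
  have hD : StD := stD stD0 (stD1 hC2 hC3 stC4)
  have hL3 : StL3 := stL3 stE1 stA5 stA6 stL1 stL2
  have hL4 : StL4 := stL4 hD stL2 hL3
  have hN2 : StN2 := stN2 stN1 stL1 stL2
  have hN6 : StN6 := stN6 (stK3 (stK2 stK1)) stL1 hL4 stL5 stN1 stN3 stN4 stN5
  exact stN7 (stM1 stC1) stN1 hN2 hN6 stL1 stN5

end Pool.Agent.Lib.MP0cb87d
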