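import Pool.Agent.Lib.MP_0cb87d_ag.HK.Defs
import Pool.Agent.Lib.MP_0cb87d_ag.Stmts

/-! Auxiliary definitions and the statements of the modules of the proof of `HKStatement`. -/

namespace Pool.Agent.Lib.MP0cb87d

open TensorProduct

/-! ### Part K: automorphisms of the complex numbers -/

/-- The fixed field of the automorphisms of `ℂ` is `ℚ`. -/
def StK1 : Prop := ∀ z : ℂ, (∀ γ : ℂ ≃+* ℂ, γ z = z) → ∃ q : ℚ, z = q

/-- Artin independence. -/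
def StK2 : Prop := ∀ (m : ℕ) (c a : Fin m → ℂ), LinearIndependent ℚ c →
  (∀ γ : ℂ ≃+* ℂ, ∑ k, a k * γ (c k) = 0) → a = 0

/-- The action of an automorphism of `ℂ` on `ℂ ⊗ V`. -/
noncomputable def gact (V : Type) [AddCommGroup V] (γ : ℂ ≃+* ℂ) :
    ℂ ⊗[ℤ] V →ₗ[ℤ] ℂ ⊗[ℤ] V :=
  LinearMap.rTensor V (γ : ℂ →+* ℂ).toAddMonoidHom.toIntLinearMap

/-- If `q (σ, γ σ) ≠ 0` implies `γ x = conj x`, then multiplication by `x` on `σ` comes from an
endomorphism, whose adjoint acts on `σ` as `conj x`. -/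
def StK3 : Prop := ∀ (T : Type) [AddCommGroup T] [Module.Free ℤ T] [Module.Finite ℤ T]
  (q : LinearMap.BilinForm ℤ T), (∀ x y, q x y = q y x) → (∀ x, (∀ y, q x y = 0) → x = 0) →
  ∀ (σ : ℂ ⊗[ℤ] T), (∀ t : T, q.baseChange ℂ (1 ⊗ₜ t) σ = 0 → t = 0) →
  ∀ x : ℂ, (∀ γ : ℂ ≃+* ℂ, starRingEnd ℂ x * q.baseChange ℂ σ (gact T γ σ) =
    γ x * q.baseChange ℂ σ (gact T γ σ)) →
  ∃ (d : ℤ) (a b : T →ₗ[ℤ] T), d ≠ 0 ∧ (∀ s t, q (a s) t = q s (b t)) ∧
    a.baseChange ℂ σ = ((d : ℂ) * x) • σ ∧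
    b.baseChange ℂ σ = ((d : ℂ) * starRingEnd ℂ x) • σ

/-! ### Part L: sources -/

/-- The inclusion of the complexification of a subgroup. -/
noncomputable def inclS {V : Type} [AddCommGroup V] (S : Submodule ℤ V) :
    ℂ ⊗[ℤ] S →ₗ[ℂ] ℂ ⊗[ℤ] V :=
  S.subtype.baseChange ℂ

/-- A Hodge endomorphism of a subgroup of a Hodge lattice. -/
def IsHodgeEnd (X : HodgeLattice) (S : Submodule ℤ X.V) (f : S →ₗ[ℤ] S) : Prop :=
  ∀ k x, inclS S x ∈ X.comp k → inclS S (f.baseChange ℂ x) ∈ X.comp k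

/-- A Hodge form on a subgroup of a Hodge lattice. -/
def IsHodgeFormOn (X : HodgeLattice) (S : Submodule ℤ X.V) (β : LinearMap.BilinForm ℤ S) :
    Prop :=
  ∀ k l, k + l ≠ 0 → ∀ x y : ℂ ⊗[ℤ] S, inclS S x ∈ X.comp k → inclS S y ∈ X.comp l →
    β.baseChange ℂ x y = 0

/-- `S` is an irreducible Hodge substructure of `X` with a line `ℂ ω` of type `k`, and `β` is a
nondegenerate symmetric Hodge form on it. -/
structure Source (X : HodgeLattice) (S : Submodule ℤ X.V) (β : LinearMap.BilinForm ℤ S) (k : ℤ)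
    (ω : ℂ ⊗[ℤ] S) : Prop where
  graded : ∀ z : ℂ ⊗[ℤ] S, ∃ y : ℤ →₀ (ℂ ⊗[ℤ] S), (∀ i, inclS S (y i) ∈ X.comp i) ∧
    y.sum (fun _ v => v) = z
  mem : inclS S ω ∈ X.comp k
  ne : ω ≠ 0
  line : ∀ z, inclS S z ∈ X.comp k → ∃ c : ℂ, z = c • ω
  irr : ∀ f : S →ₗ[ℤ] S, IsHodgeEnd X S f → f.baseChange ℂ ω = 0 → f = 0
  symm : ∀ x y, β x y = β y x
  orth : IsHodgeFormOn X S β
  nondeg : ∀ x, (∀ y, β x y = 0) → x = 0
  ne_zero : β.baseChange ℂ ω (conj S ω) ≠ 0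

/-- The ring of multipliers of a source. -/
def multS (X : HodgeLattice) (S : Submodule ℤ X.V) (ω : ℂ ⊗[ℤ] S) : Subring ℂ where
  carrier := {c | ∃ f : S →ₗ[ℤ] S, IsHodgeEnd X S f ∧ f.baseChange ℂ ω = c • ω}
  mul_mem' := by
    rintro a b ⟨f, hf, hfa⟩ ⟨g, hg, hgb⟩
    refine ⟨f ∘ₗ g, fun k x hx => ?_, ?_⟩
    · rw [LinearMap.baseChange_comp]
      exact hf k _ (hg k x hx)
    · rw [LinearMap.baseChange_comp, LinearMap.comp_apply, hgb, map_smul, hfa, smul_smul, mul_comm]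
  one_mem' := ⟨LinearMap.id, fun k x hx => by simpa using hx, by simp⟩
  add_mem' := by
    rintro a b ⟨f, hf, hfa⟩ ⟨g, hg, hgb⟩
    refine ⟨f + g, fun k x hx => ?_, ?_⟩
    · rw [LinearMap.baseChange_add, LinearMap.add_apply, map_add]
      exact add_mem (hf k x hx) (hg k x hx)
    · rw [LinearMap.baseChange_add, LinearMap.add_apply, hfa, hgb, add_smul]
  zero_mem' := ⟨0, fun k x hx => by simp, by simp⟩
  neg_mem' := by
    rintro a ⟨f, hf, hfa⟩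
    refine ⟨-f, fun k x hx => ?_, ?_⟩
    · rw [LinearMap.baseChange_neg, LinearMap.neg_apply, map_neg]
      exact neg_mem (hf k x hx)
    · rw [LinearMap.baseChange_neg, LinearMap.neg_apply, hfa, neg_smul]

/-- The field of fractions of the ring of multipliers. -/
def multFieldS (X : HodgeLattice) (S : Submodule ℤ X.V) (ω : ℂ ⊗[ℤ] S) : Subring ℂ where
  carrier := {c | ∃ n : ℤ, n ≠ 0 ∧ (n : ℂ) * c ∈ multS X S ω}
  mul_mem' := by
    rintro a b ⟨n, hn, ha⟩ ⟨m, hm, hb⟩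
    refine ⟨n * m, mul_ne_zero hn hm, ?_⟩
    have : ((n * m : ℤ) : ℂ) * (a * b) = (n * a) * (m * b) := by push_cast; ring
    rw [this]; exact mul_mem ha hb
  one_mem' := ⟨1, one_ne_zero, by simp⟩
  add_mem' := by
    rintro a b ⟨n, hn, ha⟩ ⟨m, hm, hb⟩
    refine ⟨n * m, mul_ne_zero hn hm, ?_⟩
    have : ((n * m : ℤ) : ℂ) * (a + b) = (m : ℂ) * (n * a) + (n : ℂ) * (m * b) := by
      push_cast; ring
    rw [this]
    exact add_mem (mul_mem (intCast_mem _ m) ha) (mul_mem (intCast_mem _ n) hb)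
  zero_mem' := ⟨1, one_ne_zero, by simp⟩
  neg_mem' := by
    rintro a ⟨n, hn, ha⟩
    exact ⟨n, hn, by simpa using ha⟩

/-- A Hodge form on a source is a multiple of the given form. -/
def StL1 : Prop := ∀ (X : HodgeLattice) (S : Submodule ℤ X.V) (β : LinearMap.BilinForm ℤ S)
  (k : ℤ) (ω : ℂ ⊗[ℤ] S), Source X S β k ω → ∀ b : LinearMap.BilinForm ℤ S,
  IsHodgeFormOn X S b →
  (∃ (d : ℤ) (f : S →ₗ[ℤ] S) (c : ℂ), d ≠ 0 ∧ IsHodgeEnd X S f ∧ f.baseChange ℂ ω = c • ω ∧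
    (∀ x y, d * b x y = β (f x) y) ∧
    (d : ℂ) * b.baseChange ℂ ω (conj S ω) = c * β.baseChange ℂ ω (conj S ω)) ∧
  (b.baseChange ℂ ω (conj S ω) = 0 → b = 0)

/-- The ring of multipliers is finitely generated as a group; its field of fractions is a field. -/
def StL2 : Prop := ∀ (X : HodgeLattice) (S : Submodule ℤ X.V) (β : LinearMap.BilinForm ℤ S)
  (k : ℤ) (ω : ℂ ⊗[ℤ] S), Source X S β k ω →
  (multS X S ω).toAddSubgroup.FG ∧ IsField (multFieldS X S ω) ∧ IsDedekindDomain (multFieldS X S ω)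

/-- The `R`-span of the vectors `f ω`, where `f : S → N` is a Hodge map. -/
noncomputable def homLatS (R : Subring ℂ) (X : HodgeLattice) (S : Submodule ℤ X.V)
    (ω : ℂ ⊗[ℤ] S) (N : HodgeLattice) : Submodule R (ℂ ⊗[ℤ] N.V) :=
  Submodule.span R {v | ∃ f : S →ₗ[ℤ] N.V, IsHodgeFrom X S N f ∧ f.baseChange ℂ ω = v}

/-- `homLatS` over the field of multipliers is a functorial lattice. -/
def StL3 : Prop := ∀ (X : HodgeLattice) (S : Submodule ℤ X.V) (β : LinearMap.BilinForm ℤ S)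
  (k : ℤ) (ω : ℂ ⊗[ℤ] S), Source X S β k ω →
  ∃ F : LatFunctor (multFieldS X S ω), ∀ N, F.L N = homLatS (multFieldS X S ω) X S ω N

/-- L-equivalent varieties and an irreducible Hodge structure of top type. -/
def StL4 : Prop := ∀ (C : EvenCohomology) (X Y : C.Var), C.LEquivalent X Y →
  ∀ (S : Submodule ℤ (C.H X).V) (k : ℤ) (ω : ℂ ⊗[ℤ] S),
  Source (C.H X) S ((C.H X).form.restrict S) k ω →
  (∀ x ∈ (C.H X).comp k, ∃ c : ℂ, x = c • inclS S ω) →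
  0 < ((C.H X).form.baseChange ℂ (inclS S ω) (conj _ (inclS S ω))).re →
  Module.finrank ℂ ((C.H Y).comp k) = 1 →
  (∀ y ∈ (C.H Y).comp k, y ≠ 0 → 0 < ((C.H Y).form.baseChange ℂ y (conj _ y)).re) →
  ∃ (n : ℕ) (g : S →ₗ[ℤ] (C.H Y).V), 0 < n ∧ IsHodgeFrom (C.H X) S (C.H Y) g ∧
    (C.H Y).form.baseChange ℂ (g.baseChange ℂ ω) (conj _ (g.baseChange ℂ ω)) =
      (n : ℂ) ^ 2 * (C.H X).form.baseChange ℂ (inclS S ω) (conj _ (inclS S ω))

/-- Existence of the irreducible Hodge structure of top type. -/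
def StL5 : Prop := ∀ (N : HodgeLattice) (d : ℤ), 0 < d → (∀ k, d < k → N.comp k = ⊥) →
  Module.finrank ℂ (N.comp d) = 1 →
  (∀ x ∈ N.comp d, x ≠ 0 → 0 < (N.form.baseChange ℂ x (conj _ x)).re) →
  ∃ (S : Submodule ℤ N.V) (ω : ℂ ⊗[ℤ] S), Source N S (N.form.restrict S) d ω ∧
    (∀ x ∈ N.comp d, ∃ c : ℂ, x = c • inclS S ω) ∧
    (N.form.restrict S).baseChange ℂ ω (conj S ω) =
      N.form.baseChange ℂ (inclS S ω) (conj _ (inclS S ω))

/-! ### Part M: the additive measure in degree one -/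

/-- The underlying theory without grading. -/
def GradedEvenCohomology.toEven (C : GradedEvenCohomology) : EvenCohomology where
  Var := C.Var
  H := fun X => (C.H X).toHodgeLattice
  timesP1 := C.timesP1
  IsEmptyVar := C.IsEmptyVar
  IsUnion := C.IsUnion
  IsBlowup := C.IsBlowup
  timesP1_spec := fun X => by
    obtain ⟨b, h1, h2, h3, h4⟩ := C.timesP1_spec X
    exact ⟨b, fun i => (h1 i).1, h2, h3, fun i j hij x y => by rw [h4 i j hij]; simp⟩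
  empty_spec := C.empty_spec
  union_spec := fun X Y S h => by
    obtain ⟨a, b, h1, h2, h3, h4, h5, h6⟩ := C.union_spec X Y S h
    exact ⟨a, b, h1.1, h2.1, h3, h4, h5, h6⟩
  blowup_spec := fun X Z m B E h => by
    obtain ⟨⟨a, b, h1, h2, h3, h4, h5, h6, h7⟩, b', k1, k2, k3, k4⟩ := C.blowup_spec X Z m B E h
    exact ⟨⟨a, b, h1.1, fun i => (h2 i).1, h3, h4, h5, h6, h7⟩,
      b', fun i => (k1 i).1, k2, k3, fun i j hij x y => by rw [k4 i j hij]; simp⟩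

/-- A Hodge map of `T ⊆ H²(X)` to `H²(Y)`. -/
def StM1 : Prop := ∀ (C : GradedEvenCohomology) (X Y : C.Var), C.LEquivalent X Y →
  ∀ (T : Submodule ℤ (C.H X).V), T ≤ (C.H X).deg 1 → ∀ (k : ℤ) (σ : ℂ ⊗[ℤ] T), σ ≠ 0 →
  inclS T σ ∈ (C.H X).comp k →
  ∃ f : T →ₗ[ℤ] (C.H Y).V, IsHodgeFrom (C.H X).toHodgeLattice T (C.H Y).toHodgeLattice f ∧
    (∀ t, f t ∈ (C.H Y).deg 1) ∧ f.baseChange ℂ σ ≠ 0

/-! ### Part N: hyperkähler manifolds -/

/-- The form `q` on the transcendental lattice. -/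
def Hyperkahler.qT {n : ℕ} {N : GradedHodgeLattice} (h : Hyperkahler n N) :
    LinearMap.BilinForm ℤ h.trans :=
  h.q.restrict h.trans

/-- The transcendental lattice is a source, and strongly irreducible. -/
def StN1 : Prop := ∀ (n : ℕ) (N : GradedHodgeLattice) (h : Hyperkahler n N),
  ∃ σ : ℂ ⊗[ℤ] h.trans, Source N.toHodgeLattice h.trans h.qT 2 σ ∧
    0 < (h.qT.baseChange ℂ σ (conj _ σ)).re ∧
    (∀ (P : Type) [AddCommGroup P] [Module.Free ℤ P] [Module.Finite ℤ P]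
      (f : h.trans →ₗ[ℤ] P), f.baseChange ℂ σ = 0 → f = 0) ∧
    (∀ t : h.trans, h.qT.baseChange ℂ (1 ⊗ₜ t) σ = 0 → t = 0) ∧
    (∀ x ∈ comp2 N 2, ∃ c : ℂ, x = c • inclS h.trans σ)

/-- A Hodge map between the `H²` restricted to a transcendental lattice has values in the
transcendental lattice, is injective and has image of finite index. -/
def StN2 : Prop := ∀ (n n' : ℕ) (N N' : GradedHodgeLattice) (h : Hyperkahler n N)
  (h' : Hyperkahler n' N') (f : h.trans →ₗ[ℤ] N'.V),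
  IsHodgeFrom N.toHodgeLattice h.trans N'.toHodgeLattice f → (∀ t, f t ∈ N'.deg 1) → f ≠ 0 →
  ∃ g : h.trans →ₗ[ℤ] h'.trans, (∀ t, (g t : N'.V) = f t) ∧ Function.Injective g ∧
    ∃ m : ℕ, 0 < m ∧ ∀ y : h'.trans, ∃ x : h.trans, g x = m • y

/-- An endomorphism of the transcendental lattice which acts on `σ`, together with its adjoint,
is a Hodge map. -/
def StN3 : Prop := ∀ (n : ℕ) (N : GradedHodgeLattice) (h : Hyperkahler n N)
  (σ : ℂ ⊗[ℤ] h.trans), Source N.toHodgeLattice h.trans h.qT 2 σ →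
  ∀ (a b : h.trans →ₗ[ℤ] h.trans), (∀ s t, h.qT (a s) t = h.qT s (b t)) →
  (∃ c : ℂ, a.baseChange ℂ σ = c • σ) → (∃ c : ℂ, b.baseChange ℂ σ = c • σ) →
  IsHodgeEnd N.toHodgeLattice h.trans a

/-- The `n`-th power of an element of the complexified even cohomology. -/
noncomputable def Hyperkahler.pow {n : ℕ} {N : GradedHodgeLattice} (h : Hyperkahler n N)
    (x : ℂ ⊗[ℤ] N.V) : ℂ ⊗[ℤ] N.V :=
  h.e.toLinearMap.baseChange ℂ ((h.e.symm.toLinearMap.baseChange ℂ x) ^ n)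

/-- Properties of powers. -/
def StN4 : Prop := ∀ (n : ℕ) (N : GradedHodgeLattice) (h : Hyperkahler n N),
  (∀ x ∈ comp2 N 2, h.pow x ∈ N.comp (2 * n)) ∧
  (∀ x (γ : ℂ ≃+* ℂ), gact _ γ (h.pow x) = h.pow (gact _ γ x)) ∧
  (∀ x, conj _ (h.pow x) = h.pow (conj _ x)) ∧
  (∀ (c : ℂ) x, h.pow (c • x) = c ^ n • h.pow x) ∧
  (∀ x ∈ (N.deg 1).baseChange ℂ, ∀ y ∈ (N.deg 1).baseChange ℂ, h.q.baseChange ℂ x x = 0 →
    h.q.baseChange ℂ y y = 0 →
    N.form.baseChange ℂ (h.pow x) (h.pow y) = h.c * h.q.baseChange ℂ x y ^ n)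

/-- General facts on the action of automorphisms. -/
def StN5 : Prop :=
  (∀ (V W : Type) [AddCommGroup V] [AddCommGroup W] (f : V →ₗ[ℤ] W) (γ : ℂ ≃+* ℂ)
    (x : ℂ ⊗[ℤ] V), gact W γ (f.baseChange ℂ x) = f.baseChange ℂ (gact V γ x)) ∧
  (∀ (V : Type) [AddCommGroup V] (γ : ℂ ≃+* ℂ) (c : ℂ) (x : ℂ ⊗[ℤ] V),
    gact V γ (c • x) = γ c • gact V γ x) ∧
  (∀ (V : Type) [AddCommGroup V] (b : LinearMap.BilinForm ℤ V) (γ : ℂ ≃+* ℂ)
    (x y : ℂ ⊗[ℤ] V), b.baseChange ℂ (gact V γ x) (gact V γ y) = γ (b.baseChange ℂ x y)) ∧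
  (∀ (V W : Type) [AddCommGroup V] [AddCommGroup W] (f : V →ₗ[ℤ] W) (x : ℂ ⊗[ℤ] V),
    conj W (f.baseChange ℂ x) = f.baseChange ℂ (conj V x)) ∧
  (∀ (V : Type) [AddCommGroup V] (c : ℂ) (x : ℂ ⊗[ℤ] V),
    conj V (c • x) = starRingEnd ℂ c • conj V x) ∧
  (∀ (V : Type) [AddCommGroup V] (b : LinearMap.BilinForm ℤ V) (x y : ℂ ⊗[ℤ] V),
    b.baseChange ℂ (conj V x) (conj V y) = starRingEnd ℂ (b.baseChange ℂ x y)) ∧
  (∀ (V W : Type) [AddCommGroup V] [AddCommGroup W] (b : LinearMap.BilinForm ℤ W)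
    (f g : V →ₗ[ℤ] W) (x y : ℂ ⊗[ℤ] V), LinearMap.BilinForm.baseChange ℂ (b.compl₁₂ f g) x y =
      b.baseChange ℂ (f.baseChange ℂ x) (g.baseChange ℂ y))

/-- The arithmetic of the conclusion: the unit `u` with `q' (f σ, conj (f σ)) = u q (σ, conj σ)`
satisfies `c' x (conj x) u ^ n = m ^ 2 c` for some `x` in the field of multipliers. -/
def StN6 : Prop := ∀ (C : GradedEvenCohomology) (X Y : C.Var) (n : ℕ), 0 < n →
  ∀ (hX : Hyperkahler n (C.H X)) (hY : Hyperkahler n (C.H Y)), C.LEquivalent X Y →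
  ∀ (σ : ℂ ⊗[ℤ] hX.trans), Source (C.H X).toHodgeLattice hX.trans hX.qT 2 σ →
  ∀ (f : hX.trans →ₗ[ℤ] hY.trans),
    IsHodgeFrom (C.H X).toHodgeLattice hX.trans (C.H Y).toHodgeLattice
      (hY.trans.subtype ∘ₗ f) → Function.Injective f →
  ∃ (u x : ℂ) (m : ℕ), 0 < m ∧ u ∈ multFieldS (C.H X).toHodgeLattice hX.trans σ ∧
    x ∈ multFieldS (C.H X).toHodgeLattice hX.trans σ ∧ starRingEnd ℂ u = u ∧
    hY.qT.baseChange ℂ (f.baseChange ℂ σ) (conj _ (f.baseChange ℂ σ)) =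
      u * hX.qT.baseChange ℂ σ (conj _ σ) ∧
    (hY.c : ℂ) * (x * starRingEnd ℂ x) * u ^ n = (m : ℂ) ^ 2 * hX.c

end Pool.Agent.Lib.MP0cb87d
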